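import Mathlib
import Pool.Agent.TH278.DX.Defs

set_option autoImplicit false

namespace Pool.Agent.TH645.J4454

open Real

theorem power_law (f : ℝ → ℝ) (h1 : ∀ c, 1 ≤ c → 1 ≤ f c)
    (hmono : ∀ c d, 1 ≤ c → c ≤ d → f c ≤ f d)
    (hint : ∀ c, 1 ≤ c → ∀ j k : ℕ, 0 < j → j ≤ 2 ^ k →
      f c ≤ f (c ^ ((j : ℝ) / 2 ^ k)) ^ ((2 : ℝ) ^ k / j))
    (hsq : ∀ c, 1 ≤ c → f c ^ 2 ≤ f (c ^ 2)) :
    ∃ a : ℝ, 0 ≤ a ∧ ∀ c, 1 ≤ c → f c = c ^ a := by
  set g : ℝ → ℝ := fun u => Real.log (f (Real.exp u)) with hg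
  have hexp : ∀ u : ℝ, 0 ≤ u → 1 ≤ Real.exp u := fun u hu => Real.one_le_exp hu
  have hf1 : ∀ u : ℝ, 0 ≤ u → 1 ≤ f (Real.exp u) := fun u hu => h1 _ (hexp u hu)
  have hg0 : ∀ u : ℝ, 0 ≤ u → 0 ≤ g u := fun u hu => Real.log_nonneg (hf1 u hu)
  have hgm : ∀ u v : ℝ, 0 ≤ u → u ≤ v → g u ≤ g v := fun u v hu huv =>
    Real.log_le_log (by linarith [hf1 u hu]) (hmono _ _ (hexp u hu) (Real.exp_le_exp.2 huv))
  -- dyadic
  have hdy : ∀ u : ℝ, 0 ≤ u → ∀ j k : ℕ, 0 < j → j ≤ 2 ^ k →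
      ((j : ℝ) / 2 ^ k) * g u ≤ g ((j : ℝ) / 2 ^ k * u) := by
    intro u hu j k hj hjk
    have h2 := hint (Real.exp u) (hexp u hu) j k hj hjk
    rw [← Real.exp_mul, mul_comm u] at h2
    have hj' : (0 : ℝ) < j := by exact_mod_cast hj
    have h3 : 0 ≤ (j : ℝ) / 2 ^ k * u := by positivity
    have h4 := Real.log_le_log (by linarith [hf1 u hu]) h2
    rw [Real.log_rpow (by linarith [hf1 _ h3])] at h4
    have h5 : g u ≤ (2 : ℝ) ^ k / j * g ((j : ℝ) / 2 ^ k * u) := h4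
    calc ((j : ℝ) / 2 ^ k) * g u ≤ ((j : ℝ) / 2 ^ k) * ((2 : ℝ) ^ k / j * g ((j : ℝ) / 2 ^ k * u)) :=
          mul_le_mul_of_nonneg_left h5 (by positivity)
      _ = _ := by
          field_simp
  have hdbl : ∀ u : ℝ, 0 ≤ u → g (2 * u) = 2 * g u := by
    intro u hu
    apply le_antisymm
    · have h2 := hdy (2 * u) (by linarith) 1 1 (by norm_num) (by norm_num)
      norm_num at h2
      have e : (1 : ℝ) / 2 * (2 * u) = u := by ring
      rw [e] at h2
      linarith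
    · have h2 := hsq (Real.exp u) (hexp u hu)
      have h3 := Real.log_le_log (by have := hf1 u hu; positivity) h2
      rw [Real.log_pow, ← Real.exp_nat_mul] at h3
      push_cast at h3
      exact h3
  have hpow : ∀ (n : ℕ) (u : ℝ), 0 ≤ u → g (2 ^ n * u) = 2 ^ n * g u := by
    intro n
    induction n with
    | zero => intro u _; simp
    | succ n ih =>
      intro u hu
      rw [pow_succ, mul_assoc, ih (2 * u) (by linarith), hdbl u hu]
      ring
  -- all real factors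
  have hreal : ∀ (t u : ℝ), 0 < t → t ≤ 1 → 0 ≤ u → t * g u ≤ g (t * u) := by
    intro t u ht ht1 hu
    have hlim : Filter.Tendsto (fun k : ℕ => (t - (1 / 2 : ℝ) ^ k) * g u) Filter.atTop (nhds ((t - 0) * g u)) :=
      (tendsto_const_nhds.sub (tendsto_pow_atTop_nhds_zero_of_lt_one (by norm_num) (by norm_num))).mul_const _
    rw [sub_zero] at hlim
    obtain ⟨k0, hk0⟩ := exists_pow_lt_of_lt_one ht (by norm_num : (1 / 2 : ℝ) < 1)
    refine le_of_tendsto hlim (Filter.eventually_atTop.2 ⟨k0, fun k hk => ?_⟩)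
    have hk1 : (1 / 2 : ℝ) ^ k < t :=
      lt_of_le_of_lt (pow_le_pow_of_le_one (by norm_num) (by norm_num) hk) hk0
    have h2k : (0 : ℝ) < 2 ^ k := by positivity
    have hinv : (1 / 2 : ℝ) ^ k = 1 / 2 ^ k := by rw [one_div_pow]
    set j : ℕ := ⌊t * 2 ^ k⌋₊ with hj
    have hj1 : (j : ℝ) ≤ t * 2 ^ k := Nat.floor_le (by positivity)
    have hj2 : t * 2 ^ k < j + 1 := Nat.lt_floor_add_one _
    have hj0 : 0 < j := by
      rw [hj, Nat.floor_pos]
      rw [hinv, div_lt_iff₀ h2k] at hk1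
      linarith
    have hjk : j ≤ 2 ^ k := by
      have : (j : ℝ) ≤ 2 ^ k := hj1.trans (by nlinarith)
      exact_mod_cast this
    have h3 := hdy u hu j k hj0 hjk
    have h4 : (j : ℝ) / 2 ^ k ≤ t := by rw [div_le_iff₀ h2k]; exact hj1
    have h5 : t - (1 / 2 : ℝ) ^ k ≤ (j : ℝ) / 2 ^ k := by
      rw [hinv, le_div_iff₀ h2k, sub_mul, one_div, inv_mul_cancel₀ h2k.ne']
      linarith
    calc (t - (1 / 2 : ℝ) ^ k) * g u ≤ ((j : ℝ) / 2 ^ k) * g u := mul_le_mul_of_nonneg_right h5 (hg0 u hu)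
      _ ≤ g ((j : ℝ) / 2 ^ k * u) := h3
      _ ≤ g (t * u) := hgm _ _ (by positivity) (mul_le_mul_of_nonneg_right h4 hu)
  -- linearity
  have hlin : ∀ u v : ℝ, 0 < u → u ≤ v → g v = v / u * g u := by
    intro u v hu huv
    have hv : 0 < v := by linarith
    apply le_antisymm
    · have h2 := hreal (u / v) v (by positivity) ((div_le_one hv).2 huv) hv.le
      rw [div_mul_cancel₀ _ hv.ne'] at h2
      calc g v = v / u * (u / v * g v) := by field_simp
        _ ≤ v / u * g u := mul_le_mul_of_nonneg_left h2 (by positivity)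
    · obtain ⟨n, hn⟩ := pow_unbounded_of_one_lt (v / u) (by norm_num : (1 : ℝ) < 2)
      have h2n : (0 : ℝ) < 2 ^ n := by positivity
      rw [div_lt_iff₀ hu] at hn
      have h2 := hreal (v / (2 ^ n * u)) (2 ^ n * u) (by positivity) ((div_le_one (by positivity)).2 hn.le)
        (by positivity)
      rw [div_mul_cancel₀ _ (by positivity), hpow n u hu.le] at h2
      calc v / u * g u = v / (2 ^ n * u) * (2 ^ n * g u) := by field_simp
        _ ≤ g v := h2
  have hlin1 : ∀ u : ℝ, 0 ≤ u → g u = u * g 1 := by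
    intro u hu
    rcases hu.eq_or_lt with h | h
    · rw [← h]
      have := hdbl 0 le_rfl
      rw [mul_zero] at this
      linarith
    · rcases le_total u 1 with hu1 | hu1
      · have := hlin u 1 h hu1
        rw [this]
        field_simp
      · have := hlin 1 u one_pos hu1
        rw [this]
        ring
  refine ⟨g 1, hg0 1 zero_le_one, fun c hc => ?_⟩
  have hc0 : 0 < c := by linarith
  have h2 := hlin1 (Real.log c) (Real.log_nonneg hc)
  have h3 : g (Real.log c) = Real.log (f c) := by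
    rw [hg]
    simp only
    rw [Real.exp_log hc0]
  rw [h3] at h2
  rw [Real.rpow_def_of_pos hc0, ← h2, Real.exp_log (by linarith [h1 c hc])]

end Pool.Agent.TH645.J4454
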