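import Mathlib
import Pool.Agent.TH974.IH.Box

set_option autoImplicit false

open Finset MeasureTheory ProbabilityTheory Filter Topology
open scoped ENNReal NNReal

namespace Pool.Agent.TH645.IH
open Pool.Agent.TH974.IH

theorem bern_prob (p : ℝ) (hp0 : 0 ≤ p) (hp1 : p ≤ 1) : IsProbabilityMeasure (bern p) := by
  constructor
  unfold bern
  simp only [Measure.coe_add, Measure.coe_smul, Pi.add_apply, Pi.smul_apply, measure_univ,
    smul_eq_mul, mul_one]
  rw [← ENNReal.ofReal_add hp0 (by linarith)]
  simp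

theorem perc_prob {d : ℕ} (p : ℝ) (hp0 : 0 ≤ p) (hp1 : p ≤ 1) :
    IsProbabilityMeasure (perc d p) := by
  have := bern_prob p hp0 hp1
  unfold perc
  infer_instance

/-- the shift as a measurable equivalence -/
def shE {d : ℕ} (z : Zd d) : Env d ≃ᵐ Env d where
  toFun := sh z
  invFun := sh (-z)
  left_inv := by
    intro ω
    funext e
    simp [sh]
  right_inv := by
    intro ω
    funext e
    simp [sh]
  measurable_toFun := measurable_pi_lambda _ fun e => measurable_pi_apply _
  measurable_invFun := measurable_pi_lambda _ fun e => measurable_pi_apply _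

theorem perc_map_sh {d : ℕ} (p : ℝ) (hp0 : 0 ≤ p) (hp1 : p ≤ 1) (z : Zd d) :
    (perc d p).map (sh z) = perc d p := by
  have := bern_prob p hp0 hp1
  have hf : Function.Injective (fun e : Ed d => ((e.1 + z, e.2) : Ed d)) := by
    rintro ⟨x, i⟩ ⟨y, j⟩ h
    simpa using h
  exact Measure.map_infinitePi_infinitePi_of_inj (P := fun _ : Ed d => bern p) hf

theorem perc_shift {d : ℕ} (p : ℝ) (hp0 : 0 ≤ p) (hp1 : p ≤ 1) (z : Zd d) (A : Set (Env d)) :
    perc d p {ω | sh z ω ∈ A} = perc d p A := by
  have h : MeasurePreserving (shE z) (perc d p) (perc d p) :=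
    ⟨(shE z).measurable, perc_map_sh p hp0 hp1 z⟩
  exact h.measure_preimage_equiv A

theorem dep_eq {d : ℕ} (F : Finset (Ed d)) (A : Set (Env d)) (h : Dep (F : Set (Ed d)) A) :
    A = (fun (ω : Env d) (e : F) => ω e) ⁻¹' ((fun (ω : Env d) (e : F) => ω e) '' A) := by
  ext ω
  constructor
  · intro hω
    exact ⟨ω, hω, rfl⟩
  · rintro ⟨ω', hω', he⟩
    rw [h ω ω']
    · exact hω'
    · intro e he'
      exact (congrFun he ⟨e, he'⟩).symm

theorem dep_meas {d : ℕ} (F : Finset (Ed d)) (A : Set (Env d)) (h : Dep (F : Set (Ed d)) A) :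
    MeasurableSet A := by
  rw [dep_eq F A h]
  apply MeasurableSet.preimage
  · exact (Set.toFinite _).measurableSet
  · exact measurable_pi_lambda _ fun e => measurable_pi_apply _

end Pool.Agent.TH645.IH
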