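import Mathlib
import Pool.Agent.TH974.IH.Box
import Pool.Agent.TH645.J2185

set_option autoImplicit false

open Finset MeasureTheory ProbabilityTheory Filter Topology
open scoped ENNReal NNReal

namespace Pool.Agent.TH645.IH
open Pool.Agent.TH974.IH

theorem dep_indep {d : ℕ} (p : ℝ) (hp0 : 0 ≤ p) (hp1 : p ≤ 1) (F₁ F₂ : Finset (Ed d))
    (hF : Disjoint F₁ F₂) (A₁ A₂ : Set (Env d)) (h₁ : Dep (F₁ : Set (Ed d)) A₁)
    (h₂ : Dep (F₂ : Set (Ed d)) A₂) :
    (perc d p).real (A₁ ∩ A₂) = (perc d p).real A₁ * (perc d p).real A₂ := by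
  have := bern_prob p hp0 hp1
  have h1 : iIndepFun (fun (e : Ed d) (ω : Env d) => ω e) (perc d p) :=
    iIndepFun_infinitePi (P := fun _ : Ed d => bern p) (X := fun _ ω => ω) (fun _ => measurable_id)
  have h2 := h1.indepFun_finset F₁ F₂ hF (fun e => measurable_pi_apply e)
  have h3 := h2.measure_inter_preimage_eq_mul ((fun (ω : Env d) (e : F₁) => ω e) '' A₁)
    ((fun (ω : Env d) (e : F₂) => ω e) '' A₂) ((Set.toFinite _).measurableSet)
    ((Set.toFinite _).measurableSet)
  have h4 := dep_eq F₁ A₁ h₁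
  have h5 := dep_eq F₂ A₂ h₂
  rw [← h4, ← h5] at h3
  unfold Measure.real
  rw [h3, ENNReal.toReal_mul]

theorem bern_singleton (p : ℝ) (b : Bool) :
    bern p {b} = ENNReal.ofReal (if b = true then p else 1 - p) := by
  unfold bern
  cases b <;> simp

theorem perc_cyl {d : ℕ} (p : ℝ) (hp0 : 0 ≤ p) (hp1 : p ≤ 1) (F : Finset (Ed d)) (β : Env d) :
    (perc d p).real {ω | ∀ e ∈ F, ω e = β e} = ∏ e ∈ F, if β e = true then p else 1 - p := by
  have := bern_prob p hp0 hp1
  have h1 : {ω : Env d | ∀ e ∈ F, ω e = β e} = Set.pi (F : Set (Ed d)) (fun e => {β e}) := by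
    ext ω
    simp [Set.mem_pi]
  rw [h1]
  unfold Measure.real perc
  rw [Measure.infinitePi_pi (μ := fun _ : Ed d => bern p) (fun e _ => measurableSet_singleton _),
    ENNReal.toReal_prod]
  apply Finset.prod_congr rfl
  intro e _
  rw [bern_singleton, ENNReal.toReal_ofReal]
  split_ifs <;> linarith

end Pool.Agent.TH645.IH
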