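import Pool.Agent.TH451.MB.Stmt

set_option autoImplicit false

/-! Weights for domination by small sets. -/

namespace Pool.Agent.TH645.MB
open Pool.Agent.TH451.MB Finset

theorem fam3_sq (j : ℕ) (hj : 100 ≤ j) : (3 : ℝ) * (j : ℝ) ^ 2 ≤ (3 / 2 : ℝ) ^ j := by
  induction j, hj using Nat.le_induction with
  | base => norm_num
  | succ j hj ih =>
    have h0 : (3 / 2 : ℝ) ^ (j + 1) = (3 / 2 : ℝ) ^ j * (3 / 2) := pow_succ _ _
    rw [h0]
    have h1 : (100 : ℝ) ≤ j := by exact_mod_cast hj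
    push_cast
    nlinarith

theorem fam3_term (n j u s : ℕ) (hj : 100 ≤ j) (hs : s ≤ u) (hn : n ≤ j ^ 2 * u) :
    (n.choose u : ℝ) * (1 / 2 : ℝ) ^ (j * u) ≤ ((3 / 4 : ℝ) ^ s) ^ j := by
  have h1 : (n.choose u : ℝ) ≤ (n : ℝ) ^ u / (u.factorial : ℝ) := Nat.choose_le_pow_div u n
  have h2 : (n : ℝ) ^ u ≤ ((j : ℝ) ^ 2) ^ u * (u : ℝ) ^ u := by
    rw [← mul_pow]
    apply pow_le_pow_left₀ (by positivity)
    exact_mod_cast hn
  have h3 : (u : ℝ) ^ u / (u.factorial : ℝ) ≤ Real.exp u :=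
    Real.pow_div_factorial_le_exp _ (by positivity) _
  have h4 : Real.exp u ≤ (3 : ℝ) ^ u := by
    have : Real.exp u = Real.exp 1 ^ u := by
      rw [← Real.exp_nat_mul, mul_one]
    rw [this]
    apply pow_le_pow_left₀ (Real.exp_pos _).le
    have := Real.exp_one_lt_d9
    linarith
  have h5 : (n.choose u : ℝ) ≤ (3 * (j : ℝ) ^ 2) ^ u := by
    calc (n.choose u : ℝ) ≤ (n : ℝ) ^ u / (u.factorial : ℝ) := h1
      _ ≤ (((j : ℝ) ^ 2) ^ u * (u : ℝ) ^ u) / (u.factorial : ℝ) := by gcongr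
      _ = ((j : ℝ) ^ 2) ^ u * ((u : ℝ) ^ u / (u.factorial : ℝ)) := by ring
      _ ≤ ((j : ℝ) ^ 2) ^ u * (3 : ℝ) ^ u := by
          apply mul_le_mul_of_nonneg_left (h3.trans h4) (by positivity)
      _ = (3 * (j : ℝ) ^ 2) ^ u := by rw [mul_pow]; ring
  calc (n.choose u : ℝ) * (1 / 2 : ℝ) ^ (j * u) ≤ (3 * (j : ℝ) ^ 2) ^ u * (1 / 2 : ℝ) ^ (j * u) := by
        gcongr
    _ ≤ ((3 / 2 : ℝ) ^ j) ^ u * (1 / 2 : ℝ) ^ (j * u) := by
        gcongr
        exact fam3_sq j hj
    _ = ((3 / 4 : ℝ) ^ j) ^ u := by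
        rw [pow_mul, ← mul_pow, ← mul_pow]
        norm_num
    _ ≤ ((3 / 4 : ℝ) ^ j) ^ s := by
        apply pow_le_pow_of_le_one (by positivity) _ hs
        exact pow_le_one₀ (by norm_num) (by norm_num)
    _ = ((3 / 4 : ℝ) ^ s) ^ j := by rw [← pow_mul, ← pow_mul, mul_comm]

/-- the sum over the second set -/
theorem fam3_inner (n j s : ℕ) (hj : 100 ≤ j) :
    ∑ U ∈ (univ : Finset (Finset (Fin n))).filter (fun U => s ≤ U.card ∧ n ≤ j ^ 2 * U.card),
      (1 / 2 : ℝ) ^ (j * U.card) ≤ ((n : ℝ) + 1) * ((3 / 4 : ℝ) ^ s) ^ j := by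
  classical
  have h1 : ∑ U ∈ (univ : Finset (Finset (Fin n))).filter (fun U => s ≤ U.card ∧ n ≤ j ^ 2 * U.card),
      (1 / 2 : ℝ) ^ (j * U.card) = ∑ U ∈ (univ : Finset (Fin n)).powerset,
        (fun u : ℕ => if s ≤ u ∧ n ≤ j ^ 2 * u then (1 / 2 : ℝ) ^ (j * u) else 0) U.card := by
    rw [Finset.sum_filter, Finset.powerset_univ]
  have h3 := Finset.sum_powerset_apply_card (x := (univ : Finset (Fin n)))
    (fun u : ℕ => if s ≤ u ∧ n ≤ j ^ 2 * u then (1 / 2 : ℝ) ^ (j * u) else 0)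
  rw [h1, h3]
  simp only [card_univ, Fintype.card_fin]
  have h2 : ∀ u ∈ range (n + 1), (n.choose u) •
      (if s ≤ u ∧ n ≤ j ^ 2 * u then (1 / 2 : ℝ) ^ (j * u) else 0) ≤ ((3 / 4 : ℝ) ^ s) ^ j := by
    intro u _
    split_ifs with h
    · rw [nsmul_eq_mul]
      exact fam3_term n j u s hj h.1 h.2
    · rw [smul_zero]
      positivity
  calc _ ≤ ∑ u ∈ range (n + 1), ((3 / 4 : ℝ) ^ s) ^ j := Finset.sum_le_sum h2
    _ = ((n : ℝ) + 1) * ((3 / 4 : ℝ) ^ s) ^ j := by
        rw [Finset.sum_const, card_range, nsmul_eq_mul]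
        push_cast
        ring

theorem fam3_exp {n : ℕ} {x : ℝ} (hx : 0 ≤ x) (hn : (n : ℝ) * x ≤ 1 / 1000) :
    (1 + x) ^ n - 1 ≤ 1 / 500 := by
  have h1 : (1 + x) ^ n ≤ Real.exp (n * x) := by
    rw [Real.exp_nat_mul]
    apply pow_le_pow_left₀ (by linarith)
    linarith [Real.add_one_le_exp x]
  have h2 : Real.exp (n * x) ≤ Real.exp (1 / 1000) := Real.exp_le_exp.2 hn
  have h3 : Real.exp (1 / 1000 : ℝ) ≤ 1 + 1 / 500 := by
    have := Real.abs_exp_sub_one_le (x := (1 / 1000 : ℝ)) (by norm_num [abs_of_pos])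
    rw [abs_of_pos (by norm_num : (0 : ℝ) < 1 / 1000)] at this
    have h4 := (abs_le.1 this).2
    linarith
  linarith

theorem fam3_nonempty {n : ℕ} {x : ℝ} :
    ∑ A ∈ (univ : Finset (Finset (Fin n))).filter (fun A => A.Nonempty), x ^ A.card =
      (1 + x) ^ n - 1 := by
  classical
  have h1 : ∑ A : Finset (Fin n), x ^ A.card = (1 + x) ^ n := by
    have h := Finset.sum_pow_mul_eq_add_pow x (1 : ℝ) (univ : Finset (Fin n))
    simp only [one_pow, mul_one, card_univ, Fintype.card_fin, powerset_univ] at h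
    rw [h, add_comm]
  have h2 : (univ : Finset (Finset (Fin n))).filter (fun A => ¬ A.Nonempty) = {∅} := by
    ext A
    simp [not_nonempty_iff_eq_empty]
  have h3 := sum_filter_add_sum_filter_not (univ : Finset (Finset (Fin n)))
    (fun A => A.Nonempty) (fun A => x ^ A.card)
  rw [h1, h2] at h3
  simp only [sum_singleton, card_empty, pow_zero] at h3
  linarith

theorem fam3_num {n s : ℕ} (hs : 40 * (Nat.log 2 n + 1) ≤ s) :
    (n : ℝ) * (((n : ℝ) + 1) * (3 / 4 : ℝ) ^ s) ≤ 1 / 1000 := by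
  set l := Nat.log 2 n + 1 with hl
  have hn : n + 1 ≤ 2 ^ l := Nat.lt_pow_succ_log_self (by norm_num) n
  have hn' : (n : ℝ) + 1 ≤ (2 : ℝ) ^ l := by exact_mod_cast hn
  have h1 : (3 / 4 : ℝ) ^ s ≤ ((1 / 8000 : ℝ)) ^ l := by
    calc (3 / 4 : ℝ) ^ s ≤ (3 / 4 : ℝ) ^ (40 * l) :=
          pow_le_pow_of_le_one (by norm_num) (by norm_num) hs
      _ = ((3 / 4 : ℝ) ^ 40) ^ l := by rw [pow_mul]
      _ ≤ (1 / 8000 : ℝ) ^ l := by
          apply pow_le_pow_left₀ (by positivity)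
          norm_num
  calc (n : ℝ) * (((n : ℝ) + 1) * (3 / 4 : ℝ) ^ s) ≤ (2 : ℝ) ^ l * ((2 : ℝ) ^ l * (1 / 8000 : ℝ) ^ l) := by
        gcongr
        linarith
    _ = (1 / 2000 : ℝ) ^ l := by
        rw [← mul_pow, ← mul_pow]
        norm_num
    _ ≤ (1 / 2000 : ℝ) ^ 1 := pow_le_pow_of_le_one (by norm_num) (by norm_num) (by omega)
    _ ≤ 1 / 1000 := by norm_num

theorem fam_p3 : StFam3 := by
  classical
  refine ⟨40, 0, fun n _ s hs H => ?_⟩
  set P : Finset (Finset (Fin n) × Finset (Fin n)) :=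
    univ.filter (fun p => Disjoint p.1 p.2 ∧ Disjoint p.1 H ∧ Disjoint p.2 H ∧ 100 ≤ p.1.card ∧
      s ≤ p.2.card ∧ n ≤ p.1.card ^ 2 * p.2.card) with hP
  set L : Finset (Fin n) × Finset (Fin n) → Finset (Sym2 (Fin n)) :=
    fun p => (p.1 ×ˢ p.2).image (fun q => s(q.1, q.2)) with hL
  have hLc : ∀ p ∈ P, (L p).card = p.1.card * p.2.card := by
    intro p hp
    simp only [hP, mem_filter, mem_univ, true_and] at hp
    simp only [hL]
    rw [card_image_of_injOn, card_product]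
    intro q hq q' hq' h
    simp only [coe_product, Set.mem_prod, mem_coe] at hq hq'
    simp only [Sym2.eq_iff] at h
    rcases h with ⟨h1, h2⟩ | ⟨h1, h2⟩
    · exact Prod.ext h1 h2
    · exact absurd hq'.2 (disjoint_left.1 hp.1 (h1 ▸ hq.1))
  refine ⟨↥P, inferInstance, fun i => L i.1, ?_, ?_, ?_⟩
  · rintro ⟨p, hp⟩ e he
    simp only [hP, mem_filter, mem_univ, true_and] at hp
    simp only [hL, mem_image, mem_product] at he
    obtain ⟨q, ⟨hq1, hq2⟩, rfl⟩ := he
    refine ⟨q.1, q.2, ?_, disjoint_left.1 hp.2.1 hq1, disjoint_left.1 hp.2.2.1 hq2, rfl⟩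
    intro h
    exact disjoint_left.1 hp.1 hq1 (h ▸ hq2)
  · have e1 : ∑ i : ↥P, (1/2 : ℝ) ^ (L i.1).card = ∑ i ∈ P, (1/2 : ℝ) ^ (L i).card :=
      sum_coe_sort P (fun i => (1/2 : ℝ) ^ (L i).card)
    rw [e1]
    set y : ℝ := (3 / 4 : ℝ) ^ s with hy
    have hy0 : 0 ≤ y := by positivity
    have hnum : (n : ℝ) * (((n : ℝ) + 1) * y) ≤ 1 / 1000 := fam3_num hs
    calc ∑ p ∈ P, (1/2 : ℝ) ^ (L p).card
        = ∑ p ∈ P, (1/2 : ℝ) ^ (p.1.card * p.2.card) := by
          apply sum_congr rfl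
          intro p hp
          rw [hLc p hp]
      _ ≤ ∑ p ∈ (((univ : Finset (Finset (Fin n))).filter (fun A => 100 ≤ A.card)) ×ˢ
            (univ : Finset (Finset (Fin n)))).filter
              (fun p => s ≤ p.2.card ∧ n ≤ p.1.card ^ 2 * p.2.card),
            (1/2 : ℝ) ^ (p.1.card * p.2.card) := by
          apply sum_le_sum_of_subset_of_nonneg
          · intro p hp
            simp only [hP, mem_filter, mem_univ, true_and] at hp
            simp only [mem_filter, mem_product, mem_univ, true_and, and_true]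
            exact ⟨hp.2.2.2.1, hp.2.2.2.2⟩
          · intros; positivity
      _ = ∑ A ∈ (univ : Finset (Finset (Fin n))).filter (fun A => 100 ≤ A.card),
            ∑ U ∈ (univ : Finset (Finset (Fin n))).filter
              (fun U => s ≤ U.card ∧ n ≤ A.card ^ 2 * U.card),
            (1/2 : ℝ) ^ (A.card * U.card) := by
          rw [sum_filter, sum_product]
          apply sum_congr rfl
          intro A _
          rw [sum_filter]
      _ ≤ ∑ A ∈ (univ : Finset (Finset (Fin n))).filter (fun A => 100 ≤ A.card),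
            ((n : ℝ) + 1) * y ^ A.card := by
          apply sum_le_sum
          intro A hA
          exact fam3_inner n A.card s (mem_filter.1 hA).2
      _ ≤ ∑ A ∈ (univ : Finset (Finset (Fin n))).filter (fun A => 100 ≤ A.card),
            (((n : ℝ) + 1) * y) ^ A.card := by
          apply sum_le_sum
          intro A hA
          rw [mul_pow]
          apply mul_le_mul_of_nonneg_right _ (by positivity)
          apply le_self_pow₀ (by have : (0 : ℝ) ≤ n := by positivity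
                                 linarith)
          have := (mem_filter.1 hA).2
          omega
      _ ≤ ∑ A ∈ (univ : Finset (Finset (Fin n))).filter (fun A => A.Nonempty),
            (((n : ℝ) + 1) * y) ^ A.card := by
          apply sum_le_sum_of_subset_of_nonneg
          · intro A hA
            simp only [mem_filter, mem_univ, true_and] at hA ⊢
            exact card_pos.1 (by omega)
          · intros; positivity
      _ = (1 + ((n : ℝ) + 1) * y) ^ n - 1 := fam3_nonempty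
      _ ≤ 1 / 500 := fam3_exp (by positivity) hnum
      _ ≤ 1 / 100 := by norm_num
  · intro G hG A U hAU hAH hUH hA hU hn
    have hmem : (A, U) ∈ P := by
      simp only [hP, mem_filter, mem_univ, true_and]
      exact ⟨hAU, hAH, hUH, hA, hU, hn⟩
    obtain ⟨e, he, heG⟩ := hG ⟨_, hmem⟩
    simp only [hL, mem_image, mem_product] at he
    obtain ⟨q, ⟨hq1, hq2⟩, rfl⟩ := he
    exact ⟨q.1, hq1, q.2, hq2, heG⟩

end Pool.Agent.TH645.MB
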