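import Pool.Agent.TH451.MB.Stmt

set_option autoImplicit false

namespace Pool.Agent.TH645.MB
open Pool.Agent.TH451.MB Finset

section

variable {τ : Type} {T : SimpleGraph τ}

theorem fs_sup (hT : T.IsAcyclic) {u v : τ} (p q : T.Walk u v) (hp : p.support.Nodup)
    (hq : q.support.Nodup) : p.support = q.support := by
  have := hT.subsingleton_path u v
  have h : (⟨p, SimpleGraph.Walk.isPath_def p |>.mpr hp⟩ : T.Path u v) =
    ⟨q, SimpleGraph.Walk.isPath_def q |>.mpr hq⟩ := Subsingleton.elim _ _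
  exact congrArg (fun r => r.1.support) h

theorem fs_no3 (hT : T.IsAcyclic) {a b c : τ} (h1 : T.Adj a b) (h2 : T.Adj b c) (h3 : T.Adj a c) :
    False := by
  have := fs_sup hT (SimpleGraph.Walk.cons h1 (SimpleGraph.Walk.cons h2 SimpleGraph.Walk.nil))
    (SimpleGraph.Walk.cons h3 SimpleGraph.Walk.nil)
    (by simp [h1.ne, h2.ne, h3.ne]) (by simp [h3.ne])
  simp at this

theorem fs_no4 (hT : T.IsAcyclic) {a b c d : τ} (h1 : T.Adj a b) (h2 : T.Adj b c)
    (h3 : T.Adj a d) (h4 : T.Adj d c) (hac : a ≠ c) (hbd : b ≠ d) : False := by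
  have := fs_sup hT (SimpleGraph.Walk.cons h1 (SimpleGraph.Walk.cons h2 SimpleGraph.Walk.nil))
    (SimpleGraph.Walk.cons h3 (SimpleGraph.Walk.cons h4 SimpleGraph.Walk.nil))
    (by simp [h1.ne, h2.ne, hac]) (by simp [h3.ne, h4.ne, hac])
  simp at this
  exact hbd this

theorem fs_no5 (hT : T.IsAcyclic) {a b c d e : τ} (h1 : T.Adj a b) (h2 : T.Adj b c)
    (h3 : T.Adj c d) (h4 : T.Adj a e) (h5 : T.Adj e d) (hac : a ≠ c) (had : a ≠ d)
    (hbd : b ≠ d) : False := by
  have := fs_sup hT (SimpleGraph.Walk.cons h1 (SimpleGraph.Walk.cons h2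
      (SimpleGraph.Walk.cons h3 SimpleGraph.Walk.nil)))
    (SimpleGraph.Walk.cons h4 (SimpleGraph.Walk.cons h5 SimpleGraph.Walk.nil))
    (by simp [h1.ne, h2.ne, h3.ne, hac, had, hbd]) (by simp [h4.ne, h5.ne, had])
  simp at this

theorem fs_no6 (hT : T.IsAcyclic) {a b c d e f : τ} (h1 : T.Adj a b) (h2 : T.Adj b c)
    (h3 : T.Adj c d) (h4 : T.Adj a e) (h5 : T.Adj e f) (h6 : T.Adj f d) (hac : a ≠ c) (had : a ≠ d)
    (hbd : b ≠ d) (haf : a ≠ f) (hed : e ≠ d) (hbe : b ≠ e) : False := by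
  have := fs_sup hT (SimpleGraph.Walk.cons h1 (SimpleGraph.Walk.cons h2
      (SimpleGraph.Walk.cons h3 SimpleGraph.Walk.nil)))
    (SimpleGraph.Walk.cons h4 (SimpleGraph.Walk.cons h5
      (SimpleGraph.Walk.cons h6 SimpleGraph.Walk.nil)))
    (by simp [h1.ne, h2.ne, h3.ne, hac, had, hbd]) (by simp [h4.ne, h5.ne, h6.ne, had, haf, hed])
  simp at this
  exact hbe this.1

/-- two different branches at `y` -/
theorem fs_branch (hT : T.IsAcyclic) {y z z' h h' : τ} (hz : T.Adj y z) (hz' : T.Adj y z')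
    (hzz : z ≠ z') (hh : T.Adj z h) (hh' : T.Adj z' h') (hy : h ≠ y) (hy' : h' ≠ y) :
    h ≠ h' ∧ Far T h h' := by
  have c1 : ¬ T.Adj z z' := fun hc => fs_no3 hT hz hc hz'
  have c2 : h ≠ z' := by rintro rfl; exact c1 hh
  have c2' : h' ≠ z := by rintro rfl; exact c1 hh'.symm
  have c3 : h ≠ h' := by
    rintro rfl
    exact fs_no4 hT hz hh hz' hh' hy.symm hzz
  refine ⟨c3, ?_, ?_⟩
  · intro hc
    exact fs_no5 hT hz hh hc hz' hh' hy.symm hy'.symm c2'.symm
  · rintro w ⟨hw, hw'⟩
    have w1 : w ≠ y := by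
      rintro rfl
      exact fs_no3 hT hz hh hw.symm
    have w2 : w ≠ z := by
      rintro rfl
      exact fs_no4 hT hz hw'.symm hz' hh' hy'.symm hzz
    have w3 : w ≠ z' := by
      rintro rfl
      exact fs_no4 hT hz hh hz' hw.symm hy.symm hzz
    exact fs_no6 hT hz hh hw hz' hh' hw' hy.symm w1.symm w2.symm hy'.symm w3.symm hzz

theorem fs_far_symm {x y : τ} (h : Far T x y) : Far T y x :=
  ⟨fun hc => h.1 hc.symm, fun z hz => h.2 z ⟨hz.2, hz.1⟩⟩

end

theorem far_star : StFarStar := by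
  classical
  intro τ _ _ T hT S a k h
  by_contra hcon
  push Not at hcon
  obtain ⟨hA, hk⟩ := hcon
  set P : Finset τ → Prop := fun Y => ∀ x ∈ Y, ∀ y ∈ Y, x ≠ y → Far T x y with hP
  obtain ⟨Y, hY, hmax⟩ := (S.powerset.filter P).exists_max_image Finset.card ⟨∅, by simp [hP]⟩
  rw [Finset.mem_filter, Finset.mem_powerset] at hY
  obtain ⟨hYS, hYP⟩ := hY
  have hYa : Y.card < a := by
    by_contra hc
    push Not at hc
    obtain ⟨Y', hY', hc'⟩ := Finset.exists_subset_card_eq hc
    obtain ⟨x, hx, y, hy, hxy, hf⟩ := hA Y' (hY'.trans hYS) hc'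
    exact hf (hYP x (hY' hx) y (hY' hy) hxy)
  have hmax' : ∀ Y' ⊆ S, P Y' → Y'.card ≤ Y.card := by
    intro Y' h1 h2
    exact hmax Y' (Finset.mem_filter.mpr ⟨Finset.mem_powerset.mpr h1, h2⟩)
  set Z : τ → Finset τ := fun y => univ.filter (fun z => T.Adj y z ∧ ∃ h ∈ S, h ≠ y ∧ T.Adj z h)
    with hZ
  have hZc : ∀ y, (Z y).card ≤ Y.card := by
    intro y
    set f : τ → τ := fun z => if hz : ∃ h ∈ S, h ≠ y ∧ T.Adj z h then hz.choose else z with hf
    have hfz : ∀ z ∈ Z y, f z ∈ S ∧ f z ≠ y ∧ T.Adj z (f z) := by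
      intro z hz
      have hz2 := (Finset.mem_filter.mp hz).2.2
      simp only [hf]
      rw [dif_pos hz2]
      exact hz2.choose_spec
    have hbr : ∀ z ∈ Z y, ∀ z' ∈ Z y, z ≠ z' → f z ≠ f z' ∧ Far T (f z) (f z') := by
      intro z hz z' hz' hne
      exact fs_branch hT (Finset.mem_filter.mp hz).2.1 (Finset.mem_filter.mp hz').2.1 hne
        (hfz z hz).2.2 (hfz z' hz').2.2 (hfz z hz).2.1 (hfz z' hz').2.1
    have hcard : ((Z y).image f).card = (Z y).card := by
      apply Finset.card_image_of_injOn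
      intro z hz z' hz' he
      by_contra hne
      exact (hbr z hz z' hz' hne).1 he
    rw [← hcard]
    apply hmax'
    · intro w hw
      obtain ⟨z, hz, rfl⟩ := Finset.mem_image.mp hw
      exact (hfz z hz).1
    · intro w hw w' hw' hne
      obtain ⟨z, hz, rfl⟩ := Finset.mem_image.mp hw
      obtain ⟨z', hz', rfl⟩ := Finset.mem_image.mp hw'
      exact (hbr z hz z' hz' (fun he => hne (by rw [he]))).2
  have hsub : S ⊆ Y ∪ ((Y.biUnion fun y => nb T y S) ∪
      (Y.biUnion fun y => (Z y).biUnion fun z => nb T z S)) := by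
    intro x hx
    rw [Finset.mem_union, Finset.mem_union]
    by_cases hxY : x ∈ Y
    · exact Or.inl hxY
    · right
      have hex : ∃ y ∈ Y, ¬ Far T x y := by
        by_contra hc
        push Not at hc
        have hc2 : P (insert x Y) := by
          intro u hu v hv huv
          rcases Finset.mem_insert.mp hu with hu1 | hu1
          · rcases Finset.mem_insert.mp hv with hv1 | hv1
            · exact absurd (hu1.trans hv1.symm) huv
            · rw [hu1]; exact hc v hv1
          · rcases Finset.mem_insert.mp hv with hv1 | hv1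
            · rw [hv1]; exact fs_far_symm (hc u hu1)
            · exact hYP u hu1 v hv1 huv
        have := hmax' (insert x Y) (Finset.insert_subset hx hYS) hc2
        rw [Finset.card_insert_of_notMem hxY] at this
        omega
      obtain ⟨y, hy, hf⟩ := hex
      by_cases hadj : T.Adj x y
      · left
        rw [Finset.mem_biUnion]
        exact ⟨y, hy, mem_nb.mpr ⟨hx, hadj.symm⟩⟩
      · right
        have : ∃ z, T.Adj x z ∧ T.Adj y z := by
          by_contra hc
          push Not at hc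
          exact hf ⟨hadj, fun z hz => hc z hz.1 hz.2⟩
        obtain ⟨z, hz1, hz2⟩ := this
        rw [Finset.mem_biUnion]
        refine ⟨y, hy, ?_⟩
        rw [Finset.mem_biUnion]
        refine ⟨z, ?_, mem_nb.mpr ⟨hx, hz1.symm⟩⟩
        simp only [hZ]
        rw [Finset.mem_filter]
        refine ⟨Finset.mem_univ _, hz2, x, hx, ?_, hz1.symm⟩
        rintro rfl
        exact hxY hy
  have hc1 : (Y.biUnion fun y => nb T y S).card ≤ Y.card * k :=
    Finset.card_biUnion_le_card_mul _ _ _ fun y _ => (hk y).le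
  have hc2 : (Y.biUnion fun y => (Z y).biUnion fun z => nb T z S).card ≤
      Y.card * (Y.card * k) := by
    apply Finset.card_biUnion_le_card_mul
    intro y _
    calc _ ≤ (Z y).card * k := Finset.card_biUnion_le_card_mul _ _ _ fun z _ => (hk z).le
      _ ≤ Y.card * k := Nat.mul_le_mul_right _ (hZc y)
  have hc3 : S.card ≤ Y.card + (Y.card * k + Y.card * (Y.card * k)) := by
    calc S.card ≤ _ := Finset.card_le_card hsub
      _ ≤ _ := Finset.card_union_le _ _
      _ ≤ _ := Nat.add_le_add_left ((Finset.card_union_le _ _).trans (Nat.add_le_add hc1 hc2)) _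
  have hc4 : Y.card + (Y.card * k + Y.card * (Y.card * k)) ≤ a + (a * k + a * (a * k)) := by
    have h1 : Y.card ≤ a := hYa.le
    have h2 : Y.card * k ≤ a * k := Nat.mul_le_mul_right _ h1
    have h3 : Y.card * (Y.card * k) ≤ a * (a * k) := Nat.mul_le_mul h1 h2
    omega
  have hc5 : a * (a * k + k + 1) = a + (a * k + a * (a * k)) := by ring
  omega

end Pool.Agent.TH645.MB
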