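import Pool.Agent.TH451.MB.Stmt

set_option autoImplicit false

/-! The first moves of Maker. -/

namespace Pool.Agent.TH645.MB
open Pool.Agent.TH451.MB Finset

theorem ph_fresh {n : ℕ} (l : List (Fin n)) (h : l.length < n) : ∃ v, v ∉ l := by
  by_contra hc
  push Not at hc
  have h1 : l.toFinset = univ := by
    ext v
    simp [hc v]
  have h2 := List.toFinset_card_le l
  rw [h1, card_univ, Fintype.card_fin] at h2
  omega

theorem ph_board {n : ℕ} (a b : Fin n) : s(a, b) ∈ board n ↔ a ≠ b := by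
  simp [board]

theorem ph_free {n : ℕ} (M B : Finset (Sym2 (Fin n))) (a b : Fin n) (h : a ≠ b)
    (hM : s(a, b) ∉ M) (hB : s(a, b) ∉ B) : s(a, b) ∈ board n \ (M ∪ B) := by
  rw [mem_sdiff, mem_union, ph_board]
  tauto

/-- the pair `x, q` is one of the edges -/
def PhP {V : Type} (a0 c0 a1 c1 a2 c2 x q : V) : Prop :=
  ((x = a2 ∧ q = c2) ∨ (x = c2 ∧ q = a2)) ∨ ((x = a1 ∧ q = c1) ∨ (x = c1 ∧ q = a1)) ∨
    ((x = a0 ∧ q = c0) ∨ (x = c0 ∧ q = a0))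

theorem ph_one {V : Type} {a c x q q' : V} (h : (x = a ∧ q = c) ∨ (x = c ∧ q = a))
    (h' : (x = a ∧ q' = c) ∨ (x = c ∧ q' = a)) (hne : q ≠ q') (hac : a ≠ c) : False := by
  rcases h with ⟨h1, h2⟩ | ⟨h1, h2⟩ <;> rcases h' with ⟨h3, h4⟩ | ⟨h3, h4⟩
  · exact hne (h2.trans h4.symm)
  · exact hac (h1.symm.trans h3)
  · exact hac (h3.symm.trans h1)
  · exact hne (h2.trans h4.symm)

theorem ph_in {V : Type} {a c x q q1 q2 q3 : V}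
    (hC : (a = q3 ∧ (c = q1 ∨ c = q2)) ∨ (c = q3 ∧ (a = q1 ∨ a = q2)))
    (x2 : x ≠ q1) (x3 : x ≠ q2) (x4 : x ≠ q3) : ¬ ((x = a ∧ q = c) ∨ (x = c ∧ q = a)) := by
  rintro (⟨e1, _⟩ | ⟨e1, _⟩)
  · rcases hC with ⟨h1, _⟩ | ⟨_, h1 | h1⟩
    · exact x4 (e1.trans h1)
    · exact x2 (e1.trans h1)
    · exact x3 (e1.trans h1)
  · rcases hC with ⟨_, h1 | h1⟩ | ⟨h1, _⟩
    · exact x2 (e1.trans h1)
    · exact x3 (e1.trans h1)
    · exact x4 (e1.trans h1)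

theorem ph_claim {V : Type} (v0 q1 q2 q3 a0 c0 a1 c1 a2 c2 x : V)
    (h0 : a0 ≠ c0) (h2 : a2 ≠ c2)
    (hq1 : q1 ≠ a0 ∧ q1 ≠ c0 ∧ q1 ≠ v0)
    (hq2a : q2 ≠ v0 ∧ q2 ≠ q1)
    (hq2b : (c1 = q1 ∧ a1 = q2) ∨ (a1 ≠ q1 ∧ c1 ≠ q1 ∧ q2 ≠ a0 ∧ q2 ≠ c0 ∧ q2 ≠ a1 ∧ q2 ≠ c1))
    (hq3a : q3 ≠ v0 ∧ q3 ≠ q1 ∧ q3 ≠ q2)
    (hq3b : (((a2 = q3 ∧ (c2 = q1 ∨ c2 = q2)) ∨ (c2 = q3 ∧ (a2 = q1 ∨ a2 = q2))) ∧
        ¬ ((v0 = a1 ∧ q3 = c1) ∨ (v0 = c1 ∧ q3 = a1))) ∨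
      ((q3 ≠ a0 ∧ q3 ≠ c0 ∧ q3 ≠ a1 ∧ q3 ≠ c1 ∧ q3 ≠ a2 ∧ q3 ≠ c2) ∧
        ¬ ((a2 ≠ v0 ∧ a2 ≠ q1 ∧ a2 ≠ q2) ∧ (c2 = q1 ∨ c2 = q2) ∧
          ¬ ((v0 = a1 ∧ a2 = c1) ∨ (v0 = c1 ∧ a2 = a1))) ∧
        ¬ ((c2 ≠ v0 ∧ c2 ≠ q1 ∧ c2 ≠ q2) ∧ (a2 = q1 ∨ a2 = q2) ∧
          ¬ ((v0 = a1 ∧ c2 = c1) ∨ (v0 = c1 ∧ c2 = a1)))))
    (x1 : x ≠ v0) (x2 : x ≠ q1) (x3 : x ≠ q2) (x4 : x ≠ q3) :
    (¬ PhP a0 c0 a1 c1 a2 c2 x q1 ∧ ¬ PhP a0 c0 a1 c1 a2 c2 x q2) ∨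
    (¬ PhP a0 c0 a1 c1 a2 c2 x q1 ∧ ¬ PhP a0 c0 a1 c1 a2 c2 x q3) ∨
    (¬ PhP a0 c0 a1 c1 a2 c2 x q2 ∧ ¬ PhP a0 c0 a1 c1 a2 c2 x q3) := by
  -- no edge at x passes to q1 through b0
  have z1 : ¬ ((x = a0 ∧ q1 = c0) ∨ (x = c0 ∧ q1 = a0)) := by
    rintro (⟨_, hh⟩ | ⟨_, hh⟩)
    · exact hq1.2.1 hh
    · exact hq1.1 hh
  rcases hq2b with ⟨hA1, hA2⟩ | hB
  · -- b1 is inside
    have k1 : ∀ q, ¬ ((x = a1 ∧ q = c1) ∨ (x = c1 ∧ q = a1)) := by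
      rintro q (⟨hh, _⟩ | ⟨hh, _⟩)
      · exact x3 (hh.trans hA2)
      · exact x2 (hh.trans hA1)
    have k2 : ¬ ((x = a2 ∧ q1 = c2) ∨ (x = c2 ∧ q1 = a2)) ∧
        ¬ ((x = a2 ∧ q2 = c2) ∨ (x = c2 ∧ q2 = a2)) ∧
        ¬ ((x = a2 ∧ q3 = c2) ∨ (x = c2 ∧ q3 = a2)) := by
      rcases hq3b with ⟨hC, _⟩ | ⟨hD, hD1, hD2⟩
      · exact ⟨ph_in hC x2 x3 x4, ph_in hC x2 x3 x4, ph_in hC x2 x3 x4⟩
      · have y1 : v0 ≠ a1 := fun hh => hq2a.1 (hA2.symm.trans hh.symm)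
        have y2 : v0 ≠ c1 := fun hh => hq1.2.2 (hA1.symm.trans hh.symm)
        have y3 : ∀ y, ¬ ((v0 = a1 ∧ y = c1) ∨ (v0 = c1 ∧ y = a1)) := by
          rintro y (⟨hh, _⟩ | ⟨hh, _⟩)
          · exact y1 hh
          · exact y2 hh
        refine ⟨?_, ?_, ?_⟩
        · rintro (⟨e1, e2⟩ | ⟨e1, e2⟩)
          · exact hD1 ⟨e1 ▸ ⟨x1, x2, x3⟩, Or.inl e2.symm, y3 _⟩
          · exact hD2 ⟨e1 ▸ ⟨x1, x2, x3⟩, Or.inl e2.symm, y3 _⟩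
        · rintro (⟨e1, e2⟩ | ⟨e1, e2⟩)
          · exact hD1 ⟨e1 ▸ ⟨x1, x2, x3⟩, Or.inr e2.symm, y3 _⟩
          · exact hD2 ⟨e1 ▸ ⟨x1, x2, x3⟩, Or.inr e2.symm, y3 _⟩
        · rintro (⟨e1, e2⟩ | ⟨e1, e2⟩)
          · exact hD.2.2.2.2.2 e2
          · exact hD.2.2.2.2.1 e2
    have w1 : ¬ PhP a0 c0 a1 c1 a2 c2 x q1 := by
      rintro (hh | hh | hh)
      · exact k2.1 hh
      · exact k1 q1 hh
      · exact z1 hh
    by_cases hp : PhP a0 c0 a1 c1 a2 c2 x q2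
    · right; left
      refine ⟨w1, fun hp' => ?_⟩
      have f1 : (x = a0 ∧ q2 = c0) ∨ (x = c0 ∧ q2 = a0) := by
        rcases hp with hh | hh | hh
        · exact absurd hh k2.2.1
        · exact absurd hh (k1 q2)
        · exact hh
      have f2 : (x = a0 ∧ q3 = c0) ∨ (x = c0 ∧ q3 = a0) := by
        rcases hp' with hh | hh | hh
        · exact absurd hh k2.2.2
        · exact absurd hh (k1 q3)
        · exact hh
      exact ph_one f1 f2 hq3a.2.2.symm h0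
    · left
      exact ⟨w1, hp⟩
  · obtain ⟨b1, b2, b3, b4, b5, b6⟩ := hB
    -- b0 and b1 do not touch q1, q2
    have m1 : ¬ ((x = a1 ∧ q1 = c1) ∨ (x = c1 ∧ q1 = a1)) := by
      rintro (⟨_, e2⟩ | ⟨_, e2⟩)
      · exact b2 e2.symm
      · exact b1 e2.symm
    have m2 : ¬ ((x = a1 ∧ q2 = c1) ∨ (x = c1 ∧ q2 = a1)) := by
      rintro (⟨_, e2⟩ | ⟨_, e2⟩)
      · exact b6 e2
      · exact b5 e2
    have m3 : ¬ ((x = a0 ∧ q2 = c0) ∨ (x = c0 ∧ q2 = a0)) := by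
      rintro (⟨_, e2⟩ | ⟨_, e2⟩)
      · exact b4 e2
      · exact b3 e2
    rcases hq3b with ⟨hC, _⟩ | ⟨hD, _, _⟩
    · -- b2 is inside
      left
      refine ⟨?_, ?_⟩
      · rintro (hh | hh | hh)
        · exact ph_in hC x2 x3 x4 hh
        · exact m1 hh
        · exact z1 hh
      · rintro (hh | hh | hh)
        · exact ph_in hC x2 x3 x4 hh
        · exact m2 hh
        · exact m3 hh
    · have n1 : ¬ ((x = a1 ∧ q3 = c1) ∨ (x = c1 ∧ q3 = a1)) := by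
        rintro (⟨_, hh⟩ | ⟨_, hh⟩)
        · exact hD.2.2.2.1 hh
        · exact hD.2.2.1 hh
      have n2 : ¬ ((x = a0 ∧ q3 = c0) ∨ (x = c0 ∧ q3 = a0)) := by
        rintro (⟨_, hh⟩ | ⟨_, hh⟩)
        · exact hD.2.1 hh
        · exact hD.1 hh
      have n3 : ¬ ((x = a2 ∧ q3 = c2) ∨ (x = c2 ∧ q3 = a2)) := by
        rintro (⟨_, hh⟩ | ⟨_, hh⟩)
        · exact hD.2.2.2.2.2 hh
        · exact hD.2.2.2.2.1 hh
      have w3 : ¬ PhP a0 c0 a1 c1 a2 c2 x q3 := by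
        rintro (hh | hh | hh)
        · exact n3 hh
        · exact n1 hh
        · exact n2 hh
      by_cases hp : PhP a0 c0 a1 c1 a2 c2 x q1
      · right; right
        refine ⟨fun hp' => ?_, w3⟩
        have f1 : (x = a2 ∧ q1 = c2) ∨ (x = c2 ∧ q1 = a2) := by
          rcases hp with hh | hh | hh
          · exact hh
          · exact absurd hh m1
          · exact absurd hh z1
        have f2 : (x = a2 ∧ q2 = c2) ∨ (x = c2 ∧ q2 = a2) := by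
          rcases hp' with hh | hh | hh
          · exact hh
          · exact absurd hh m2
          · exact absurd hh m3
        exact ph_one f1 f2 hq2a.2.symm h2
      · right; left
        exact ⟨hp, w3⟩

/-- the final position -/
theorem ph_fin {n : ℕ} (T : SimpleGraph (Fin n)) (v0 q1 q2 q3 a0 c0 a1 c1 a2 c2 : Fin n)
    (h : ∀ v0 q1 q2 q3 : Fin n, [v0, q1, q2, q3].Nodup → ∀ B0 : Finset (Sym2 (Fin n)),
      B0 ⊆ board n → B0.card ≤ 3 →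
      Disjoint {s(v0, q1), s(v0, q2), s(v0, q3)} B0 →
      (∀ x, x ∉ ({v0, q1, q2, q3} : Finset (Fin n)) →
        (s(x, q1) ∉ B0 ∧ s(x, q2) ∉ B0) ∨ (s(x, q1) ∉ B0 ∧ s(x, q3) ∉ B0) ∨
        (s(x, q2) ∉ B0 ∧ s(x, q3) ∉ B0)) →
      MakerWinsFrom (board n) (copies T) Turn.breaker {s(v0, q1), s(v0, q2), s(v0, q3)} B0)
    (hnd : v0 ≠ q1 ∧ v0 ≠ q2 ∧ v0 ≠ q3 ∧ q1 ≠ q2 ∧ q1 ≠ q3 ∧ q2 ≠ q3)
    (h0 : a0 ≠ c0) (h1 : a1 ≠ c1) (h2 : a2 ≠ c2)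
    (hd : ∀ q, q = q1 ∨ q = q2 ∨ q = q3 → ¬ (v0 = a0 ∧ q = c0) ∧ ¬ (v0 = c0 ∧ q = a0) ∧
      ¬ (v0 = a1 ∧ q = c1) ∧ ¬ (v0 = c1 ∧ q = a1) ∧ ¬ (v0 = a2 ∧ q = c2) ∧ ¬ (v0 = c2 ∧ q = a2))
    (hx : ∀ x, x ≠ v0 → x ≠ q1 → x ≠ q2 → x ≠ q3 →
      (s(x, q1) ∉ ({s(a2, c2), s(a1, c1), s(a0, c0)} : Finset (Sym2 (Fin n))) ∧
        s(x, q2) ∉ ({s(a2, c2), s(a1, c1), s(a0, c0)} : Finset (Sym2 (Fin n)))) ∨
      (s(x, q1) ∉ ({s(a2, c2), s(a1, c1), s(a0, c0)} : Finset (Sym2 (Fin n))) ∧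
        s(x, q3) ∉ ({s(a2, c2), s(a1, c1), s(a0, c0)} : Finset (Sym2 (Fin n)))) ∨
      (s(x, q2) ∉ ({s(a2, c2), s(a1, c1), s(a0, c0)} : Finset (Sym2 (Fin n))) ∧
        s(x, q3) ∉ ({s(a2, c2), s(a1, c1), s(a0, c0)} : Finset (Sym2 (Fin n))))) :
    MakerWinsFrom (board n) (copies T) Turn.breaker
      (insert s(v0, q3) (insert s(v0, q2) (insert s(v0, q1) ∅)))
      (insert s(a2, c2) (insert s(a1, c1) (insert s(a0, c0) ∅))) := by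
  have e1 : (insert s(v0, q3) (insert s(v0, q2) (insert s(v0, q1) ∅)) : Finset (Sym2 (Fin n))) =
      {s(v0, q1), s(v0, q2), s(v0, q3)} := by
    ext e
    simp only [mem_insert, mem_singleton, notMem_empty, or_false]
    tauto
  have e2 : (insert s(a2, c2) (insert s(a1, c1) (insert s(a0, c0) ∅)) : Finset (Sym2 (Fin n))) =
      {s(a2, c2), s(a1, c1), s(a0, c0)} := by
    ext e
    simp only [mem_insert, mem_singleton, notMem_empty, or_false]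
  rw [e1, e2]
  apply h v0 q1 q2 q3
  · simp only [List.nodup_cons, List.mem_cons, List.not_mem_nil, or_false, not_or]
    simp
    tauto
  · intro e he
    simp only [mem_insert, mem_singleton] at he
    rcases he with rfl | rfl | rfl
    · exact (ph_board _ _).mpr h2
    · exact (ph_board _ _).mpr h1
    · exact (ph_board _ _).mpr h0
  · exact card_le_three
  · rw [disjoint_left]
    intro e he he2
    simp only [mem_insert, mem_singleton] at he he2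
    have key : ∀ q, q = q1 ∨ q = q2 ∨ q = q3 → e ≠ s(v0, q) := by
      intro q hq hc
      obtain ⟨k1, k2, k3, k4, k5, k6⟩ := hd q hq
      clear hd hx h
      subst hc
      rcases he2 with he2 | he2 | he2
      · rcases Sym2.eq_iff.mp he2 with he3 | he3
        · exact k5 he3
        · exact k6 he3
      · rcases Sym2.eq_iff.mp he2 with he3 | he3
        · exact k3 he3
        · exact k4 he3
      · rcases Sym2.eq_iff.mp he2 with he3 | he3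
        · exact k1 he3
        · exact k2 he3
    rcases he with he | he | he
    · exact key q1 (by tauto) he
    · exact key q2 (by tauto) he
    · exact key q3 (by tauto) he
  · intro x hx'
    simp only [mem_insert, mem_singleton, not_or] at hx'
    exact hx x hx'.1 hx'.2.1 hx'.2.2.1 hx'.2.2.2

theorem phase_free : StPhaseFree := by
  intro n hn T h
  unfold MakerWins
  obtain ⟨u, hu⟩ := ph_fresh (n := n) [] (by simp; omega)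
  obtain ⟨v, hv⟩ := ph_fresh (n := n) [u] (by simp; omega)
  simp only [List.mem_cons, List.not_mem_nil, or_false] at hv
  refine MakerWinsFrom.breaker ⟨s(u, v), ph_free _ _ _ _ (Ne.symm hv) (by simp) (by simp)⟩ ?_
  intro b hb
  obtain ⟨a, c, rfl⟩ : ∃ a c, b = s(a, c) := by
    induction b with | _ a c => exact ⟨a, c, rfl⟩
  obtain ⟨x, hx⟩ := ph_fresh (n := n) [a, c] (by simp; omega)
  obtain ⟨y, hy⟩ := ph_fresh (n := n) [a, c, x] (by simp; omega)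
  simp only [List.mem_cons, List.not_mem_nil, or_false, not_or] at hx hy
  have hne : s(x, y) ≠ s(a, c) := by
    intro hc
    rw [Sym2.eq_iff] at hc
    tauto
  have hxy : x ≠ y := fun hc => hy.2.2 hc.symm
  refine MakerWinsFrom.maker s(x, y) (ph_free _ _ _ _ hxy (by simp) (by simpa using hne)) ?_
  rw [mem_sdiff] at hb
  have := h s(x, y) s(a, c) ((ph_board _ _).mpr hxy) hb.1 hne
  simpa using this

theorem phase_star : StPhaseStar := by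
  intro n hn T h
  unfold MakerWins
  obtain ⟨u, hu⟩ := ph_fresh (n := n) [] (by simp; omega)
  obtain ⟨v, hv⟩ := ph_fresh (n := n) [u] (by simp; omega)
  simp only [List.mem_cons, List.not_mem_nil, or_false] at hv
  refine MakerWinsFrom.breaker ⟨s(u, v), ph_free _ _ _ _ (Ne.symm hv) (by simp) (by simp)⟩ ?_
  intro b0 hb0
  obtain ⟨a0, c0, rfl⟩ : ∃ a c, b0 = s(a, c) := by
    induction b0 with | _ a c => exact ⟨a, c, rfl⟩
  rw [mem_sdiff, ph_board] at hb0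
  have h0 := hb0.1
  obtain ⟨v0, hv0⟩ := ph_fresh (n := n) [a0, c0] (by simp; omega)
  obtain ⟨q1, hq1⟩ := ph_fresh (n := n) [a0, c0, v0] (by simp; omega)
  simp only [List.mem_cons, List.not_mem_nil, or_false, not_or] at hv0 hq1
  refine MakerWinsFrom.maker s(v0, q1) (ph_free _ _ _ _ (fun hc => hq1.2.2 hc.symm) (by simp) ?_) ?_
  · simp only [mem_insert, notMem_empty, or_false, Sym2.eq_iff]
    tauto
  obtain ⟨u, hu⟩ := ph_fresh (n := n) [a0, c0, v0, q1] (by simp; omega)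
  obtain ⟨v, hv⟩ := ph_fresh (n := n) [a0, c0, v0, q1, u] (by simp; omega)
  simp only [List.mem_cons, List.not_mem_nil, or_false, not_or] at hu hv
  refine MakerWinsFrom.breaker ⟨s(u, v), ph_free _ _ _ _ (fun hc => hv.2.2.2.2 hc.symm) ?_ ?_⟩ ?_
  · simp only [mem_insert, notMem_empty, or_false, Sym2.eq_iff]
    tauto
  · simp only [mem_insert, notMem_empty, or_false, Sym2.eq_iff]
    tauto
  intro b1 hb1
  -- orient the edge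
  obtain ⟨a1, c1, rfl, hor1⟩ : ∃ a c, b1 = s(a, c) ∧ (c = q1 ∨ (a ≠ q1 ∧ c ≠ q1)) := by
    induction b1 with
    | _ a c =>
      by_cases h1 : c = q1
      · exact ⟨a, c, rfl, Or.inl h1⟩
      · by_cases h2 : a = q1
        · exact ⟨c, a, Sym2.eq_swap, Or.inl h2⟩
        · exact ⟨a, c, rfl, Or.inr ⟨h2, h1⟩⟩
  rw [mem_sdiff, ph_board] at hb1
  simp only [mem_union, mem_insert, notMem_empty, or_false, Sym2.eq_iff, not_or] at hb1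
  have h1 := hb1.1
  -- the second move
  obtain ⟨q2, hq2a, hq2b⟩ : ∃ q2, (q2 ≠ v0 ∧ q2 ≠ q1) ∧
      ((c1 = q1 ∧ a1 = q2) ∨ (a1 ≠ q1 ∧ c1 ≠ q1 ∧ q2 ≠ a0 ∧ q2 ≠ c0 ∧ q2 ≠ a1 ∧ q2 ≠ c1)) := by
    rcases hor1 with h2 | h2
    · refine ⟨a1, ⟨?_, ?_⟩, Or.inl ⟨h2, rfl⟩⟩
      · rintro rfl
        tauto
      · rintro rfl
        exact h1 h2.symm
    · obtain ⟨w, hw⟩ := ph_fresh (n := n) [v0, q1, a0, c0, a1, c1] (by simp; omega)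
      simp only [List.mem_cons, List.not_mem_nil, or_false, not_or] at hw
      exact ⟨w, ⟨hw.1, hw.2.1⟩, Or.inr ⟨h2.1, h2.2, hw.2.2⟩⟩
  refine MakerWinsFrom.maker s(v0, q2) (ph_free _ _ _ _ hq2a.1.symm ?_ ?_) ?_
  · simp only [mem_insert, notMem_empty, or_false, Sym2.eq_iff]
    grind
  · simp only [mem_insert, notMem_empty, or_false, Sym2.eq_iff]
    grind
  obtain ⟨u, hu⟩ := ph_fresh (n := n) [a0, c0, v0, q1, a1, c1, q2] (by simp; omega)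
  obtain ⟨v, hv⟩ := ph_fresh (n := n) [a0, c0, v0, q1, a1, c1, q2, u] (by simp; omega)
  simp only [List.mem_cons, List.not_mem_nil, or_false, not_or] at hu hv
  refine MakerWinsFrom.breaker ⟨s(u, v), ph_free _ _ _ _ (fun hc => hv.2.2.2.2.2.2.2 hc.symm) ?_ ?_⟩ ?_
  · simp only [mem_insert, notMem_empty, or_false, Sym2.eq_iff]
    tauto
  · simp only [mem_insert, notMem_empty, or_false, Sym2.eq_iff]
    tauto
  intro b2 hb2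
  obtain ⟨a2, c2, rfl⟩ : ∃ a c, b2 = s(a, c) := by
    induction b2 with | _ a c => exact ⟨a, c, rfl⟩
  rw [mem_sdiff, ph_board] at hb2
  simp only [mem_union, mem_insert, notMem_empty, or_false, Sym2.eq_iff, not_or] at hb2
  have h2 := hb2.1
  -- the third move
  obtain ⟨q3, hq3a, hq3b⟩ : ∃ q3, (q3 ≠ v0 ∧ q3 ≠ q1 ∧ q3 ≠ q2) ∧
      ((((a2 = q3 ∧ (c2 = q1 ∨ c2 = q2)) ∨ (c2 = q3 ∧ (a2 = q1 ∨ a2 = q2))) ∧
        ¬ ((v0 = a1 ∧ q3 = c1) ∨ (v0 = c1 ∧ q3 = a1))) ∨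
      ((q3 ≠ a0 ∧ q3 ≠ c0 ∧ q3 ≠ a1 ∧ q3 ≠ c1 ∧ q3 ≠ a2 ∧ q3 ≠ c2) ∧
        ¬ ((a2 ≠ v0 ∧ a2 ≠ q1 ∧ a2 ≠ q2) ∧ (c2 = q1 ∨ c2 = q2) ∧
          ¬ ((v0 = a1 ∧ a2 = c1) ∨ (v0 = c1 ∧ a2 = a1))) ∧
        ¬ ((c2 ≠ v0 ∧ c2 ≠ q1 ∧ c2 ≠ q2) ∧ (a2 = q1 ∨ a2 = q2) ∧
          ¬ ((v0 = a1 ∧ c2 = c1) ∨ (v0 = c1 ∧ c2 = a1))))) := by
    by_cases hex : ∃ x, (x ≠ v0 ∧ x ≠ q1 ∧ x ≠ q2) ∧
          ((a2 = x ∧ (c2 = q1 ∨ c2 = q2)) ∨ (c2 = x ∧ (a2 = q1 ∨ a2 = q2))) ∧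
          ¬ ((v0 = a1 ∧ x = c1) ∨ (v0 = c1 ∧ x = a1))
    · obtain ⟨x, hx1, hx2⟩ := hex
      exact ⟨x, hx1, Or.inl hx2⟩
    · obtain ⟨w, hw⟩ := ph_fresh (n := n) [v0, q1, q2, a0, c0, a1, c1, a2, c2] (by simp; omega)
      simp only [List.mem_cons, List.not_mem_nil, or_false, not_or] at hw
      refine ⟨w, ⟨hw.1, hw.2.1, hw.2.2.1⟩, Or.inr ⟨hw.2.2.2, ?_, ?_⟩⟩
      · rintro ⟨e1, e2, e3⟩
        exact hex ⟨a2, e1, Or.inl ⟨rfl, e2⟩, e3⟩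
      · rintro ⟨e1, e2, e3⟩
        exact hex ⟨c2, e1, Or.inr ⟨rfl, e2⟩, e3⟩
  refine MakerWinsFrom.maker s(v0, q3) (ph_free _ _ _ _ hq3a.1.symm ?_ ?_) ?_
  · simp only [mem_insert, notMem_empty, or_false, Sym2.eq_iff]
    grind
  · simp only [mem_insert, notMem_empty, or_false, Sym2.eq_iff]
    grind
  apply ph_fin T v0 q1 q2 q3 a0 c0 a1 c1 a2 c2 h
  · refine ⟨?_, hq2a.1.symm, hq3a.1.symm, hq2a.2.symm, hq3a.2.1.symm, hq3a.2.2.symm⟩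
    exact fun hc => hq1.2.2 hc.symm
  · exact h0
  · exact h1
  · exact h2
  · intro q hq
    clear h
    grind
  · intro x x1 x2 x3 x4
    have hcl := ph_claim v0 q1 q2 q3 a0 c0 a1 c1 a2 c2 x h0 h2 hq1 hq2a
      hq2b hq3a hq3b x1 x2 x3 x4
    simpa only [mem_insert, mem_singleton, Sym2.eq_iff, PhP] using hcl

end Pool.Agent.TH645.MB
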