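import Pool.Agent.TH451.MB.Stmt

set_option autoImplicit false

namespace Pool.Agent.TH645.MB
open Pool.Agent.TH451.MB Finset

theorem rare : StRare := by
  classical
  intro n N G s hs hG x hx B W' hW'
  set I0 : Finset (Fin N) := univ.filter (fun i => (nb G (x i) W').card < 2 * s) with hI0
  have h1 : I0.card < s := by
    by_contra hcon
    push Not at hcon
    obtain ⟨J, hJ, hJc⟩ := Finset.exists_subset_card_eq hcon
    have hYc : (J.image x).card = s := by
      rw [Finset.card_image_of_injective _ hx, hJc]
    have hAc : 80 * s ≤ (W' \ J.image x).card := by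
      have := Finset.le_card_sdiff (J.image x) W'
      omega
    obtain ⟨y, hy, hy2⟩ := hG.p2 (W' \ J.image x) (J.image x) Finset.sdiff_disjoint
      (Finset.disjoint_empty_right _) (Finset.disjoint_empty_right _) (by omega) (by omega)
    obtain ⟨i, hi, rfl⟩ := Finset.mem_image.mp hy
    have hi2 : (nb G (x i) W').card < 2 * s := (Finset.mem_filter.mp (hJ hi)).2
    have hle : (nb G (x i) (W' \ J.image x)).card ≤ (nb G (x i) W').card := by
      apply Finset.card_le_card
      intro z hz
      rw [mem_nb] at hz ⊢
      exact ⟨(Finset.mem_sdiff.mp hz.1).1, hz.2⟩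
    omega
  have h2 : (univ.filter (fun i => s < (B.filter (fun b => cnb G (x i) b W' = ∅)).card)) ⊆ I0 := by
    intro i hi
    rw [Finset.mem_filter] at hi
    rw [hI0, Finset.mem_filter]
    refine ⟨Finset.mem_univ _, ?_⟩
    by_contra hcon
    push Not at hcon
    obtain ⟨Y, hY, hYc⟩ := Finset.exists_subset_card_eq hi.2.le
    have hAc : s ≤ (nb G (x i) W' \ Y).card := by
      have := Finset.le_card_sdiff Y (nb G (x i) W')
      omega
    obtain ⟨b, hb, hb2⟩ := hG.p2 (nb G (x i) W' \ Y) Y Finset.sdiff_disjoint
      (Finset.disjoint_empty_right _) (Finset.disjoint_empty_right _) hAc (by omega)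
    have hpos : 0 < (nb G b (nb G (x i) W' \ Y)).card := by omega
    obtain ⟨z, hz⟩ := Finset.card_pos.mp hpos
    rw [mem_nb, Finset.mem_sdiff, mem_nb] at hz
    have hb3 := (Finset.mem_filter.mp (hY hb)).2
    have : z ∈ cnb G (x i) b W' := by
      rw [mem_cnb]
      exact ⟨hz.1.1.1, hz.1.1.2, hz.2⟩
    rw [hb3] at this
    exact absurd this (Finset.notMem_empty z)
  have h3 := Finset.card_le_card h2
  convert h3.trans h1.le using 2

end Pool.Agent.TH645.MB
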