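import Pool.Agent.TH993.SP.Defs

/-!
# The lower bound for the sprawl by the mean area
-/

set_option autoImplicit false

open MeasureTheory Set Real Filter Topology

namespace Pool.Agent.TH645.SP

open Pool.Agent.TH993.SP

lemma per {T : ℝ} {X : ℝ → ℝ × ℝ} (h : ∀ a, X (a + T) = - X a) :
    Function.Periodic X (2 * T) := by
  intro a
  have e : a + 2 * T = (a + T) + T := by ring
  rw [e, h, h, neg_neg]

lemma shift {f : ℝ → ℝ} {P : ℝ} (hf : Function.Periodic f P) (t : ℝ) :
    ∫ c in (0:ℝ)..P, f (c + t) = ∫ c in (0:ℝ)..P, f c := by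
  rw [intervalIntegral.integral_comp_add_right (f := f)]
  have := hf.intervalIntegral_add_eq t 0
  simpa [add_comm] using this

lemma wdc : Continuous fun p : (ℝ × ℝ) × (ℝ × ℝ) => wd p.1 p.2 := by
  unfold wd
  fun_prop

lemma wd_four (a b c d : ℝ × ℝ) :
    wd (a - b) (c - d) = wd a c - wd a d - wd b c + wd b d := by
  simp [wd]; ring

lemma swapc {F : ℝ → ℝ → ℝ} (hF : Continuous (Function.uncurry F)) (a b c d : ℝ) :
    ∫ x in a..b, ∫ y in c..d, F x y = ∫ y in c..d, ∫ x in a..b, F x y := by
  apply intervalIntegral_intervalIntegral_swap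
  have hc : IsCompact (uIcc a b ×ˢ uIcc c d : Set (ℝ × ℝ)) :=
    isCompact_uIcc.prod isCompact_uIcc
  have h1 : IntegrableOn (Function.uncurry F) (uIcc a b ×ˢ uIcc c d) volume :=
    hF.continuousOn.integrableOn_compact hc
  exact h1.mono_set (Set.prod_mono uIoc_subset_uIcc uIoc_subset_uIcc)

theorem INT : S_INT := by
  intro N T X hN hP
  have hT := hP.T_pos
  have hX : Continuous X := hP.cont
  have hNc : Continuous N := hN.cont
  have hper := per hP.anti
  have hNneg : ∀ v, N (-v) = N v := by
    intro v
    have := hN.smul (-1) v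
    simpa using this
  have hw : ∀ {f g : ℝ × ℝ → ℝ × ℝ}, Continuous f → Continuous g →
      Continuous fun p => wd (f p) (g p) := fun hf hg => wdc.comp (hf.prodMk hg)
  obtain ⟨B, hB⟩ : ∃ B : ℝ → ℝ, B = fun t => ∫ c in (0:ℝ)..(2*T), wd (X c) (X (c + t)) :=
    ⟨_, rfl⟩
  obtain ⟨G, hG⟩ : ∃ G : ℝ → ℝ, G = fun s => ∫ c in (0:ℝ)..(2*T), N (X (c - s/2) - X (c + s/2)) :=
    ⟨_, rfl⟩
  have hBc : Continuous B := by
    rw [hB]
    apply intervalIntegral.continuous_parametric_intervalIntegral_of_continuous'
    exact hw (f := fun p => X p.2) (g := fun p => X (p.2 + p.1)) (by fun_prop) (by fun_prop)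
  have hGc : Continuous G := by
    rw [hG]
    apply intervalIntegral.continuous_parametric_intervalIntegral_of_continuous'
    simp only [Function.uncurry_def]
    fun_prop
  -- step 1
  have h1 : ∫ a in (0 : ℝ)..(2 * T), ∫ b in (0 : ℝ)..(2 * T), N (X a - X b) =
      ∫ s in (0:ℝ)..(2*T), G s := by
    have e1 : ∀ a, ∫ b in (0 : ℝ)..(2 * T), N (X a - X b) =
        ∫ s in (0 : ℝ)..(2 * T), N (X a - X (a + s)) := by
      intro a
      have hp : Function.Periodic (fun b => N (X a - X b)) (2*T) := by
        intro b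
        simp only [hper b]
      have := shift hp a
      rw [← this]
      simp only [add_comm]
    simp_rw [e1]
    rw [swapc (F := fun a s => N (X a - X (a + s)))]
    · apply intervalIntegral.integral_congr
      intro s _
      have hp : Function.Periodic (fun c => N (X c - X (c + s))) (2*T) := by
        intro c
        have e : c + 2 * T + s = (c + s) + 2 * T := by ring
        simp only [e, hper c, hper (c + s)]
      have := shift hp (-(s/2))
      simp only [hG]
      rw [← this]
      apply intervalIntegral.integral_congr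
      intro c _
      have e : c + -(s/2) + s = c + s/2 := by ring
      simp only [e]
      rw [sub_eq_add_neg c]
    · simp only [Function.uncurry_def]
      fun_prop
  -- step 2
  have h2 : ∀ s, G (2 * T - s) = G s := by
    intro s
    have hp : Function.Periodic (fun c => N (X (c - s/2) - X (c + s/2))) (2*T) := by
      intro c
      have e : c + 2 * T + s/2 = (c + s/2) + 2 * T := by ring
      have e' : c + 2 * T - s/2 = (c - s/2) + 2 * T := by ring
      simp only [e, e', hper (c - s/2), hper (c + s/2)]
    have := shift hp T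
    simp only [hG]
    rw [← this]
    apply intervalIntegral.integral_congr
    intro c _
    have e : c - (2 * T - s)/2 = c + T + s/2 + - (2 * T) := by ring
    have e' : c + (2 * T - s)/2 = c + T - s/2 := by ring
    have e3 : X (c - (2 * T - s)/2) = X (c + T + s/2) := by
      have := hper (c - (2 * T - s)/2)
      rw [← this]
      congr 1
      ring
    simp only [e3, e']
    rw [← hNneg, neg_sub]
  have h3 : ∫ s in (0:ℝ)..(2*T), G s = 2 * ∫ s in (0:ℝ)..T, G s := by
    have e1 : ∫ s in (0:ℝ)..T, G s = ∫ s in T..(2*T), G s := by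
      have := intervalIntegral.integral_comp_sub_left (fun s => G s) (2 * T) (a := 0) (b := T)
      rw [show 2 * T - T = T by ring, show 2 * T - 0 = 2 * T by ring] at this
      rw [← this]
      apply intervalIntegral.integral_congr
      intro s _
      exact (h2 s).symm
    have e2 := intervalIntegral.integral_add_adjacent_intervals
      (hGc.intervalIntegrable 0 T) (hGc.intervalIntegrable (μ := volume) T (2*T))
    rw [← e2, ← e1]
    ring
  -- step 3
  have hBs : ∀ x y : ℝ, ∫ c in (0:ℝ)..(2*T), wd (X (c + x)) (X (c + y)) = B (y - x) := by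
    intro x y
    have hp : Function.Periodic (fun c => wd (X c) (X (c + (y - x)))) (2*T) := by
      intro c
      have e : c + 2 * T + (y - x) = (c + (y - x)) + 2 * T := by ring
      simp only [e, hper c, hper (c + (y - x))]
    have := shift hp x
    simp only [hB]
    rw [← this]
    apply intervalIntegral.integral_congr
    intro c _
    have e : c + x + (y - x) = c + y := by ring
    simp only [e]
  have hwc : ∀ x y : ℝ, Continuous fun c => wd (X (c + x)) (X (c + y)) := by
    intro x y
    exact wdc.comp ((hX.comp (by fun_prop : Continuous fun c : ℝ => c + x)).prodMk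
      (hX.comp (by fun_prop : Continuous fun c : ℝ => c + y)))
  have h4 : ∀ e s : ℝ, 0 ≤ e →
      B (T/2 + e - s/2) - B (T/2 - s/2) - B (T/2 + e + s/2) + B (T/2 + s/2) ≤ e * G s := by
    intro e s he
    have key : ∫ c in (0:ℝ)..(2*T), wd (X (c + s/2) - X (c + -(s/2)))
        (X (c + (T/2 + e)) - X (c + T/2)) ≤
        ∫ c in (0:ℝ)..(2*T), e * N (X (c - s/2) - X (c + s/2)) := by
      apply intervalIntegral.integral_mono_on (by positivity)
      · apply Continuous.intervalIntegrable
        exact wdc.comp (Continuous.prodMk (by fun_prop) (by fun_prop))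
      · apply Continuous.intervalIntegrable
        fun_prop
      · intro c _
        have := hP.A1 (c + T/2) (c + (T/2 + e)) (X (c + s/2) - X (c + -(s/2))) (by linarith)
        refine this.trans (le_of_eq ?_)
        rw [← hNneg (X (c - s/2) - X (c + s/2)), neg_sub, ← sub_eq_add_neg]
        congr 1
        ring
    rw [intervalIntegral.integral_const_mul] at key
    have e1 : ∫ c in (0:ℝ)..(2*T), wd (X (c + s/2) - X (c + -(s/2)))
        (X (c + (T/2 + e)) - X (c + T/2)) =
        B (T/2 + e - s/2) - B (T/2 - s/2) - B (T/2 + e + s/2) + B (T/2 + s/2) := by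
      simp_rw [wd_four]
      rw [intervalIntegral.integral_add, intervalIntegral.integral_sub,
        intervalIntegral.integral_sub, hBs, hBs, hBs, hBs]
      · congr 2
        · congr 2
          ring
        · congr 1
          ring
      · exact (hwc _ _).intervalIntegrable _ _
      · exact (hwc _ _).intervalIntegrable _ _
      · exact ((hwc _ _).sub (hwc _ _)).intervalIntegrable _ _
      · exact (hwc _ _).intervalIntegrable _ _
      · exact (((hwc _ _).sub (hwc _ _)).sub (hwc _ _)).intervalIntegrable _ _
      · exact (hwc _ _).intervalIntegrable _ _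
    rw [e1] at key
    simpa [hG] using key
  -- step 4
  obtain ⟨Φ, hΦ⟩ : ∃ Φ : ℝ → ℝ, Φ = fun x => ∫ t in (0:ℝ)..x, B t := ⟨_, rfl⟩
  have hΦd : ∀ x, HasDerivAt Φ (B x) x := by
    intro x
    rw [hΦ]
    exact intervalIntegral.integral_hasDerivAt_right (hBc.intervalIntegrable _ _)
      hBc.aestronglyMeasurable.stronglyMeasurableAtFilter hBc.continuousAt
  have hΦi : ∀ a b, ∫ t in a..b, B t = Φ b - Φ a := by
    intro a b
    exact intervalIntegral.integral_eq_sub_of_hasDerivAt (fun x _ => hΦd x)
      (hBc.intervalIntegrable _ _)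
  have hplus : ∀ x, ∫ s in (0:ℝ)..T, B (x + s/2) = 2 * (Φ (x + T/2) - Φ x) := by
    intro x
    have := intervalIntegral.integral_comp_add_div (f := B) (a := 0) (b := T) (c := 2)
      two_ne_zero x
    rw [this, hΦi]
    simp
  have hminus : ∀ x, ∫ s in (0:ℝ)..T, B (x - s/2) = 2 * (Φ x - Φ (x - T/2)) := by
    intro x
    have := intervalIntegral.integral_comp_sub_div (f := B) (a := 0) (b := T) (c := 2)
      two_ne_zero x
    rw [this, hΦi]
    simp
  have h5 : ∀ e : ℝ, 0 ≤ e →
      2 * (Φ (T/2 + e) - Φ e) - 2 * (Φ (T/2) - Φ 0) - 2 * (Φ (T + e) - Φ (T/2 + e)) +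
        2 * (Φ T - Φ (T/2)) ≤ e * ∫ s in (0:ℝ)..T, G s := by
    intro e he
    have key : ∫ s in (0:ℝ)..T, (B (T/2 + e - s/2) - B (T/2 - s/2) - B (T/2 + e + s/2) +
        B (T/2 + s/2)) ≤ ∫ s in (0:ℝ)..T, e * G s := by
      apply intervalIntegral.integral_mono_on hT.le
      · apply Continuous.intervalIntegrable
        fun_prop
      · apply Continuous.intervalIntegrable
        fun_prop
      · intro s _
        exact h4 e s he
    rw [intervalIntegral.integral_const_mul] at key
    rw [intervalIntegral.integral_add, intervalIntegral.integral_sub,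
        intervalIntegral.integral_sub, hminus, hminus, hplus, hplus] at key
    · rw [show T/2 + e - T/2 = e by ring, show T/2 - T/2 = 0 by ring,
        show T/2 + e + T/2 = T + e by ring, show T/2 + T/2 = T by ring] at key
      exact key
    all_goals
      apply Continuous.intervalIntegrable
      fun_prop
  have hB0 : B 0 = 0 := by
    simp only [hB, add_zero]
    have : ∀ c, wd (X c) (X c) = 0 := by intro c; simp [wd]; ring
    simp [this]
  have hBT : B T = 0 := by
    simp only [hB, hP.anti]
    have : ∀ c, wd (X c) (-X c) = 0 := by intro c; simp [wd]; ring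
    simp [this]
  -- the derivative at zero
  have h6 : HasDerivAt (fun e : ℝ => 2 * (Φ (T/2 + e) - Φ e) - 2 * (Φ (T/2) - Φ 0) -
      2 * (Φ (T + e) - Φ (T/2 + e)) + 2 * (Φ T - Φ (T/2)) - e * ∫ s in (0:ℝ)..T, G s)
      (4 * B (T/2) - ∫ s in (0:ℝ)..T, G s) 0 := by
    have a1 : ∀ x : ℝ, HasDerivAt (fun e : ℝ => Φ (x + e)) (B x) 0 := by
      intro x
      have h := hΦd (x + 0)
      have := HasDerivAt.comp_const_add x 0 h
      simpa using this
    have a2 : HasDerivAt (fun e : ℝ => Φ e) (B 0) 0 := hΦd 0
    have a3 := ((((((a1 (T/2)).sub a2).const_mul 2).sub_const (2 * (Φ (T/2) - Φ 0))).sub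
      (((a1 T).sub (a1 (T/2))).const_mul 2)).add_const (2 * (Φ T - Φ (T/2)))).sub
      ((hasDerivAt_id (0:ℝ)).mul_const (∫ s in (0:ℝ)..T, G s))
    refine (a3.congr_deriv ?_)
    rw [hB0, hBT]
    ring
  have h7 : 4 * B (T/2) - ∫ s in (0:ℝ)..T, G s ≤ 0 := by
    have h8 := h6.tendsto_slope_zero_right
    refine le_of_tendsto h8 ?_
    filter_upwards [self_mem_nhdsWithin] with e he
    have he0 : (0:ℝ) < e := he
    have := h5 e he0.le
    simp only [zero_add, add_zero, smul_eq_mul, zero_mul, sub_zero]
    have hinv : 0 < e⁻¹ := inv_pos.2 he0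
    apply mul_nonpos_of_nonneg_of_nonpos hinv.le
    linarith
  have h9 : B (T/2) = ∫ c in (0 : ℝ)..(2 * T), wd (X c) (X (c + T / 2)) := by
    rw [hB]
  rw [h1, h3, ← h9]
  linarith

end Pool.Agent.TH645.SP
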