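import Pool.Agent.TH645.J1584

/-!
Job 1583 (US-3): blocks of size at least 3 and short hulls are rare.
-/

set_option autoImplicit false

namespace Pool.Agent.TH645.US
open Equiv Filter Topology
open Pool.Agent.TH691.US Pool.Agent.W6.PS

theorem frac_exists {κ : Type*} (n : ℕ) (F : Finset κ) (P : κ → Perm (Fin n) → Prop) :
    frac n (fun π => ∃ c ∈ F, P c π) ≤ ∑ c ∈ F, frac n (P c) := by
  classical
  unfold frac
  rw [← Finset.sum_div]
  apply div_le_div_of_nonneg_right _ (by positivity)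
  have h : (@Finset.filter _ (fun π => ∃ c ∈ F, P c π) (fun _ => Classical.propDecidable _)
      Finset.univ) ⊆ F.biUnion fun c => Finset.univ.filter (P c) := by
    intro π
    simp
  exact_mod_cast (Finset.card_le_card h).trans Finset.card_biUnion_le

/-- permutations which map `A` into `B` -/
theorem card_maps_into {n : ℕ} (A B : Finset (Fin n)) (S : Finset (Perm (Fin n)))
    (hS : ∀ π ∈ S, ∀ a ∈ A, π a ∈ B) :
    S.card ≤ B.card.descFactorial A.card * (n - A.card).factorial := by
  classical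
  have hsub : S ⊆ (Finset.univ : Finset (A ↪ B)).biUnion
      fun e => agree (fun a : A => (a : Fin n)) (fun a => (e a : Fin n)) := by
    intro π hπ
    rw [Finset.mem_biUnion]
    refine ⟨⟨fun a => ⟨π a, hS π hπ a a.2⟩, ?_⟩, Finset.mem_univ _, ?_⟩
    · intro a b hab
      simp only [Subtype.mk.injEq, EmbeddingLike.apply_eq_iff_eq] at hab
      exact Subtype.ext hab
    · rw [mem_agree]
      intro a
      rfl
  refine (Finset.card_le_card hsub).trans
    ((Finset.card_biUnion_le_card_mul _ _ (n - A.card).factorial ?_).trans ?_)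
  · intro e _
    have := card_agree_le (n := n) (P := fun a : A => (a : Fin n)) Subtype.val_injective
      (fun a => (e a : Fin n))
    rwa [Fintype.card_coe] at this
  · rw [Finset.card_univ, Fintype.card_embedding_eq, Fintype.card_coe, Fintype.card_coe]

/-- the proportion of permutations which map `A` into `B` -/
theorem frac_maps_into {n : ℕ} (A B : Finset (Fin n)) (k l : ℕ) (hA : A.card = k)
    (hB : B.card ≤ l) (P : Perm (Fin n) → Prop)
    (hP : (∀ π, P π → ∀ a ∈ A, π a ∈ B) ∨ (∀ π, P π → ∀ a ∈ A, π⁻¹ a ∈ B)) :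
    frac n P ≤ (l.choose k : ℝ) / (n.choose k : ℝ) := by
  classical
  have hkn : k ≤ n := by
    rw [← hA]
    calc A.card ≤ (Finset.univ : Finset (Fin n)).card := Finset.card_le_univ _
      _ = n := by simp
  have hc : (Finset.univ.filter P).card ≤ l.descFactorial k * (n - k).factorial := by
    have h0 : (Finset.univ.filter P).card ≤ B.card.descFactorial A.card * (n - A.card).factorial := by
      rcases hP with hP | hP
      · apply card_maps_into A B
        intro π hπ
        exact hP π (Finset.mem_filter.mp hπ).2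
      · rw [← Finset.card_image_of_injective (Finset.univ.filter P) inv_injective]
        apply card_maps_into A B
        intro π hπ
        obtain ⟨ρ, hρ, rfl⟩ := Finset.mem_image.mp hπ
        exact hP ρ (Finset.mem_filter.mp hρ).2
    rw [hA] at h0
    exact h0.trans (Nat.mul_le_mul_right _ (Nat.descFactorial_le k hB))
  unfold frac
  have hf : (0 : ℝ) < (n.factorial : ℝ) := by exact_mod_cast n.factorial_pos
  have hch : (0 : ℝ) < (n.choose k : ℝ) := by exact_mod_cast Nat.choose_pos hkn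
  rw [div_le_div_iff₀ hf hch]
  have h1 := Nat.choose_mul_factorial_mul_factorial hkn
  have h2 : l.descFactorial k = k.factorial * l.choose k := Nat.descFactorial_eq_factorial_mul_choose l k
  have h3 : (Finset.univ.filter P).card * n.choose k ≤ l.choose k * n.factorial := by
    calc (Finset.univ.filter P).card * n.choose k
        ≤ (l.descFactorial k * (n - k).factorial) * n.choose k := Nat.mul_le_mul_right _ hc
      _ = l.choose k * (n.choose k * k.factorial * (n - k).factorial) := by rw [h2]; ring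
      _ = _ := by rw [h1]
  exact_mod_cast h3

/-- an interval of `Fin n` -/
def iv (n s t : ℕ) : Finset (Fin n) := Finset.univ.filter fun i => s ≤ i.val ∧ i.val < t

theorem mem_iv {n s t : ℕ} {i : Fin n} : i ∈ iv n s t ↔ s ≤ i.val ∧ i.val < t := by
  simp [iv]

theorem card_iv (n s t : ℕ) : (iv n s t).card = min t n - s := by
  have h : (iv n s t).map Fin.valEmbedding = Finset.Ico s (min t n) := by
    ext x
    simp only [Finset.mem_map, mem_iv, Fin.valEmbedding_apply, Finset.mem_Ico, lt_min_iff]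
    constructor
    · rintro ⟨i, ⟨h1, h2⟩, rfl⟩
      exact ⟨h1, h2, i.isLt⟩
    · rintro ⟨h1, h2, h3⟩
      exact ⟨⟨x, h3⟩, ⟨h1, h2⟩, rfl⟩
  rw [← Finset.card_map Fin.valEmbedding, h, Nat.card_Ico]

/-! ### bounds for binomial coefficients -/

theorem choose_ge (j k n : ℕ) (h1 : j ≤ k) (h2 : k + j ≤ n) : n.choose j ≤ n.choose k := by
  have h3 := Nat.choose_mul (n := n) h1
  have h4 : k.choose j ≤ (n - j).choose (k - j) := by
    rw [← Nat.choose_symm h1]
    exact Nat.choose_le_choose _ (by omega)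
  have h5 : 0 < k.choose j := Nat.choose_pos h1
  have h6 : n.choose j * k.choose j ≤ n.choose k * k.choose j := by
    rw [h3]
    exact Nat.mul_le_mul_left _ h4
  exact Nat.le_of_mul_le_mul_right h6 h5

theorem pow_le_choose (j n : ℕ) (h : 2 * j ≤ n) :
    (n : ℝ) ^ j ≤ j.factorial * 2 ^ j * (n.choose j : ℝ) := by
  have h1 : (n + 1 - j) ^ j ≤ n.descFactorial j := Nat.pow_sub_le_descFactorial n j
  have h2 : n ≤ 2 * (n + 1 - j) := by omega
  have h3 : n ^ j ≤ j.factorial * 2 ^ j * n.choose j := by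
    calc n ^ j ≤ (2 * (n + 1 - j)) ^ j := Nat.pow_le_pow_left h2 j
      _ = 2 ^ j * (n + 1 - j) ^ j := Nat.mul_pow _ _ _
      _ ≤ 2 ^ j * n.descFactorial j := Nat.mul_le_mul_left _ h1
      _ = _ := by rw [Nat.descFactorial_eq_factorial_mul_choose]; ring
  exact_mod_cast h3

theorem inv_choose_le (j k n : ℕ) (h1 : j ≤ k) (h2 : k + j ≤ n) (h3 : 0 < n) :
    1 / (n.choose k : ℝ) ≤ (j.factorial * 2 ^ j : ℝ) / (n : ℝ) ^ j := by
  have hn : (0 : ℝ) < (n : ℝ) := by exact_mod_cast h3
  have hnk : (0 : ℝ) < (n.choose k : ℝ) := by exact_mod_cast Nat.choose_pos (by omega)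
  rw [div_le_div_iff₀ hnk (by positivity), one_mul]
  have h4 := pow_le_choose j n (by omega)
  have h5 : (n.choose j : ℝ) ≤ (n.choose k : ℝ) := by exact_mod_cast choose_ge j k n h1 h2
  calc (n : ℝ) ^ j ≤ j.factorial * 2 ^ j * (n.choose j : ℝ) := h4
    _ ≤ _ := mul_le_mul_of_nonneg_left h5 (by positivity)

/-! ### blocks -/

theorem frac_block_le (n : ℕ) (hn : 10 ≤ n) :
    frac n (fun π => ∃ k, 3 ≤ k ∧ k < n ∧ HasBlock π k) ≤ 3456 / (n : ℝ) := by
  have hnr : (0 : ℝ) < (n : ℝ) := by exact_mod_cast (by omega : 0 < n)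
  have hn10 : (10 : ℝ) ≤ (n : ℝ) := by exact_mod_cast hn
  have h1 : frac n (fun π => ∃ k, 3 ≤ k ∧ k < n ∧ HasBlock π k) ≤
      ∑ k ∈ Finset.Ico 3 n, frac n (fun π => HasBlock π k) := by
    refine le_trans (frac_mono n _ (fun π => ∃ k ∈ Finset.Ico 3 n, HasBlock π k) ?_)
      (frac_exists n _ _)
    rintro π ⟨k, h3, h4, h5⟩
    exact ⟨k, Finset.mem_Ico.mpr ⟨h3, h4⟩, h5⟩
  have h2 : ∀ k, 3 ≤ k → k < n → frac n (fun π => HasBlock π k) ≤
      ((n - k + 1 : ℕ) : ℝ) ^ 2 * (1 / (n.choose k : ℝ)) := by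
    intro k h3 h4
    have h5 : frac n (fun π => HasBlock π k) ≤
        ∑ c ∈ Finset.range (n - k + 1) ×ˢ Finset.range (n - k + 1),
          frac n (fun π => ∀ a ∈ iv n c.1 (c.1 + k), π a ∈ iv n c.2 (c.2 + k)) := by
      refine le_trans (frac_mono n _ (fun π => ∃ c ∈ Finset.range (n - k + 1) ×ˢ
        Finset.range (n - k + 1), ∀ a ∈ iv n c.1 (c.1 + k), π a ∈ iv n c.2 (c.2 + k)) ?_)
        (frac_exists n _ _)
      rintro π ⟨s, v, hs, hb⟩
      have hmap : ∀ a ∈ iv n s (s + k), π a ∈ iv n v (v + k) := by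
        intro a ha
        rw [mem_iv] at ha ⊢
        exact hb a ha.1 ha.2
      have hcard : (iv n s (s + k)).card ≤ (iv n v (v + k)).card :=
        Finset.card_le_card_of_injOn π hmap π.injective.injOn
      rw [card_iv, card_iv] at hcard
      refine ⟨(s, v), ?_, hmap⟩
      rw [Finset.mem_product, Finset.mem_range, Finset.mem_range]
      simp only
      omega
    refine h5.trans ?_
    have h6 : ∀ c ∈ Finset.range (n - k + 1) ×ˢ Finset.range (n - k + 1),
        frac n (fun π => ∀ a ∈ iv n c.1 (c.1 + k), π a ∈ iv n c.2 (c.2 + k)) ≤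
          1 / (n.choose k : ℝ) := by
      intro c hc
      rw [Finset.mem_product, Finset.mem_range, Finset.mem_range] at hc
      have h7 := frac_maps_into (iv n c.1 (c.1 + k)) (iv n c.2 (c.2 + k)) k k
        (by rw [card_iv]; omega) (by rw [card_iv]; omega)
        (fun π => ∀ a ∈ iv n c.1 (c.1 + k), π a ∈ iv n c.2 (c.2 + k)) (Or.inl fun π h => h)
      rwa [Nat.choose_self, Nat.cast_one] at h7
    refine (Finset.sum_le_sum h6).trans ?_
    rw [Finset.sum_const, Finset.card_product, Finset.card_range, nsmul_eq_mul, sq]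
    push_cast
    exact le_rfl
  have h3 : ∀ k ∈ Finset.Ico 3 n, frac n (fun π => HasBlock π k) ≤
      384 / (n : ℝ) ^ 2 + (if k ∈ ({3, n - 3, n - 2, n - 1} : Finset ℕ) then 768 / (n : ℝ) else 0) := by
    intro k hk
    rw [Finset.mem_Ico] at hk
    refine (h2 k hk.1 hk.2).trans ?_
    have h2nn : (0 : ℝ) ≤ 384 / (n : ℝ) ^ 2 := by positivity
    have hsq : (1 : ℝ) ≤ (n : ℝ) := by linarith
    by_cases c1 : k = 3
    · rw [if_pos (by simp [c1])]
      have hinv := inv_choose_le 3 k n (by omega) (by omega) (by omega)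
      have hle : ((n - k + 1 : ℕ) : ℝ) ^ 2 ≤ (n : ℝ) ^ 2 := by
        apply pow_le_pow_left₀ (by positivity)
        exact_mod_cast (by omega : n - k + 1 ≤ n)
      have : ((n - k + 1 : ℕ) : ℝ) ^ 2 * (1 / (n.choose k : ℝ)) ≤
          (n : ℝ) ^ 2 * ((Nat.factorial 3 * 2 ^ 3 : ℝ) / (n : ℝ) ^ 3) :=
        mul_le_mul hle hinv (by positivity) (by positivity)
      have e : (n : ℝ) ^ 2 * ((Nat.factorial 3 * 2 ^ 3 : ℝ) / (n : ℝ) ^ 3) = 48 / (n : ℝ) := by
        have : ((Nat.factorial 3 : ℕ) : ℝ) = 6 := by norm_num [Nat.factorial]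
        rw [this]
        field_simp
        norm_num
      rw [e] at this
      have h48 : 48 / (n : ℝ) ≤ 768 / (n : ℝ) := div_le_div_of_nonneg_right (by norm_num) hnr.le
      linarith
    by_cases c2 : k + 4 ≤ n
    · have hinv := inv_choose_le 4 k n (by omega) (by omega) (by omega)
      have hle : ((n - k + 1 : ℕ) : ℝ) ^ 2 ≤ (n : ℝ) ^ 2 := by
        apply pow_le_pow_left₀ (by positivity)
        exact_mod_cast (by omega : n - k + 1 ≤ n)
      have : ((n - k + 1 : ℕ) : ℝ) ^ 2 * (1 / (n.choose k : ℝ)) ≤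
          (n : ℝ) ^ 2 * ((Nat.factorial 4 * 2 ^ 4 : ℝ) / (n : ℝ) ^ 4) :=
        mul_le_mul hle hinv (by positivity) (by positivity)
      have e : (n : ℝ) ^ 2 * ((Nat.factorial 4 * 2 ^ 4 : ℝ) / (n : ℝ) ^ 4) = 384 / (n : ℝ) ^ 2 := by
        have : ((Nat.factorial 4 : ℕ) : ℝ) = 24 := by norm_num [Nat.factorial]
        rw [this]
        field_simp
        norm_num
      rw [e] at this
      have : (0 : ℝ) ≤ (if k ∈ ({3, n - 3, n - 2, n - 1} : Finset ℕ) then 768 / (n : ℝ) else 0) := by
        split_ifs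
        · positivity
        · exact le_rfl
      linarith
    · have hmem : k ∈ ({3, n - 3, n - 2, n - 1} : Finset ℕ) := by
        simp only [Finset.mem_insert, Finset.mem_singleton]
        omega
      rw [if_pos hmem]
      have hle : ((n - k + 1 : ℕ) : ℝ) ^ 2 ≤ 4 ^ 2 := by
        apply pow_le_pow_left₀ (by positivity)
        exact_mod_cast (by omega : n - k + 1 ≤ 4)
      have hsym : n.choose k = n.choose (n - k) := (Nat.choose_symm (by omega)).symm
      have hinv : 1 / (n.choose k : ℝ) ≤ (Nat.factorial 1 * 2 ^ 1 : ℝ) / (n : ℝ) ^ 1 := by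
        rw [hsym]
        exact inv_choose_le 1 (n - k) n (by omega) (by omega) (by omega)
      have : ((n - k + 1 : ℕ) : ℝ) ^ 2 * (1 / (n.choose k : ℝ)) ≤
          4 ^ 2 * ((Nat.factorial 1 * 2 ^ 1 : ℝ) / (n : ℝ) ^ 1) :=
        mul_le_mul hle hinv (by positivity) (by positivity)
      have e : (4 : ℝ) ^ 2 * ((Nat.factorial 1 * 2 ^ 1 : ℝ) / (n : ℝ) ^ 1) = 32 / (n : ℝ) := by
        have : ((Nat.factorial 1 : ℕ) : ℝ) = 1 := by norm_num [Nat.factorial]
        rw [this]
        field_simp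
        norm_num
      rw [e] at this
      have h48 : 32 / (n : ℝ) ≤ 768 / (n : ℝ) := div_le_div_of_nonneg_right (by norm_num) hnr.le
      linarith
  refine h1.trans ((Finset.sum_le_sum h3).trans ?_)
  rw [Finset.sum_add_distrib, Finset.sum_const, Nat.card_Ico, nsmul_eq_mul, ← Finset.sum_filter,
    Finset.sum_const, nsmul_eq_mul]
  have hc : ((Finset.Ico 3 n).filter (fun k => k ∈ ({3, n - 3, n - 2, n - 1} : Finset ℕ))).card ≤ 4 := by
    refine le_trans (Finset.card_le_card (t := ({3, n - 3, n - 2, n - 1} : Finset ℕ)) ?_)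
      Finset.card_le_four
    intro x hx
    exact (Finset.mem_filter.mp hx).2
  have hc' : (((Finset.Ico 3 n).filter (fun k => k ∈ ({3, n - 3, n - 2, n - 1} : Finset ℕ))).card : ℝ)
      ≤ 4 := by exact_mod_cast hc
  have hn3 : ((n - 3 : ℕ) : ℝ) ≤ (n : ℝ) := by exact_mod_cast (by omega : n - 3 ≤ n)
  calc _ ≤ (n : ℝ) * (384 / (n : ℝ) ^ 2) + 4 * (768 / (n : ℝ)) :=
        add_le_add (mul_le_mul_of_nonneg_right hn3 (by positivity))
          (mul_le_mul_of_nonneg_right hc' (by positivity))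
    _ = _ := by
        field_simp
        norm_num

theorem frac_block : Tendsto (fun n => frac n (fun π => ∃ k, 3 ≤ k ∧ k < n ∧ HasBlock π k)) atTop
    (𝓝 0) := by
  have h : Tendsto (fun n : ℕ => 3456 / (n : ℝ)) atTop (𝓝 0) :=
    tendsto_const_div_atTop_nhds_zero_nat 3456
  apply tendsto_of_tendsto_of_tendsto_of_le_of_le' tendsto_const_nhds h
  · exact Eventually.of_forall fun n => frac_nonneg n _
  · filter_upwards [eventually_ge_atTop 10] with n hn
    exact frac_block_le n hn

/-! ### hulls -/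

theorem frac_hull_le (n : ℕ) (hn : 12 ≤ n) :
    frac n (fun π => HullBad π) ≤ 115200 / (n : ℝ) := by
  have hnr : (0 : ℝ) < (n : ℝ) := by exact_mod_cast (by omega : 0 < n)
  have hn10 : (12 : ℝ) ≤ (n : ℝ) := by exact_mod_cast hn
  have h1 : frac n (fun π => HullBad π) ≤
      ∑ k ∈ Finset.Ico 2 (n - 3), frac n (fun π => ∃ s ∈ Finset.range (n - k - 2),
        ∀ a ∈ iv n (n - k) n, π⁻¹ a ∈ iv n s (s + k + 3)) := by
    refine le_trans (frac_mono n _ (fun π => ∃ k ∈ Finset.Ico 2 (n - 3),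
      ∃ s ∈ Finset.range (n - k - 2),
        ∀ a ∈ iv n (n - k) n, π⁻¹ a ∈ iv n s (s + k + 3)) ?_)
      (frac_exists n _ _)
    rintro π ⟨k, s, h3, h4, h5⟩
    refine ⟨k, Finset.mem_Ico.mpr ⟨h3, by omega⟩, min s (n - k - 3), ?_, ?_⟩
    · rw [Finset.mem_range]
      omega
    · intro a ha
      rw [mem_iv] at ha ⊢
      have h6 := h5 (π⁻¹ a) (by
        have h8 : π (π⁻¹ a) = a := by simp
        rw [h8]
        omega)
      have h7 := (π⁻¹ a).isLt
      omega
  have h2 : ∀ k, 2 ≤ k → k + 4 ≤ n → frac n (fun π => ∃ s ∈ Finset.range (n - k - 2),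
        ∀ a ∈ iv n (n - k) n, π⁻¹ a ∈ iv n s (s + k + 3)) ≤
      ((n - k - 2 : ℕ) : ℝ) * (((k + 3).choose 3 : ℝ) * (1 / (n.choose k : ℝ))) := by
    intro k h3 h4
    refine (frac_exists n _ _).trans ?_
    have h6 : ∀ s ∈ Finset.range (n - k - 2),
        frac n (fun π => ∀ a ∈ iv n (n - k) n, π⁻¹ a ∈ iv n s (s + k + 3)) ≤
          ((k + 3).choose 3 : ℝ) * (1 / (n.choose k : ℝ)) := by
      intro s hs
      rw [Finset.mem_range] at hs
      have h7 := frac_maps_into (iv n (n - k) n) (iv n s (s + k + 3)) k (k + 3)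
        (by rw [card_iv]; omega) (by rw [card_iv]; omega)
        (fun π => ∀ a ∈ iv n (n - k) n, π⁻¹ a ∈ iv n s (s + k + 3)) (Or.inr fun π h => h)
      have h8 : (k + 3).choose k = (k + 3).choose 3 := by
        rw [← Nat.choose_symm_add]
      rw [h8] at h7
      rwa [mul_one_div]
    refine (Finset.sum_le_sum h6).trans ?_
    rw [Finset.sum_const, Finset.card_range, nsmul_eq_mul]
  have h3 : ∀ k ∈ Finset.Ico 2 (n - 3), frac n (fun π => ∃ s ∈ Finset.range (n - k - 2),
        ∀ a ∈ iv n (n - k) n, π⁻¹ a ∈ iv n s (s + k + 3)) ≤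
      46080 / (n : ℝ) ^ 2 +
        (if k ∈ ({2, 3, 4, 5} : Finset ℕ) ∪ {n - 5, n - 4} then 11520 / (n : ℝ) else 0) := by
    intro k hk
    rw [Finset.mem_Ico] at hk
    refine (h2 k hk.1 (by omega)).trans ?_
    have h2nn : (0 : ℝ) ≤ 46080 / (n : ℝ) ^ 2 := by positivity
    by_cases c1 : k ≤ 5
    · rw [if_pos (by
        simp only [Finset.mem_union, Finset.mem_insert, Finset.mem_singleton]
        omega)]
      have hinv := inv_choose_le 2 k n (by omega) (by omega) (by omega)
      have hle : ((n - k - 2 : ℕ) : ℝ) ≤ (n : ℝ) := by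
        exact_mod_cast (by omega : n - k - 2 ≤ n)
      have hch : ((k + 3).choose 3 : ℝ) ≤ 56 := by
        have : (k + 3).choose 3 ≤ (5 + 3).choose 3 := Nat.choose_le_choose 3 (by omega)
        have h56 : (5 + 3).choose 3 = 56 := by decide
        rw [h56] at this
        exact_mod_cast this
      have : ((n - k - 2 : ℕ) : ℝ) * (((k + 3).choose 3 : ℝ) * (1 / (n.choose k : ℝ))) ≤
          (n : ℝ) * (56 * ((Nat.factorial 2 * 2 ^ 2 : ℝ) / (n : ℝ) ^ 2)) :=
        mul_le_mul hle (mul_le_mul hch hinv (by positivity) (by positivity)) (by positivity)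
          (by positivity)
      have e : (n : ℝ) * (56 * ((Nat.factorial 2 * 2 ^ 2 : ℝ) / (n : ℝ) ^ 2)) = 448 / (n : ℝ) := by
        have : ((Nat.factorial 2 : ℕ) : ℝ) = 2 := by norm_num [Nat.factorial]
        rw [this]
        field_simp
        norm_num
      rw [e] at this
      have h48 : 448 / (n : ℝ) ≤ 11520 / (n : ℝ) := div_le_div_of_nonneg_right (by norm_num) hnr.le
      linarith
    have hchk : ((k + 3).choose 3 : ℝ) ≤ (n : ℝ) ^ 3 := by
      have h4 : (k + 3).choose 3 ≤ n.choose 3 := Nat.choose_le_choose 3 (by omega)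
      have h5 : n.choose 3 ≤ n ^ 3 := Nat.choose_le_pow n 3
      exact_mod_cast h4.trans h5
    by_cases c2 : k + 6 ≤ n
    · have hinv := inv_choose_le 6 k n (by omega) (by omega) (by omega)
      have hle : ((n - k - 2 : ℕ) : ℝ) ≤ (n : ℝ) := by
        exact_mod_cast (by omega : n - k - 2 ≤ n)
      have : ((n - k - 2 : ℕ) : ℝ) * (((k + 3).choose 3 : ℝ) * (1 / (n.choose k : ℝ))) ≤
          (n : ℝ) * ((n : ℝ) ^ 3 * ((Nat.factorial 6 * 2 ^ 6 : ℝ) / (n : ℝ) ^ 6)) :=
        mul_le_mul hle (mul_le_mul hchk hinv (by positivity) (by positivity)) (by positivity)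
          (by positivity)
      have e : (n : ℝ) * ((n : ℝ) ^ 3 * ((Nat.factorial 6 * 2 ^ 6 : ℝ) / (n : ℝ) ^ 6)) =
          46080 / (n : ℝ) ^ 2 := by
        have : ((Nat.factorial 6 : ℕ) : ℝ) = 720 := by norm_num [Nat.factorial]
        rw [this]
        field_simp
        norm_num
      rw [e] at this
      have : (0 : ℝ) ≤ (if k ∈ ({2, 3, 4, 5} : Finset ℕ) ∪ {n - 5, n - 4} then
          11520 / (n : ℝ) else 0) := by
        split_ifs
        · positivity
        · exact le_rfl
      linarith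
    · have hmem : k ∈ ({2, 3, 4, 5} : Finset ℕ) ∪ {n - 5, n - 4} := by
        simp only [Finset.mem_union, Finset.mem_insert, Finset.mem_singleton]
        omega
      rw [if_pos hmem]
      have hle : ((n - k - 2 : ℕ) : ℝ) ≤ 3 := by
        exact_mod_cast (by omega : n - k - 2 ≤ 3)
      have hsym : n.choose k = n.choose (n - k) := (Nat.choose_symm (by omega)).symm
      have hinv : 1 / (n.choose k : ℝ) ≤ (Nat.factorial 4 * 2 ^ 4 : ℝ) / (n : ℝ) ^ 4 := by
        rw [hsym]
        exact inv_choose_le 4 (n - k) n (by omega) (by omega) (by omega)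
      have : ((n - k - 2 : ℕ) : ℝ) * (((k + 3).choose 3 : ℝ) * (1 / (n.choose k : ℝ))) ≤
          3 * ((n : ℝ) ^ 3 * ((Nat.factorial 4 * 2 ^ 4 : ℝ) / (n : ℝ) ^ 4)) :=
        mul_le_mul hle (mul_le_mul hchk hinv (by positivity) (by positivity)) (by positivity)
          (by positivity)
      have e : (3 : ℝ) * ((n : ℝ) ^ 3 * ((Nat.factorial 4 * 2 ^ 4 : ℝ) / (n : ℝ) ^ 4)) =
          1152 / (n : ℝ) := by
        have : ((Nat.factorial 4 : ℕ) : ℝ) = 24 := by norm_num [Nat.factorial]
        rw [this]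
        field_simp
        norm_num
      rw [e] at this
      have h48 : 1152 / (n : ℝ) ≤ 11520 / (n : ℝ) := div_le_div_of_nonneg_right (by norm_num) hnr.le
      linarith
  refine h1.trans ((Finset.sum_le_sum h3).trans ?_)
  rw [Finset.sum_add_distrib, Finset.sum_const, Nat.card_Ico, nsmul_eq_mul, ← Finset.sum_filter,
    Finset.sum_const, nsmul_eq_mul]
  have hc : ((Finset.Ico 2 (n - 3)).filter
      (fun k => k ∈ ({2, 3, 4, 5} : Finset ℕ) ∪ {n - 5, n - 4})).card ≤ 6 := by
    refine le_trans (Finset.card_le_card (t := ({2, 3, 4, 5} : Finset ℕ) ∪ {n - 5, n - 4}) ?_) ?_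
    · intro x hx
      exact (Finset.mem_filter.mp hx).2
    · exact (Finset.card_union_le _ _).trans (add_le_add Finset.card_le_four Finset.card_le_two)
  have hc' : (((Finset.Ico 2 (n - 3)).filter
      (fun k => k ∈ ({2, 3, 4, 5} : Finset ℕ) ∪ {n - 5, n - 4})).card : ℝ) ≤ 6 := by
    exact_mod_cast hc
  have hn3 : ((n - 3 - 2 : ℕ) : ℝ) ≤ (n : ℝ) := by exact_mod_cast (by omega : n - 3 - 2 ≤ n)
  calc _ ≤ (n : ℝ) * (46080 / (n : ℝ) ^ 2) + 6 * (11520 / (n : ℝ)) :=
        add_le_add (mul_le_mul_of_nonneg_right hn3 (by positivity))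
          (mul_le_mul_of_nonneg_right hc' (by positivity))
    _ = _ := by
        field_simp
        norm_num

theorem frac_hull : Tendsto (fun n => frac n (fun π => HullBad π)) atTop (𝓝 0) := by
  have h : Tendsto (fun n : ℕ => 115200 / (n : ℝ)) atTop (𝓝 0) :=
    tendsto_const_div_atTop_nhds_zero_nat 115200
  apply tendsto_of_tendsto_of_tendsto_of_le_of_le' tendsto_const_nhds h
  · exact Eventually.of_forall fun n => frac_nonneg n _
  · filter_upwards [eventually_ge_atTop 12] with n hn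
    exact frac_hull_le n hn

end Pool.Agent.TH645.US
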