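import Pool.Agent.TH691.US.Defs
import Pool.Agent.W6.PS.Agree

/-!
Job 1584 (US-4): local conditions at the smallest and largest values are rare.
-/

set_option autoImplicit false

namespace Pool.Agent.TH645.US
open Equiv Filter Topology
open Pool.Agent.TH691.US Pool.Agent.W6.PS

theorem frac_nonneg (n : ℕ) (P : Perm (Fin n) → Prop) : 0 ≤ frac n P := by
  unfold frac
  positivity

theorem frac_mono (n : ℕ) (P Q : Perm (Fin n) → Prop) (h : ∀ π, P π → Q π) :
    frac n P ≤ frac n Q := by
  classical
  unfold frac
  apply div_le_div_of_nonneg_right _ (by positivity)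
  exact_mod_cast Finset.card_le_card (Finset.monotone_filter_right _ fun π _ => h π)

theorem frac_or (n : ℕ) (P Q : Perm (Fin n) → Prop) :
    frac n (fun π => P π ∨ Q π) ≤ frac n P + frac n Q := by
  classical
  unfold frac
  rw [← add_div]
  apply div_le_div_of_nonneg_right _ (by positivity)
  have h : (@Finset.filter _ (fun π => P π ∨ Q π) (fun _ => Classical.propDecidable _)
      Finset.univ) ⊆ (Finset.univ.filter P) ∪ (Finset.univ.filter Q) := by
    intro π
    simp
  exact_mod_cast (Finset.card_le_card h).trans (Finset.card_union_le _ _)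

/-- a general bound for events which prescribe `r` values in one of few ways -/
theorem frac_le_of_agree {ι : Type*} [Fintype ι] (n r : ℕ) (hn : 2 * r ≤ n) (hn0 : 0 < n)
    (PP VV : ι → Fin r → Fin n)
    (P : Perm (Fin n) → Prop)
    (h : ∀ π, P π → ∃ c : ι, Function.Injective (PP c) ∧ ∀ k, π (PP c k) = VV c k) :
    frac n P ≤ (Fintype.card ι : ℝ) * 2 ^ r / (n : ℝ) ^ r := by
  classical
  have hcard : (Finset.univ.filter P).card ≤ Fintype.card ι * (n - r).factorial := by
    have hsub : Finset.univ.filter P ⊆
        (Finset.univ.filter fun c : ι => Function.Injective (PP c)).biUnion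
          fun c => agree (PP c) (VV c) := by
      intro π hπ
      rw [Finset.mem_filter] at hπ
      obtain ⟨c, hc1, hc2⟩ := h π hπ.2
      rw [Finset.mem_biUnion]
      exact ⟨c, Finset.mem_filter.mpr ⟨Finset.mem_univ c, hc1⟩, mem_agree.mpr hc2⟩
    refine (Finset.card_le_card hsub).trans ?_
    refine (Finset.card_biUnion_le_card_mul _ _ (n - r).factorial ?_).trans ?_
    · intro c hc
      have := card_agree_le (Finset.mem_filter.mp hc).2 (VV c)
      rwa [Fintype.card_fin] at this
    · apply Nat.mul_le_mul_right
      exact Finset.card_le_univ _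
  have hdesc : n.descFactorial r * (n - r).factorial = n.factorial := by
    rw [mul_comm]
    exact Nat.factorial_mul_descFactorial (by omega)
  have hpow : (n : ℝ) ^ r ≤ 2 ^ r * (n.descFactorial r : ℝ) := by
    have h1 : (n + 1 - r) ^ r ≤ n.descFactorial r := Nat.pow_sub_le_descFactorial n r
    have h2 : n ≤ 2 * (n + 1 - r) := by omega
    have h3 : n ^ r ≤ 2 ^ r * n.descFactorial r := by
      calc n ^ r ≤ (2 * (n + 1 - r)) ^ r := Nat.pow_le_pow_left h2 r
        _ = 2 ^ r * (n + 1 - r) ^ r := Nat.mul_pow _ _ _
        _ ≤ _ := Nat.mul_le_mul_left _ h1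
    exact_mod_cast h3
  unfold frac
  have hf : (0 : ℝ) < (n.factorial : ℝ) := by exact_mod_cast n.factorial_pos
  have hnr : (0 : ℝ) < (n : ℝ) ^ r := by
    have : (0 : ℝ) < n := by exact_mod_cast hn0
    positivity
  rw [div_le_div_iff₀ hf hnr]
  calc ((Finset.univ.filter P).card : ℝ) * (n : ℝ) ^ r
      ≤ ((Fintype.card ι * (n - r).factorial : ℕ) : ℝ) * (2 ^ r * (n.descFactorial r : ℝ)) := by
        apply mul_le_mul (by exact_mod_cast hcard) hpow hnr.le (by positivity)
    _ = (Fintype.card ι : ℝ) * 2 ^ r * ((n.descFactorial r * (n - r).factorial : ℕ) : ℝ) := by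
        push_cast; ring
    _ = _ := by rw [hdesc]

/-- the bound -/
theorem frac_low_le (n : ℕ) (hn : 6 ≤ n) : frac n (fun π => LowBad π) ≤ 348 / (n : ℝ) := by
  have hn0 : 0 < n := by omega
  have : NeZero n := ⟨hn0.ne'⟩
  have hnr : (0 : ℝ) < n := by exact_mod_cast hn0
  have e1 : frac n (fun π => ∃ i : Fin n, (i.val = 0 ∨ i.val + 1 = n) ∧ (π i).val < 3) ≤
      12 / (n : ℝ) := by
    refine (frac_le_of_agree (ι := Fin 2 × Fin 3) n 1 (by omega) hn0
      (fun c _ => Fin.ofNat n (if c.1 = 0 then 0 else n - 1)) (fun c _ => Fin.ofNat n c.2.val)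
      _ ?_).trans ?_
    · rintro π ⟨i, hi, hv⟩
      refine ⟨(if i.val = 0 then 0 else 1, ⟨(π i).val, hv⟩), ?_, ?_⟩
      · intro a b _
        exact Subsingleton.elim a b
      · intro k
        have h1 : Fin.ofNat n (if (if i.val = 0 then (0 : Fin 2) else 1) = 0 then 0 else n - 1) = i := by
          apply Fin.ext
          rw [Fin.val_ofNat]
          by_cases h0 : i.val = 0
          · simp [h0]
          · rw [if_neg h0]
            rw [if_neg (by decide)]
            rw [Nat.mod_eq_of_lt (by omega)]
            omega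
        simp only
        rw [h1]
        apply Fin.ext
        rw [Fin.val_ofNat, Nat.mod_eq_of_lt (π i).isLt]
    · simp only [Fintype.card_prod, Fintype.card_fin, pow_one]
      apply le_of_eq
      norm_num
  have e2 : frac n (fun π => ∃ i j : Fin n, i.val < j.val ∧ j.val < i.val + 10 ∧ (π i).val < 3 ∧
      (π j).val < 3) ≤ 324 / (n : ℝ) := by
    refine (frac_le_of_agree (ι := Fin n × Fin 9 × Fin 3 × Fin 3) n 2 (by omega) hn0
      (fun c => ![c.1, Fin.ofNat n (c.1.val + c.2.1.val + 1)])
      (fun c => ![Fin.ofNat n c.2.2.1.val, Fin.ofNat n c.2.2.2.val])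
      _ ?_).trans ?_
    · rintro π ⟨i, j, hij, hji, hi, hj⟩
      have hj2 : Fin.ofNat n (i.val + (j.val - i.val - 1) + 1) = j := by
        apply Fin.ext
        rw [Fin.val_ofNat]
        have : i.val + (j.val - i.val - 1) + 1 = j.val := by omega
        rw [this, Nat.mod_eq_of_lt j.isLt]
      refine ⟨(i, ⟨j.val - i.val - 1, by omega⟩, ⟨(π i).val, hi⟩, ⟨(π j).val, hj⟩), ?_, ?_⟩
      · intro a b hab
        simp only [hj2] at hab
        have hne : i ≠ j := by
          rintro rfl
          omega
        fin_cases a <;> fin_cases b <;> simp_all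
      · intro k
        simp only [hj2]
        fin_cases k
        · simp
        · simp
    · simp only [Fintype.card_prod, Fintype.card_fin]
      apply le_of_eq
      push_cast
      field_simp
      norm_num
  have e3 : frac n (fun π => ∃ i j k : Fin n, j.val = i.val + 1 ∧ k.val = j.val + 1 ∧
      (π i).val + 1 = n ∧ (π k).val = (π j).val + 1) ≤ 8 / (n : ℝ) := by
    refine (frac_le_of_agree (ι := Fin n × Fin n) n 3 (by omega) hn0
      (fun c => ![c.1, Fin.ofNat n (c.1.val + 1), Fin.ofNat n (c.1.val + 2)])
      (fun c => ![Fin.ofNat n (n - 1), c.2, Fin.ofNat n (c.2.val + 1)])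
      _ ?_).trans ?_
    · rintro π ⟨i, j, k, hij, hjk, hi, hj⟩
      have hj2 : Fin.ofNat n (i.val + 1) = j := by
        apply Fin.ext
        rw [Fin.val_ofNat, ← hij, Nat.mod_eq_of_lt j.isLt]
      have hk2 : Fin.ofNat n (i.val + 2) = k := by
        apply Fin.ext
        rw [Fin.val_ofNat]
        have : i.val + 2 = k.val := by omega
        rw [this, Nat.mod_eq_of_lt k.isLt]
      refine ⟨(i, π j), ?_, ?_⟩
      · intro a b hab
        simp only [hj2, hk2] at hab
        have hne : i ≠ j := by
          rintro rfl
          omega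
        have hne2 : i ≠ k := by
          rintro rfl
          omega
        have hne3 : j ≠ k := by
          rintro rfl
          omega
        fin_cases a <;> fin_cases b <;>
          simp [hne, hne2, hne3, hne.symm, hne2.symm, hne3.symm] at hab ⊢
      · intro l
        simp only [hj2, hk2]
        fin_cases l
        · apply Fin.ext
          have : n - 1 = (π i).val := by omega
          simp only [Fin.zero_eta, Matrix.cons_val_zero, Fin.val_ofNat]
          rw [this, Nat.mod_eq_of_lt (π i).isLt]
        · simp
        · apply Fin.ext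
          simp only [Fin.reduceFinMk, Matrix.cons_val, Fin.val_ofNat]
          rw [← hj, Nat.mod_eq_of_lt (π k).isLt]
    · simp only [Fintype.card_prod, Fintype.card_fin]
      apply le_of_eq
      push_cast
      field_simp
      norm_num
  have e4 : frac n (fun π => ∃ i j : Fin n, i.val = 0 ∧ j.val = 1 ∧ (π j).val = (π i).val + 1) ≤
      4 / (n : ℝ) := by
    refine (frac_le_of_agree (ι := Fin n) n 2 (by omega) hn0
      (fun _ => ![Fin.ofNat n 0, Fin.ofNat n 1])
      (fun c => ![c, Fin.ofNat n (c.val + 1)])
      _ ?_).trans ?_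
    · rintro π ⟨i, j, hi, hj, hij⟩
      have hi2 : Fin.ofNat n 0 = i := by
        apply Fin.ext
        rw [Fin.val_ofNat, hi]
        simp
      have hj2 : Fin.ofNat n 1 = j := by
        apply Fin.ext
        rw [Fin.val_ofNat, hj, Nat.mod_eq_of_lt (by omega)]
      refine ⟨π i, ?_, ?_⟩
      · intro a b hab
        simp only [hi2, hj2] at hab
        have hne : i ≠ j := by
          rintro rfl
          omega
        fin_cases a <;> fin_cases b <;> simp_all
      · intro k
        simp only [hi2, hj2]
        fin_cases k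
        · simp
        · apply Fin.ext
          simp only [Fin.mk_one, Matrix.cons_val_one, Matrix.cons_val_fin_one, Fin.val_ofNat]
          rw [← hij, Nat.mod_eq_of_lt (π j).isLt]
    · simp only [Fintype.card_fin]
      apply le_of_eq
      field_simp
      norm_num
  unfold LowBad
  refine (frac_or n _ _).trans ?_
  refine (add_le_add e1 ((frac_or n _ _).trans (add_le_add e2
    ((frac_or n _ _).trans (add_le_add e3 e4))))).trans ?_
  apply le_of_eq
  ring

theorem frac_low : Tendsto (fun n => frac n (fun π => LowBad π)) atTop (𝓝 0) := by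
  have h : Tendsto (fun n : ℕ => 348 / (n : ℝ)) atTop (𝓝 0) :=
    tendsto_const_div_atTop_nhds_zero_nat 348
  apply tendsto_of_tendsto_of_tendsto_of_le_of_le' tendsto_const_nhds h
  · exact Eventually.of_forall fun n => frac_nonneg n _
  · filter_upwards [eventually_ge_atTop 6] with n hn
    exact frac_low_le n hn

end Pool.Agent.TH645.US
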