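import Pool.Agent.TH229.Coin.Defs

set_option autoImplicit false

/-!
# COIN-CIRCLE: the coin map of a circle is integrable
-/

namespace Pool.Agent.TH645.CoinCircle

open Pool.Agent.H738R2.Cyl Complex Pool.Agent.TH229.Coin

/-- the interval `(0, π)` is homeomorphic to the line -/
noncomputable def shiftH : Set.Ioo (0 : ℝ) Real.pi ≃ₜ Set.Ioo (-(Real.pi / 2)) (Real.pi / 2) where
  toFun x := ⟨(x : ℝ) - Real.pi / 2, by
    obtain ⟨h1, h2⟩ := x.2
    constructor <;> linarith⟩
  invFun y := ⟨(y : ℝ) + Real.pi / 2, by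
    obtain ⟨h1, h2⟩ := y.2
    constructor <;> linarith⟩
  left_inv x := by
    apply Subtype.ext
    simp
  right_inv y := by
    apply Subtype.ext
    simp
  continuous_toFun := by
    refine Continuous.subtype_mk ?_ _
    fun_prop
  continuous_invFun := by
    refine Continuous.subtype_mk ?_ _
    fun_prop

noncomputable def lineH : Set.Ioo (0 : ℝ) Real.pi ≃ₜ ℝ :=
  shiftH.trans Real.tanOrderIso.toHomeomorph

theorem norm_one_mul_conj {u : ℂ} (hu : ‖u‖ = 1) : u * (starRingEnd ℂ) u = 1 := by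
  rw [Complex.mul_conj, Complex.normSq_eq_norm_sq, hu]
  norm_num

/-- the position vector of a circle -/
theorem circle_pos {γ : ℝ → ℂ} {L : ℝ} (hγ : StrictlyConvexCurve γ L) {c : ℂ} {R : ℝ}
    (hc : ∀ s, ‖γ s - c‖ = R) : 0 < R ∧ ∀ s, γ s - c = -(R : ℂ) * I * deriv γ s := by
  have hdiff : Differentiable ℝ γ := hγ.smooth.differentiable (by simp)
  have hnc : ∀ s, ∃ t, γ t ≠ γ s := by
    intro s
    by_contra hall
    push Not at hall
    have h1 : γ = fun _ => γ s := funext hall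
    have h2 := hγ.unit_speed s
    have h3 : deriv γ s = 0 := by
      rw [h1]
      simp
    rw [h3, norm_zero] at h2
    exact zero_ne_one h2
  have hR0 : 0 ≤ R := by
    rw [← hc 0]
    exact norm_nonneg _
  have hRpos : 0 < R := by
    rcases hR0.eq_or_lt with h | h
    · exfalso
      obtain ⟨t, ht⟩ := hnc 0
      apply ht
      have h1 := hc t
      have h2 := hc 0
      rw [← h, norm_eq_zero, sub_eq_zero] at h1 h2
      rw [h1, h2]
    · exact h
  refine ⟨hRpos, fun s => ?_⟩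
  set u := deriv γ s with hu
  have hu1 : ‖u‖ = 1 := hγ.unit_speed s
  have hd : HasDerivAt (fun t => γ t - c) u s := (hdiff s).hasDerivAt.sub_const c
  have hn := hd.norm_sq
  have hconst : (fun t => ‖γ t - c‖ ^ 2) = fun _ => R ^ 2 := by
    funext t
    rw [hc t]
  rw [hconst] at hn
  have h0 : 2 * inner ℝ (γ s - c) u = 0 := hn.unique (hasDerivAt_const s (R ^ 2))
  have h1 : ((starRingEnd ℂ) u * (γ s - c)).re = 0 := by
    have h2 : inner ℝ (γ s - c) u = 0 := by linarith
    rw [Complex.inner] at h2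
    rw [← h2]
    simp [Complex.mul_re]
    ring
  set v : ℂ := (starRingEnd ℂ) u * (γ s - c) with hv
  have hvI : v = (v.im : ℂ) * I := by
    apply Complex.ext
    · simp [h1]
    · simp
  have hpos : γ s - c = (v.im : ℂ) * I * u := by
    rw [← hvI, hv]
    calc γ s - c = (u * (starRingEnd ℂ) u) * (γ s - c) := by rw [norm_one_mul_conj hu1, one_mul]
      _ = _ := by ring
  have habs : |v.im| = R := by
    rw [← hc s, hpos]
    simp [hu1]
  have hneg : v.im = -R := by
    rcases abs_eq hR0 |>.1 habs with h | h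
    · exfalso
      obtain ⟨t, ht⟩ := hnc s
      have h2 := hγ.strictly_convex s t ht
      have h3 : (starRingEnd ℂ) u * (γ t - γ s) = (starRingEnd ℂ) u * (γ t - c) - v := by
        rw [hv]
        ring
      rw [← hu, h3, Complex.sub_im, h] at h2
      have h4 : ((starRingEnd ℂ) u * (γ t - c)).im ≤ R := by
        refine (Complex.im_le_norm _).trans ?_
        rw [norm_mul, Complex.norm_conj, hu1, one_mul, hc t]
      linarith
    · exact h
  rw [hpos, hneg]
  push_cast
  ring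

theorem angle_eq {γ : ℝ → ℂ} {L : ℝ} (hγ : StrictlyConvexCurve γ L) (hc : IsCircle γ)
    {s α s₁ α₁ : ℝ} (hα : α ∈ Set.Ioo (0 : ℝ) Real.pi) (hα₁ : α₁ ∈ Set.Ioo (0 : ℝ) Real.pi)
    (h : Chord γ s α s₁ α₁) : α₁ = α := by
  obtain ⟨c, R, hc⟩ := hc
  obtain ⟨hR, hpos⟩ := circle_pos hγ hc
  obtain ⟨l, hl, h1, h2⟩ := h
  set u := deriv γ s with hu
  set u₁ := deriv γ s₁ with hu₁
  set w := exp (α * I) * u with hw
  have hu0 : u ≠ 0 := by
    intro h0
    have := hγ.unit_speed s
    rw [← hu, h0, norm_zero] at this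
    exact zero_ne_one this
  have hw0 : w ≠ 0 := mul_ne_zero (exp_ne_zero _) hu0
  have e1 : u = exp (-(α * I)) * w := by
    rw [hw, ← mul_assoc, ← Complex.exp_add, neg_add_cancel, Complex.exp_zero, one_mul]
  have e2 : u₁ = exp (α₁ * I) * w := by
    rw [h2, ← mul_assoc, ← Complex.exp_add, add_neg_cancel, Complex.exp_zero, one_mul]
  have e3 : (l : ℂ) * w = (-(R : ℂ) * I * (exp (α₁ * I) - exp (-(α * I)))) * w := by
    have e4 : (l : ℂ) * w = (γ s₁ - c) - (γ s - c) := by
      rw [h1]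
      ring
    rw [e4, hpos s, hpos s₁, ← hu, ← hu₁]
    rw [e2]
    conv_lhs => rw [e1]
    ring
  have e5 := mul_right_cancel₀ hw0 e3
  have e6 : exp (-(α * I)) = (Real.cos α : ℂ) - (Real.sin α : ℂ) * I := by
    rw [show -((α : ℂ) * I) = ((-α : ℝ) : ℂ) * I by push_cast; ring, Complex.exp_mul_I, ← Complex.ofReal_cos,
      ← Complex.ofReal_sin, Real.cos_neg, Real.sin_neg]
    push_cast
    ring
  have e7 : exp (α₁ * I) = (Real.cos α₁ : ℂ) + (Real.sin α₁ : ℂ) * I := by
    rw [Complex.exp_mul_I, ← Complex.ofReal_cos, ← Complex.ofReal_sin]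
  rw [e6, e7] at e5
  have e8 := congrArg Complex.im e5
  simp only [Complex.ofReal_im, Complex.mul_im, Complex.mul_re, Complex.neg_re, Complex.neg_im, Complex.ofReal_re,
    Complex.I_re, Complex.I_im, Complex.sub_re, Complex.sub_im, Complex.add_re, Complex.add_im] at e8
  have e9 : Real.cos α₁ = Real.cos α := by
    have h3 : R * (Real.cos α₁ - Real.cos α) = 0 := by linarith
    rcases mul_eq_zero.1 h3 with h4 | h4
    · exact absurd h4 hR.ne'
    · linarith
  exact Real.injOn_cos ⟨hα₁.1.le, hα₁.2.le⟩ ⟨hα.1.le, hα.2.le⟩ e9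

theorem of_circle {γ : ℝ → ℂ} {L d : ℝ} {T₁ : PhaseCylinder L → PhaseCylinder L}
    (hγ : StrictlyConvexCurve γ L) (hT : IsBilliardMap γ L T₁) (hc : IsCircle γ) :
    FoliatedByInvariantCurves (cylinderMap L d ∘ T₁) := by
  refine ⟨(Homeomorph.refl (AddCircle L)).prodCongr lineH, fun z => ?_⟩
  obtain ⟨s, s₁, -, -, h⟩ := hT z
  have h1 : ((T₁ z).2 : ℝ) = z.2 := angle_eq hγ hc z.2.2 (T₁ z).2.2 h
  have h2 : (T₁ z).2 = z.2 := Subtype.ext h1
  change lineH (T₁ z).2 = lineH z.2
  rw [h2]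

end Pool.Agent.TH645.CoinCircle
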