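import Pool.Agent.TH645.PG.Avg

/-!
The averaged two-orbit inequality with cut-off functions and its limit.
-/

set_option autoImplicit false

namespace Pool.Agent.TH645.PG

open Real Filter Topology MeasureTheory Set
open Pool.Agent.TH229.PG
open scoped ENNReal

variable {T C c : ℝ} {Y a P : ℝ → ℝ → ℝ}

/-- cut-off -/
noncomputable def cut (R y : ℝ) : ℝ := max 0 (min 1 (2 - |y| / R))

theorem cut_nonneg (R y : ℝ) : 0 ≤ cut R y := le_max_left _ _

theorem cut_le_one (R y : ℝ) : cut R y ≤ 1 := max_le (by norm_num) (min_le_left _ _)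

theorem cut_neg (R y : ℝ) : cut R (-y) = cut R y := by
  unfold cut; rw [abs_neg]

theorem continuous_cut (R : ℝ) : Continuous (cut R) := by
  unfold cut; fun_prop

theorem cut_ne {R y : ℝ} (hR : 0 < R) (h : cut R y ≠ 0) : |y| < 2 * R := by
  by_contra hcon
  push Not at hcon
  apply h
  unfold cut
  have : 2 ≤ |y| / R := by rw [le_div_iff₀ hR]; exact hcon
  exact max_eq_left ((min_le_right _ _).trans (by linarith))

theorem cut_lip {R : ℝ} (hR : 0 < R) (y z : ℝ) : |cut R y - cut R z| ≤ |z + y| / R := by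
  unfold cut
  calc |max 0 (min 1 (2 - |y| / R)) - max 0 (min 1 (2 - |z| / R))|
      ≤ |min 1 (2 - |y| / R) - min 1 (2 - |z| / R)| := by
          have := abs_max_sub_max_le_abs (min 1 (2 - |y| / R)) (min 1 (2 - |z| / R)) 0
          rwa [max_comm, max_comm _ (0 : ℝ)] at this
    _ ≤ |(2 - |y| / R) - (2 - |z| / R)| := by
        have := abs_min_sub_min_le_max 1 (2 - |y| / R) 1 (2 - |z| / R)
        simpa using this
    _ = |(|y| - |z|)| / R := by
        have : (2 - |y| / R) - (2 - |z| / R) = -((|y| - |z|) / R) := by ring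
        rw [this, abs_neg, abs_div, abs_of_pos hR]
    _ ≤ |z + y| / R := by
        have h := abs_abs_sub_abs_le y (-z)
        rw [abs_neg, sub_neg_eq_add, add_comm y z] at h
        gcongr

theorem cut_tendsto (y : ℝ) : Tendsto (fun n : ℕ => cut ((n : ℝ) + 1) y) atTop (𝓝 1) := by
  refine tendsto_const_nhds.congr' ?_
  filter_upwards [eventually_ge_atTop ⌈|y|⌉₊] with n hn
  have h1 : |y| ≤ (n : ℝ) + 1 := by
    have := Nat.le_of_ceil_le hn
    linarith
  have h2 : |y| / ((n : ℝ) + 1) ≤ 1 := by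
    rw [div_le_one (by positivity)]; exact h1
  unfold cut
  rw [min_eq_left (by linarith), max_eq_right (by norm_num)]

theorem mm_pos {d : ℝ} (hd : d ∈ Ioo 0 T) : 0 < mm T d := by
  unfold mm
  exact lt_min hd.1 (by linarith [hd.2])

theorem mm_le {d : ℝ} (hd : d ∈ Ioo 0 T) : mm T d ≤ T := by
  unfold mm
  exact (min_le_left _ _).trans hd.2.le

/-- bounds on the support of the cut-offs -/
theorem supp_bound (B : HopfBounds T C c Y a P) {R : ℝ} (hR : 0 < R) :
    ∃ K, 0 ≤ K ∧ ∀ x d, d ∈ Ioo 0 T → (cut R (Y x (x + d)) ≠ 0 ∨ cut R (Y (x + d) x) ≠ 0) →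
      a x (x + d) ≤ K ∧ a (x + d) x ≤ K ∧ |P x (x + d)| ≤ K ∧ |P (x + d) x| ≤ K := by
  have hc := B.cpos
  have hC := B.Cpos
  refine ⟨C * ((2 * R + C * T ^ 2 + C) / c) ^ 2, by positivity, fun x d hd hne => ?_⟩
  have hm := mm_pos hd
  have hm2 := mm_le hd
  have hT : mm T d ^ 2 ≤ T ^ 2 := by gcongr
  have hY : |Y x (x + d)| ≤ 2 * R + C * T ^ 2 := by
    rcases hne with h | h
    · have := (cut_ne hR h).le
      have : 0 ≤ C * T ^ 2 := by positivity
      linarith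
    · have h1 := (cut_ne hR h).le
      have h2 := B.bg x d hd.1 hd.2
      have h3 : |Y x (x + d)| ≤ |Y (x + d) x + Y x (x + d)| + |Y (x + d) x| := by
        have := abs_sub (Y (x + d) x + Y x (x + d)) (Y (x + d) x)
        simpa using this
      have h4 : C * mm T d ^ 2 ≤ C * T ^ 2 := by gcongr
      linarith
  have h1 := B.bY x d hd.1 hd.2
  have h2 : 1 / mm T d ≤ (2 * R + C * T ^ 2 + C) / c := by
    rw [le_div_iff₀ hc]
    have : 1 / mm T d * c = c / mm T d := by ring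
    rw [this]
    linarith
  have h3 : C / mm T d ^ 2 ≤ C * ((2 * R + C * T ^ 2 + C) / c) ^ 2 := by
    calc C / mm T d ^ 2 = C * (1 / mm T d) ^ 2 := by ring
      _ ≤ _ := by gcongr
  exact ⟨(B.ba x d hd.1 hd.2).trans h3, (B.bb x d hd.1 hd.2).trans h3,
    (B.bP x d hd.1 hd.2).trans h3, (B.bR x d hd.1 hd.2).trans h3⟩

theorem Y_F (H : HopfData T Y a P) (p : ℝ × ℝ) :
    Y (F T Y p).1 (F T Y p).2 = -Y p.2 p.1 := (X_spec H p.2 (-Y p.2 p.1)).2

theorem ms : Measurable (fun p : ℝ × ℝ => ((p.2, p.1) : ℝ × ℝ)) :=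
  measurable_snd.prodMk measurable_fst

section
variable (H : HopfData T Y a P) (B : HopfBounds T C c Y a P)
include H B

/-- the averaged inequality for the cut-off functions -/
theorem avg_cut {R : ℝ} (hR : 0 < R) :
    (Integrable (fun q : ℝ × ℝ => a q.1 (q.1 + q.2) * (P q.1 (q.1 + q.2) *
        cut R (Y q.1 (q.1 + q.2)) ^ 2)) (om T)) ∧
    (Integrable (fun q : ℝ × ℝ => a q.1 (q.1 + q.2) * (a (q.1 + q.2) q.1 / a q.1 (q.1 + q.2) *
        (P (q.1 + q.2) q.1 * cut R (Y (q.1 + q.2) q.1) ^ 2))) (om T)) ∧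
    (Integrable (fun q : ℝ × ℝ => a q.1 (q.1 + q.2) * (a (q.1 + q.2) q.1 *
        (cut R (Y q.1 (q.1 + q.2)) * cut R (Y (q.1 + q.2) q.1)))) (om T)) ∧
    2 * ∫ q, a q.1 (q.1 + q.2) * (a (q.1 + q.2) q.1 *
        (cut R (Y q.1 (q.1 + q.2)) * cut R (Y (q.1 + q.2) q.1))) ∂(om T) ≤
      ∫ q, a q.1 (q.1 + q.2) * (P q.1 (q.1 + q.2) * cut R (Y q.1 (q.1 + q.2)) ^ 2) ∂(om T) +
      ∫ q, a q.1 (q.1 + q.2) * (a (q.1 + q.2) q.1 / a q.1 (q.1 + q.2) *
        (P (q.1 + q.2) q.1 * cut R (Y (q.1 + q.2) q.1) ^ 2)) ∂(om T) := by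
  obtain ⟨K, hK, hb⟩ := supp_bound B hR
  set Φ : ℝ × ℝ → ℝ := fun p => cut R (Y p.1 p.2) with hΦ
  have hΦF : ∀ p, Φ (F T Y p) = cut R (Y p.2 p.1) := by
    intro p
    simp only [hΦ]
    rw [Y_F H, cut_neg]
  have mc : Measurable (cut R) := (continuous_cut R).measurable
  have m1 : Measurable (fun p : ℝ × ℝ => cut R (Y p.1 p.2)) := mc.comp H.measY
  have m2 : Measurable (fun p : ℝ × ℝ => cut R (Y p.2 p.1)) := m1.comp ms
  have ma : Measurable (fun p : ℝ × ℝ => a p.1 p.2) := H.measa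
  have ma' : Measurable (fun p : ℝ × ℝ => a p.2 p.1) := ma.comp ms
  have mP : Measurable (fun p : ℝ × ℝ => P p.1 p.2) := H.measP
  have mP' : Measurable (fun p : ℝ × ℝ => P p.2 p.1) := mP.comp ms
  have c1 : ∀ y, |cut R y| ≤ 1 := fun y => by
    rw [abs_of_nonneg (cut_nonneg R y)]; exact cut_le_one R y
  have c2 : ∀ y, |cut R y ^ 2| ≤ 1 := fun y => by
    rw [abs_pow]
    exact pow_le_one₀ (abs_nonneg _) (c1 y)
  have g1 : Gd T a (fun p => P p.1 p.2 * Φ p ^ 2) := by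
    refine ⟨mP.mul (m1.pow_const 2), ?_, ?_⟩
    · intro x x'
      simp only [hΦ]
      rw [H.perP1, H.perP2, H.perY1, H.perY2]
    · refine Integrable.of_bound (C := K * (K * 1)) ?_ ?_
      · exact ((ma.comp ms1).mul ((mP.comp ms1).mul ((m1.comp ms1).pow_const 2))).aestronglyMeasurable
      · filter_upwards [om_ae] with q hq
        simp only [hΦ]
        by_cases hne : cut R (Y q.1 (q.1 + q.2)) = 0
        · rw [hne]
          simp only [ne_eq, OfNat.ofNat_ne_zero, not_false_eq_true, zero_pow, mul_zero, norm_zero]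
          positivity
        · obtain ⟨b1, b2, b3, b4⟩ := hb q.1 q.2 hq (Or.inl hne)
          rw [norm_mul, norm_mul, Real.norm_eq_abs, Real.norm_eq_abs, Real.norm_eq_abs,
            abs_of_pos (apos1 H (x := q.1) hq)]
          have := c2 (Y q.1 (q.1 + q.2))
          have := (apos1 H (x := q.1) hq).le
          gcongr
  have g2 : Gd T a (fun p => a p.2 p.1 / a p.1 p.2 * (P p.2 p.1 * Φ (F T Y p) ^ 2)) := by
    simp only [hΦF]
    refine ⟨(ma'.div ma).mul (mP'.mul (m2.pow_const 2)), ?_, ?_⟩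
    · intro x x'
      simp only
      rw [H.pera1, H.pera2, H.pera1, H.pera2, H.perP1, H.perP2, H.perY1, H.perY2]
    · refine Integrable.of_bound (C := K * (K * 1)) ?_ ?_
      · exact ((ma.comp ms1).mul (((ma'.comp ms1).div (ma.comp ms1)).mul
          ((mP'.comp ms1).mul ((m2.comp ms1).pow_const 2)))).aestronglyMeasurable
      · filter_upwards [om_ae] with q hq
        have ap := apos1 H (x := q.1) hq
        have ap2 := apos2 H (x := q.1) hq
        have e : a q.1 (q.1 + q.2) * (a (q.1 + q.2) q.1 / a q.1 (q.1 + q.2) *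
          (P (q.1 + q.2) q.1 * cut R (Y (q.1 + q.2) q.1) ^ 2)) =
          a (q.1 + q.2) q.1 * (P (q.1 + q.2) q.1 * cut R (Y (q.1 + q.2) q.1) ^ 2) := by
          field_simp
        rw [e]
        by_cases hne : cut R (Y (q.1 + q.2) q.1) = 0
        · rw [hne]
          simp only [ne_eq, OfNat.ofNat_ne_zero, not_false_eq_true, zero_pow, mul_zero, norm_zero]
          positivity
        · obtain ⟨b1, b2, b3, b4⟩ := hb q.1 q.2 hq (Or.inr hne)
          rw [norm_mul, norm_mul, Real.norm_eq_abs, Real.norm_eq_abs, Real.norm_eq_abs,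
            abs_of_pos ap2]
          have := c2 (Y (q.1 + q.2) q.1)
          have := ap2.le
          gcongr
  have g3 : Gd T a (fun p => a p.2 p.1 * (Φ p * Φ (F T Y p))) := by
    simp only [hΦF]
    refine ⟨ma'.mul (m1.mul m2), ?_, ?_⟩
    · intro x x'
      simp only [hΦ]
      rw [H.pera1, H.pera2, H.perY1, H.perY2, H.perY1, H.perY2]
    · refine Integrable.of_bound (C := K * (K * (1 * 1))) ?_ ?_
      · exact ((ma.comp ms1).mul ((ma'.comp ms1).mul
          ((m1.comp ms1).mul (m2.comp ms1)))).aestronglyMeasurable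
      · filter_upwards [om_ae] with q hq
        simp only [hΦ]
        by_cases hne : cut R (Y q.1 (q.1 + q.2)) = 0
        · rw [hne]
          simp only [zero_mul, mul_zero, norm_zero]
          positivity
        · obtain ⟨b1, b2, b3, b4⟩ := hb q.1 q.2 hq (Or.inl hne)
          rw [norm_mul, norm_mul, norm_mul, Real.norm_eq_abs, Real.norm_eq_abs, Real.norm_eq_abs,
            Real.norm_eq_abs, abs_of_pos (apos1 H (x := q.1) hq),
            abs_of_pos (apos2 H (x := q.1) hq)]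
          have := c1 (Y q.1 (q.1 + q.2))
          have := c1 (Y (q.1 + q.2) q.1)
          have := (apos1 H (x := q.1) hq).le
          have := (apos2 H (x := q.1) hq).le
          gcongr
  have key := avg_ineq H Φ (fun p => cut_nonneg R _) g1 g2 g3
  have i1 := g1.int
  have i2 := g2.int
  have i3 := g3.int
  simp only [hΦF] at key i2 i3
  exact ⟨i1, i2, i3, key⟩

/-- integrand of the theorem -/
noncomputable def DD (a P : ℝ → ℝ → ℝ) (p : ℝ × ℝ) : ℝ :=
  2 * a p.1 (p.1 + p.2) * a (p.1 + p.2) p.1 - a p.1 (p.1 + p.2) * P p.1 (p.1 + p.2) -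
    a (p.1 + p.2) p.1 * P (p.1 + p.2) p.1

omit B in
theorem meas_DD : Measurable (DD a P) := by
  have ma : Measurable (fun p : ℝ × ℝ => a p.1 p.2) := H.measa
  have mP : Measurable (fun p : ℝ × ℝ => P p.1 p.2) := H.measP
  exact (((ma.comp ms1).const_mul 2).mul (ma.comp ms2)).sub
    ((ma.comp ms1).mul (mP.comp ms1)) |>.sub ((ma.comp ms2).mul (mP.comp ms2))

theorem point_cut {R : ℝ} (hR : 0 < R) {q : ℝ × ℝ} (hq : q.2 ∈ Ioo 0 T) :
    a q.1 (q.1 + q.2) * (P q.1 (q.1 + q.2) * cut R (Y q.1 (q.1 + q.2)) ^ 2) +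
      a q.1 (q.1 + q.2) * (a (q.1 + q.2) q.1 / a q.1 (q.1 + q.2) *
        (P (q.1 + q.2) q.1 * cut R (Y (q.1 + q.2) q.1) ^ 2)) -
      2 * (a q.1 (q.1 + q.2) * (a (q.1 + q.2) q.1 *
        (cut R (Y q.1 (q.1 + q.2)) * cut R (Y (q.1 + q.2) q.1)))) ≤
      (C ^ 4 / R ^ 2 + 2 * C ^ 2 * T / R) - cut R (Y q.1 (q.1 + q.2)) ^ 2 * DD a P q := by
  have hC := B.Cpos
  have hm := mm_pos hq
  have hm2 := mm_le hq
  have ap := apos1 H (x := q.1) hq
  have ap2 := apos2 H (x := q.1) hq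
  have e : a q.1 (q.1 + q.2) * (a (q.1 + q.2) q.1 / a q.1 (q.1 + q.2) *
      (P (q.1 + q.2) q.1 * cut R (Y (q.1 + q.2) q.1) ^ 2)) =
      a (q.1 + q.2) q.1 * (P (q.1 + q.2) q.1 * cut R (Y (q.1 + q.2) q.1) ^ 2) := by
    field_simp
  rw [e]
  have ha := B.ba q.1 q.2 hq.1 hq.2
  have hb := B.bb q.1 q.2 hq.1 hq.2
  have hg := B.bg q.1 q.2 hq.1 hq.2
  have hg2 := B.bg2 q.1 q.2 hq.1 hq.2
  have hl := cut_lip hR (Y q.1 (q.1 + q.2)) (Y (q.1 + q.2) q.1)
  have n1 := cut_nonneg R (Y q.1 (q.1 + q.2))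
  have n2 := cut_nonneg R (Y (q.1 + q.2) q.1)
  have o1 := cut_le_one R (Y q.1 (q.1 + q.2))
  have o2 := cut_le_one R (Y (q.1 + q.2) q.1)
  unfold DD
  set A := a q.1 (q.1 + q.2)
  set A' := a (q.1 + q.2) q.1
  set p := P q.1 (q.1 + q.2)
  set r := P (q.1 + q.2) q.1
  set f := cut R (Y q.1 (q.1 + q.2))
  set g := cut R (Y (q.1 + q.2) q.1)
  set m := mm T q.2
  have hfg : |f - g| ≤ C * m ^ 2 / R := hl.trans (by gcongr)
  have t1 : A * A' * (f - g) ^ 2 ≤ C ^ 4 / R ^ 2 := by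
    have : (f - g) ^ 2 ≤ (C * m ^ 2 / R) ^ 2 := by rw [← sq_abs]; gcongr
    calc A * A' * (f - g) ^ 2 ≤ (C / m ^ 2) * (C / m ^ 2) * (C * m ^ 2 / R) ^ 2 := by gcongr
      _ = C ^ 4 / R ^ 2 := by field_simp
  have t2 : -(A' * (A - r) * (g ^ 2 - f ^ 2)) ≤ 2 * C ^ 2 * T / R := by
    have h1 : |g ^ 2 - f ^ 2| ≤ 2 * (C * m ^ 2 / R) := by
      have : g ^ 2 - f ^ 2 = -(f - g) * (f + g) := by ring
      rw [this, abs_mul, abs_neg]
      have h2 : |f + g| ≤ 2 := by rw [abs_of_nonneg (by positivity)]; linarith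
      calc |f - g| * |f + g| ≤ (C * m ^ 2 / R) * 2 := by gcongr
        _ = _ := by ring
    calc -(A' * (A - r) * (g ^ 2 - f ^ 2)) ≤ |A' * (A - r) * (g ^ 2 - f ^ 2)| := neg_le_abs _
      _ = |A' * (A - r)| * |g ^ 2 - f ^ 2| := abs_mul _ _
      _ ≤ (C / m) * (2 * (C * m ^ 2 / R)) := by gcongr
      _ = 2 * C ^ 2 * m / R := by field_simp
      _ ≤ _ := by gcongr
  nlinarith [t1, t2]

theorem hopf_om : ∫ p, DD a P p ∂(om T) ≤ 0 := by
  have hC := B.Cpos
  have hT := H.Tpos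
  have hDb : ∀ᵐ q ∂(om T), |DD a P q| ≤ C := by
    filter_upwards [om_ae] with q hq
    exact B.bD q.1 q.2 hq.1 hq.2
  have mD := meas_DD H
  have mYc : ∀ R, Measurable (fun q : ℝ × ℝ => cut R (Y q.1 (q.1 + q.2)) ^ 2) := fun R =>
    (((continuous_cut R).measurable.comp H.measY).comp ms1).pow_const 2
  have hR : ∀ n : ℕ, (0 : ℝ) < (n : ℝ) + 1 := fun n => by positivity
  have hbd : ∀ R, ∀ᵐ q ∂(om T), ‖cut R (Y q.1 (q.1 + q.2)) ^ 2 * DD a P q‖ ≤ C := by
    intro R
    filter_upwards [hDb] with q hq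
    rw [norm_mul, Real.norm_eq_abs, Real.norm_eq_abs]
    have h1 : |cut R (Y q.1 (q.1 + q.2)) ^ 2| ≤ 1 := by
      rw [abs_pow]
      refine pow_le_one₀ (abs_nonneg _) ?_
      rw [abs_of_nonneg (cut_nonneg R _)]; exact cut_le_one R _
    calc _ ≤ 1 * C := by gcongr
      _ = C := one_mul C
  have hint : ∀ R, Integrable (fun q : ℝ × ℝ => cut R (Y q.1 (q.1 + q.2)) ^ 2 * DD a P q)
      (om T) := fun R =>
    Integrable.of_bound ((mYc R).mul mD).aestronglyMeasurable C (hbd R)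
  have hkey : ∀ n : ℕ, ∫ q, cut ((n : ℝ) + 1) (Y q.1 (q.1 + q.2)) ^ 2 * DD a P q ∂(om T) ≤
      (C ^ 4 / ((n : ℝ) + 1) ^ 2 + 2 * C ^ 2 * T / ((n : ℝ) + 1)) * (om T).real univ := by
    intro n
    obtain ⟨i1, i2, i3, h⟩ := avg_cut H B (hR n)
    have h2 : 0 ≤ ∫ q, ((C ^ 4 / ((n : ℝ) + 1) ^ 2 + 2 * C ^ 2 * T / ((n : ℝ) + 1)) -
        cut ((n : ℝ) + 1) (Y q.1 (q.1 + q.2)) ^ 2 * DD a P q) ∂(om T) := by
      have h3 : 0 ≤ ∫ q, (a q.1 (q.1 + q.2) * (P q.1 (q.1 + q.2) *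
            cut ((n : ℝ) + 1) (Y q.1 (q.1 + q.2)) ^ 2) +
          a q.1 (q.1 + q.2) * (a (q.1 + q.2) q.1 / a q.1 (q.1 + q.2) *
            (P (q.1 + q.2) q.1 * cut ((n : ℝ) + 1) (Y (q.1 + q.2) q.1) ^ 2)) -
          2 * (a q.1 (q.1 + q.2) * (a (q.1 + q.2) q.1 *
            (cut ((n : ℝ) + 1) (Y q.1 (q.1 + q.2)) * cut ((n : ℝ) + 1) (Y (q.1 + q.2) q.1)))))
          ∂(om T) := by
        have a1 := integral_sub (i1.add i2) (i3.const_mul 2)
        have a2 := integral_add i1 i2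
        simp only [Pi.add_apply] at a1
        rw [a1, a2, integral_const_mul]
        linarith
      refine h3.trans (integral_mono_ae ((i1.add i2).sub (i3.const_mul 2))
        ((integrable_const _).sub (hint _)) ?_)
      filter_upwards [om_ae] with q hq
      exact point_cut H B (hR n) hq
    rw [integral_sub (integrable_const _) (hint _), integral_const, smul_eq_mul] at h2
    linarith
  have hlim : Tendsto (fun n : ℕ =>
      ∫ q, cut ((n : ℝ) + 1) (Y q.1 (q.1 + q.2)) ^ 2 * DD a P q ∂(om T)) atTop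
      (𝓝 (∫ q, DD a P q ∂(om T))) := by
    refine tendsto_integral_of_dominated_convergence (fun _ => C) ?_
      (integrable_const _) ?_ ?_
    · intro n
      exact ((mYc _).mul mD).aestronglyMeasurable
    · intro n
      exact hbd _
    · refine Eventually.of_forall fun q => ?_
      have := ((cut_tendsto (Y q.1 (q.1 + q.2))).pow 2).mul_const (DD a P q)
      simpa using this
  have hlim2 : Tendsto (fun n : ℕ =>
      (C ^ 4 / ((n : ℝ) + 1) ^ 2 + 2 * C ^ 2 * T / ((n : ℝ) + 1)) * (om T).real univ) atTop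
      (𝓝 0) := by
    have h1 : Tendsto (fun n : ℕ => 1 / ((n : ℝ) + 1)) atTop (𝓝 0) :=
      tendsto_one_div_add_atTop_nhds_zero_nat
    have h2 := (((h1.pow 2).const_mul (C ^ 4)).add (h1.const_mul (2 * C ^ 2 * T))).mul_const
      ((om T).real univ)
    simp only [ne_eq, OfNat.ofNat_ne_zero, not_false_eq_true, zero_pow, mul_zero, add_zero,
      zero_mul] at h2
    refine h2.congr fun n => ?_
    have := hR n
    field_simp
  exact le_of_tendsto_of_tendsto' hlim hlim2 hkey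

end

/-- averaged two-orbit inequality for an exterior completely foliated by invariant leaves -/
theorem hopf_ineq {T C c : ℝ} {Y a P : ℝ → ℝ → ℝ} (H : HopfData T Y a P)
    (B : HopfBounds T C c Y a P) :
    ∫ p in (Ioc 0 T) ×ˢ (Ioo 0 T), (2 * a p.1 (p.1 + p.2) * a (p.1 + p.2) p.1
      - a p.1 (p.1 + p.2) * P p.1 (p.1 + p.2) - a (p.1 + p.2) p.1 * P (p.1 + p.2) p.1) ≤ 0 := by
  have := hopf_om H B
  rw [om_eq] at this
  exact this

end Pool.Agent.TH645.PG
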