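import Mathlib

/-!
Job 1731 (BM-9): final comparison of the norm with an invariant quadratic form.
-/

set_option autoImplicit false

namespace Pool.Agent.TH645.BM

section
variable {F : Type} [NormedAddCommGroup F] [NormedSpace ℝ F]

theorem ratio_deriv (g : Submodule ℝ (Module.End ℝ F)) (Q : F → ℝ)
    (hsh : ∀ A ∈ g, ∀ x, HasDerivAt (fun t : ℝ => ‖x + t • A x‖) 0 0)
    (htan : ∀ x : F, x ≠ 0 → ∀ w : F, ∃ (t : ℝ), ∃ A ∈ g, w = t • x + A x)
    (hQ1 : ∀ (c : ℝ) v, Q (c • v) = c ^ 2 * Q v)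
    (hQ4 : ∀ A ∈ g, ∀ v (t : ℝ), Q (v + t • A v) = Q v + t ^ 2 * Q (A v)) (x p : F) (hx : x ≠ 0) :
    HasDerivAt (fun d : ℝ => Q (x + d • p) / ‖x + d • p‖ ^ 2) 0 0 := by
  obtain ⟨t, A, hA, hp⟩ := htan x hx p
  have hN := hsh A hA x
  have hxn : ‖x‖ ≠ 0 := norm_ne_zero_iff.mpr hx
  -- the function of `u`
  have h1 : HasDerivAt (fun u : ℝ => (Q x + u ^ 2 * Q (A x)) / ‖x + u • A x‖ ^ 2) 0 0 := by
    have hnum : HasDerivAt (fun u : ℝ => Q x + u ^ 2 * Q (A x)) 0 0 := by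
      have h := ((hasDerivAt_pow 2 (0 : ℝ)).mul_const (Q (A x))).const_add (Q x)
      simpa using h
    have hden : HasDerivAt (fun u : ℝ => ‖x + u • A x‖ ^ 2) 0 0 := by
      have h := hN.fun_pow 2
      simpa using h
    have hne : ‖x + (0 : ℝ) • A x‖ ^ 2 ≠ 0 := by
      simpa using hx
    have h := hnum.fun_div hden hne
    simpa using h
  have hu : HasDerivAt (fun d : ℝ => d / (1 + d * t)) 1 0 := by
    have h2 : HasDerivAt (fun d : ℝ => 1 + d * t) t 0 := by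
      have h := ((hasDerivAt_id (0 : ℝ)).mul_const t).const_add 1
      simpa using h
    have h3 := (hasDerivAt_id (0 : ℝ)).fun_div h2 (by simp)
    simpa using h3
  have h2 : HasDerivAt (fun d : ℝ => (Q x + (d / (1 + d * t)) ^ 2 * Q (A x)) /
      ‖x + (d / (1 + d * t)) • A x‖ ^ 2) 0 0 := by
    have h1' : HasDerivAt (fun u : ℝ => (Q x + u ^ 2 * Q (A x)) / ‖x + u • A x‖ ^ 2) 0
        ((fun d : ℝ => d / (1 + d * t)) 0) := by
      simpa using h1
    have h := HasDerivAt.comp (0 : ℝ) h1' hu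
    simpa [Function.comp_def] using h
  refine h2.congr_of_eventuallyEq ?_
  have hev : ∀ᶠ d : ℝ in nhds 0, 1 + d * t ≠ 0 := by
    have hc : Continuous fun d : ℝ => 1 + d * t := by fun_prop
    exact hc.continuousAt.eventually_ne (by simp)
  filter_upwards [hev] with d hd
  have e : x + d • p = (1 + d * t) • (x + (d / (1 + d * t)) • A x) := by
    have e1 : (1 + d * t) * (d / (1 + d * t)) = d := by field_simp
    rw [hp, smul_add, smul_smul, smul_add, smul_smul, e1, add_smul, one_smul, add_assoc]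
  rw [e, hQ1, hQ4 A hA, norm_smul, mul_pow, Real.norm_eq_abs, sq_abs]
  rw [mul_div_mul_left _ _ (pow_ne_zero 2 hd)]

theorem ratio_const (g : Submodule ℝ (Module.End ℝ F)) (Q : F → ℝ)
    (hsh : ∀ A ∈ g, ∀ x, HasDerivAt (fun t : ℝ => ‖x + t • A x‖) 0 0)
    (htan : ∀ x : F, x ≠ 0 → ∀ w : F, ∃ (t : ℝ), ∃ A ∈ g, w = t • x + A x)
    (hQ1 : ∀ (c : ℝ) v, Q (c • v) = c ^ 2 * Q v)
    (hQ4 : ∀ A ∈ g, ∀ v (t : ℝ), Q (v + t • A v) = Q v + t ^ 2 * Q (A v)) (v w : F)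
    (hvw : ∀ s : ℝ, v + s • (w - v) ≠ 0) : Q v / ‖v‖ ^ 2 = Q w / ‖w‖ ^ 2 := by
  have hder : ∀ s : ℝ, HasDerivAt (fun s : ℝ => Q (v + s • (w - v)) / ‖v + s • (w - v)‖ ^ 2) 0 s := by
    intro s
    have h1 := ratio_deriv g Q hsh htan hQ1 hQ4 (v + s • (w - v)) (w - v) (hvw s)
    have h2 : HasDerivAt (fun s' : ℝ => s' - s) 1 s := (hasDerivAt_id s).sub_const s
    have h1' : HasDerivAt (fun d : ℝ => Q (v + s • (w - v) + d • (w - v)) /
        ‖v + s • (w - v) + d • (w - v)‖ ^ 2) 0 ((fun s' : ℝ => s' - s) s) := by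
      simpa using h1
    have h3 := HasDerivAt.comp (h := fun s' : ℝ => s' - s) s h1' h2
    rw [zero_mul] at h3
    refine h3.congr_of_eventuallyEq (Filter.Eventually.of_forall fun s' => ?_)
    simp only [Function.comp_def]
    have e : v + s • (w - v) + (s' - s) • (w - v) = v + s' • (w - v) := by
      rw [add_assoc, ← add_smul]
      congr 2
      ring
    rw [e]
  have hconst := is_const_of_deriv_eq_zero (f := fun s : ℝ => Q (v + s • (w - v)) /
    ‖v + s • (w - v)‖ ^ 2) (fun s => (hder s).differentiableAt) (fun s => (hder s).deriv) 0 1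
  simpa using hconst

end

theorem final_form (F : Type) [NormedAddCommGroup F] [NormedSpace ℝ F]
    (g : Submodule ℝ (Module.End ℝ F)) (Q : F → ℝ) (hinf : ¬ FiniteDimensional ℝ F)
    (hsh : ∀ A ∈ g, ∀ x, HasDerivAt (fun t : ℝ => ‖x + t • A x‖) 0 0)
    (htan : ∀ x : F, x ≠ 0 → ∀ w : F, ∃ (t : ℝ), ∃ A ∈ g, w = t • x + A x)
    (hQ1 : ∀ (c : ℝ) v, Q (c • v) = c ^ 2 * Q v)
    (hQ2 : ∀ v w, Q (v + w) + Q (v - w) = 2 * Q v + 2 * Q w) (hQ3 : ∀ v, v ≠ 0 → 0 < Q v)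
    (hQ4 : ∀ A ∈ g, ∀ v (t : ℝ), Q (v + t • A v) = Q v + t ^ 2 * Q (A v)) (x y : F) :
    ‖x + y‖ * ‖x + y‖ + ‖x - y‖ * ‖x - y‖ = 2 * (‖x‖ * ‖x‖ + ‖y‖ * ‖y‖) := by
  have hspan : ∀ v w : F, ∃ u : F, u ∉ Submodule.span ℝ ({v, w} : Set F) := by
    intro v w
    by_contra h
    push Not at h
    apply hinf
    refine ⟨⟨({v, w} : Set F).toFinite.toFinset, ?_⟩⟩
    rw [Set.Finite.coe_toFinset]
    exact Submodule.eq_top_iff'.mpr h
  have key : ∀ v w : F, v ≠ 0 → w ≠ 0 → Q v / ‖v‖ ^ 2 = Q w / ‖w‖ ^ 2 := by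
    intro v w hv hw
    obtain ⟨u, hu⟩ := hspan v w
    have hline : ∀ z : F, z ≠ 0 → z ∈ ({v, w} : Set F) → ∀ s : ℝ, z + s • (u - z) ≠ 0 := by
      intro z hz hzm s h0
      have hzs : z ∈ Submodule.span ℝ ({v, w} : Set F) := Submodule.subset_span hzm
      by_cases hs : s = 0
      · rw [hs] at h0
        simp at h0
        exact hz h0
      · apply hu
        have e : u = z - s⁻¹ • z := by
          have h1 : s • (u - z) = - z := by
            rw [eq_neg_iff_add_eq_zero, add_comm]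
            exact h0
          have h2 : u - z = s⁻¹ • (-z) := by
            rw [← h1, smul_smul, inv_mul_cancel₀ hs, one_smul]
          rw [smul_neg] at h2
          rw [sub_eq_iff_eq_add] at h2
          rw [h2]
          abel
        rw [e]
        exact Submodule.sub_mem _ hzs (Submodule.smul_mem _ _ hzs)
    rw [ratio_const g Q hsh htan hQ1 hQ4 v u (hline v hv (by simp)),
      ratio_const g Q hsh htan hQ1 hQ4 w u (hline w hw (by simp))]
  obtain ⟨v0, hv0⟩ := hspan 0 0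
  have hv00 : v0 ≠ 0 := by
    rintro rfl
    exact hv0 (Submodule.zero_mem _)
  set c := Q v0 / ‖v0‖ ^ 2 with hc
  have hcpos : 0 < c := by
    apply div_pos (hQ3 v0 hv00)
    have := norm_pos_iff.mpr hv00
    positivity
  have hQ0 : Q 0 = 0 := by
    have := hQ1 0 0
    simpa using this
  have hQc : ∀ v : F, Q v = c * (‖v‖ * ‖v‖) := by
    intro v
    by_cases hv : v = 0
    · rw [hv, hQ0]; simp
    · have h1 := key v v0 hv hv00
      have hvn : ‖v‖ ^ 2 ≠ 0 := pow_ne_zero 2 (norm_ne_zero_iff.mpr hv)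
      rw [hc, ← h1]
      rw [← sq, div_mul_cancel₀ _ hvn]
  have h := hQ2 x y
  rw [hQc, hQc, hQc, hQc] at h
  have h2 : c * (‖x + y‖ * ‖x + y‖ + ‖x - y‖ * ‖x - y‖) =
      c * (2 * (‖x‖ * ‖x‖ + ‖y‖ * ‖y‖)) := by
    linarith
  exact mul_left_cancel₀ hcpos.ne' h2

end Pool.Agent.TH645.BM
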