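import Pool.Agent.TH716.TW.Defs

set_option autoImplicit false

namespace Pool.Agent.TH645.J1415

open Pool.Agent.TH716.TW Filter Topology

theorem dens (a b : ℕ) (ha : 0 < a) (hb : 0 < b) (x ε : ℝ) (hx : 0 < x) (hε : 0 < ε) :
    ∃ j k : ℕ, |((a : ℝ) * (1 + b * j)) / 13 ^ k - x| < ε := by
  have hlim : Tendsto (fun k : ℕ => ((a : ℝ) * b) * (1 / 13 : ℝ) ^ k) atTop (𝓝 0) := by
    have := (tendsto_pow_atTop_nhds_zero_of_lt_one (by norm_num : (0:ℝ) ≤ 1/13)
      (by norm_num : (1/13 : ℝ) < 1)).const_mul ((a : ℝ) * b)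
    simpa using this
  have hlim2 : Tendsto (fun k : ℕ => ((a : ℝ)) * (1 / 13 : ℝ) ^ k) atTop (𝓝 0) := by
    have := (tendsto_pow_atTop_nhds_zero_of_lt_one (by norm_num : (0:ℝ) ≤ 1/13)
      (by norm_num : (1/13 : ℝ) < 1)).const_mul ((a : ℝ))
    simpa using this
  obtain ⟨k, hk1, hk2⟩ := ((hlim.eventually (gt_mem_nhds hε)).and
    (hlim2.eventually (gt_mem_nhds hx))).exists
  have hA : (0 : ℝ) < a := by exact_mod_cast ha
  have hB : (0 : ℝ) < b := by exact_mod_cast hb
  have h13 : (0 : ℝ) < 13 ^ k := by positivity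
  rw [one_div, inv_pow, ← div_eq_mul_inv] at hk1 hk2
  set t : ℝ := x * 13 ^ k / a - 1 with ht
  have ht0 : 0 ≤ t := by
    rw [ht, sub_nonneg, le_div_iff₀ hA]
    rw [div_lt_iff₀ h13] at hk2
    linarith
  refine ⟨⌊t / b⌋₊, k, ?_⟩
  set j := ⌊t / b⌋₊ with hj
  have h1 : (j : ℝ) ≤ t / b := Nat.floor_le (by positivity)
  have h2 : t / b < j + 1 := Nat.lt_floor_add_one _
  rw [le_div_iff₀ hB] at h1
  rw [div_lt_iff₀ hB] at h2
  have h3 : x = a * (1 + t) / 13 ^ k := by
    rw [ht]; field_simp; ring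
  have h4 : (a : ℝ) * (1 + b * j) / 13 ^ k - x = -(a * (t - b * j) / 13 ^ k) := by
    rw [h3]; ring
  rw [h4, abs_neg, abs_of_nonneg (div_nonneg (mul_nonneg hA.le (by linarith)) h13.le)]
  refine lt_of_le_of_lt ?_ hk1
  gcongr
  linarith

theorem val_prime (p q : ℕ) (hp : p.Prime) (hq : q.Prime) (h : p ≠ q) : padicValNat p q = 0 := by
  have := Fact.mk hp
  exact padicValNat.eq_zero_of_not_dvd fun hd => h ((Nat.prime_dvd_prime_iff_eq hp hq).1 hd)

theorem val_R (S : Finset ℕ) (hS : ∀ q ∈ S, q.Prime) (K p : ℕ) (hp : p.Prime) :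
    padicValNat p (∏ q ∈ S, q ^ K) = if p ∈ S then K else 0 := by
  classical
  have := Fact.mk hp
  induction S using Finset.induction_on with
  | empty => simp
  | insert q S hq ih =>
    have hqp : q.Prime := hS q (Finset.mem_insert_self _ _)
    have h1 : q ^ K ≠ 0 := pow_ne_zero _ hqp.ne_zero
    have h2 : ∏ q ∈ S, q ^ K ≠ 0 :=
      Finset.prod_ne_zero_iff.2 fun a ha => pow_ne_zero _ (hS a (Finset.mem_insert_of_mem ha)).ne_zero
    rw [Finset.prod_insert hq, padicValNat.mul h1 h2, ih fun a ha => hS a (Finset.mem_insert_of_mem ha),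
      padicValNat.pow]
    by_cases hpq : p = q
    · subst hpq
      simp [hq]
    · rw [val_prime p q hp hqp hpq]
      simp [Finset.mem_insert, hpq]

theorem val_not_dvd {p : ℕ} (hp : p.Prime) {x : ℚ} (h1 : ¬ p ∣ x.num.natAbs) (h2 : ¬ p ∣ x.den) :
    padicValRat p x = 0 := by
  have := Fact.mk hp
  rw [padicValRat, padicValInt, padicValNat.eq_zero_of_not_dvd h1, padicValNat.eq_zero_of_not_dvd h2]
  simp

/-- the valuation of the sum -/
theorem val_S {p : ℕ} (hp : p.Prime) {N e : ℚ} (hN : N ≠ 0) (he : e ≠ 0)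
    (h : padicValRat p N ≠ 3 * padicValRat p e) :
    N * e ^ 3 + N ^ 2 ≠ 0 ∧ padicValRat p (N * e ^ 3 + N ^ 2) =
      min (padicValRat p N + 3 * padicValRat p e) (2 * padicValRat p N) := by
  have := Fact.mk hp
  have h1 : padicValRat p (N * e ^ 3) = padicValRat p N + 3 * padicValRat p e := by
    rw [padicValRat.mul hN (pow_ne_zero _ he), padicValRat.pow]; norm_num
  have h2 : padicValRat p (N ^ 2) = 2 * padicValRat p N := by
    rw [padicValRat.pow]; norm_num
  have h3 : N * e ^ 3 + N ^ 2 ≠ 0 := by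
    intro h0
    have h4 : N * e ^ 3 = -(N ^ 2) := by linarith
    have h5 := congrArg (padicValRat p) h4
    rw [padicValRat.neg, h1, h2] at h5
    exact h (by linarith)
  refine ⟨h3, ?_⟩
  rw [padicValRat.add_eq_min h3 (mul_ne_zero hN (pow_ne_zero _ he)) (pow_ne_zero _ hN), h1, h2]
  rw [h1, h2]
  intro h4
  exact h (by linarith)

/-- the valuation of the sum: lower bound -/
theorem val_S_le {p : ℕ} (hp : p.Prime) {N e : ℚ} (hN : N ≠ 0) (he : e ≠ 0)
    (h0 : N * e ^ 3 + N ^ 2 ≠ 0) :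
    min (padicValRat p N + 3 * padicValRat p e) (2 * padicValRat p N) ≤
      padicValRat p (N * e ^ 3 + N ^ 2) := by
  have := Fact.mk hp
  have h1 : padicValRat p (N * e ^ 3) = padicValRat p N + 3 * padicValRat p e := by
    rw [padicValRat.mul hN (pow_ne_zero _ he), padicValRat.pow]; norm_num
  have h2 : padicValRat p (N ^ 2) = 2 * padicValRat p N := by
    rw [padicValRat.pow]; norm_num
  rw [← h1, ← h2]
  exact padicValRat.min_le_padicValRat_add h0

/-- the valuations of the parameter -/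
theorem val_E {p : ℕ} (hp : p.Prime) (h13 : p ≠ 13) (S : Finset ℕ) (hS : ∀ q ∈ S, q.Prime)
    (K D j k : ℕ) (hD : p = 7 ∨ p ∣ D) :
    padicValRat p ((((7 * ∏ q ∈ S, q ^ K) * (1 + 7 * D * j) : ℕ) : ℚ) / (13 : ℚ) ^ k) =
      (if p = 7 then 1 else 0) + (if p ∈ S then (K : ℤ) else 0) := by
  have := Fact.mk hp
  have h1 : ∏ q ∈ S, q ^ K ≠ 0 :=
    Finset.prod_ne_zero_iff.2 fun a ha => pow_ne_zero _ (hS a ha).ne_zero
  have hc : padicValNat p (1 + 7 * D * j) = 0 := by
    refine padicValNat.eq_zero_of_not_dvd fun hd => ?_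
    have h2 : p ∣ 7 * D * j := by
      rcases hD with rfl | h
      · exact Dvd.intro _ (by ring : 7 * (D * j) = 7 * D * j)
      · exact (h.mul_left 7).mul_right j
    have h3 : p ∣ 1 := (Nat.dvd_add_left h2).1 hd
    exact hp.one_lt.ne' (Nat.dvd_one.1 h3)
  have hne : ((7 * ∏ q ∈ S, q ^ K) * (1 + 7 * D * j) : ℕ) ≠ 0 := by positivity
  have e13 : (13 : ℚ) ^ k = ((13 ^ k : ℕ) : ℚ) := by push_cast; rfl
  rw [e13, padicValRat.div (Nat.cast_ne_zero.2 hne) (Nat.cast_ne_zero.2 (by positivity)),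
    padicValRat.of_nat, padicValRat.of_nat, padicValNat.mul (by positivity) (by positivity),
    padicValNat.mul (by norm_num) h1, hc, val_R S hS K p hp, padicValNat.pow,
    val_prime p 13 hp (by norm_num) h13]
  by_cases h7 : p = 7
  · subst h7
    simp
  · rw [val_prime p 7 hp (by norm_num) h7]
    simp [h7]

theorem val_E_nonneg {p : ℕ} (hp : p.Prime) (h13 : p ≠ 13) (S : Finset ℕ) (hS : ∀ q ∈ S, q.Prime)
    (K D j k : ℕ) :
    0 ≤ padicValRat p ((((7 * ∏ q ∈ S, q ^ K) * (1 + 7 * D * j) : ℕ) : ℚ) / (13 : ℚ) ^ k) := by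
  have := Fact.mk hp
  have h1 : ∏ q ∈ S, q ^ K ≠ 0 :=
    Finset.prod_ne_zero_iff.2 fun a ha => pow_ne_zero _ (hS a ha).ne_zero
  have hne : ((7 * ∏ q ∈ S, q ^ K) * (1 + 7 * D * j) : ℕ) ≠ 0 := by positivity
  have e13 : (13 : ℚ) ^ k = ((13 ^ k : ℕ) : ℚ) := by push_cast; rfl
  rw [e13, padicValRat.div (Nat.cast_ne_zero.2 hne) (Nat.cast_ne_zero.2 (by positivity)),
    padicValRat.of_nat, padicValRat.of_nat, padicValNat.pow,
    val_prime p 13 hp (by norm_num) h13]
  simp

/-- the real condition -/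
theorem real_cond (N F : ℚ) (hN : 0 < N) (hF : F ≠ 0) : ∃ x ε : ℝ, 0 < x ∧ 0 < ε ∧
    ∀ E : ℚ, |(E : ℝ) - x| < ε →
      (N * (-E) ^ 3 + N ^ 2) ^ 2 < 4 * (-(-E) / F ^ 2) ^ 3 := by
  have hNR : (0 : ℝ) < N := by exact_mod_cast hN
  have hFR : (F : ℝ) ≠ 0 := by exact_mod_cast hF
  set x : ℝ := (N : ℝ) ^ (1 / 3 : ℝ) with hx
  have hx0 : 0 < x := Real.rpow_pos_of_pos hNR _
  have hx3 : x ^ 3 = N := by
    rw [hx, ← Real.rpow_natCast, ← Real.rpow_mul hNR.le]; norm_num
  set g : ℝ → ℝ := fun E => 4 * (-(-E) / (F : ℝ) ^ 2) ^ 3 - ((N : ℝ) * (-E) ^ 3 + (N : ℝ) ^ 2) ^ 2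
    with hg
  have hgc : Continuous g := by
    rw [hg]
    fun_prop
  have hgx : 0 < g x := by
    have h1 : (N : ℝ) * (-x) ^ 3 + (N : ℝ) ^ 2 = 0 := by
      have : (-x) ^ 3 = -(N : ℝ) := by rw [← hx3]; ring
      rw [this]; ring
    rw [hg]
    simp only [h1, neg_neg]
    have h2 : 0 < x / (F : ℝ) ^ 2 := by positivity
    have h3 : 0 < 4 * (x / (F : ℝ) ^ 2) ^ 3 := mul_pos (by norm_num) (pow_pos h2 3)
    linarith
  obtain ⟨ε, hε, h⟩ := Metric.eventually_nhds_iff.1 (hgc.continuousAt.eventually (lt_mem_nhds hgx))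
  refine ⟨x, ε, hx0, hε, fun E hE => ?_⟩
  have h2 := h (y := (E : ℝ)) (by rwa [Real.dist_eq])
  rw [hg] at h2
  have h3 : ((((N * (-E) ^ 3 + N ^ 2) ^ 2 : ℚ)) : ℝ) < ((4 * (-(-E) / F ^ 2) ^ 3 : ℚ) : ℝ) := by
    push_cast
    linarith
  exact_mod_cast h3

theorem result : S_choose := by
  intro N F hN hF H1 H2
  have hN0 : N ≠ 0 := hN.ne'
  obtain ⟨x, ε, hx, hε, hreal⟩ := real_cond N F hN hF
  set D : ℕ := N.num.natAbs * N.den * (F.num.natAbs * F.den) with hD
  have hD0 : 0 < D := by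
    have h1 : 0 < N.num.natAbs := Int.natAbs_pos.2 (Rat.num_ne_zero.2 hN0)
    have h2 : 0 < F.num.natAbs := Int.natAbs_pos.2 (Rat.num_ne_zero.2 hF)
    have h3 := N.den_pos
    have h4 := F.den_pos
    positivity
  set S : Finset ℕ := D.primeFactors.filter fun p => p ≠ 7 ∧ (3 : ℤ) ∣ padicValRat p N with hS
  have hSp : ∀ q ∈ S, q.Prime := fun q hq =>
    Nat.prime_of_mem_primeFactors (Finset.mem_filter.1 hq).1
  have hR : ∏ q ∈ S, q ^ D ≠ 0 :=
    Finset.prod_ne_zero_iff.2 fun a ha => pow_ne_zero _ (hSp a ha).ne_zero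
  obtain ⟨j, k, hjk⟩ := dens (7 * ∏ q ∈ S, q ^ D) (7 * D) (by positivity) (by positivity) x ε hx hε
  set E : ℚ := (((7 * ∏ q ∈ S, q ^ D) * (1 + 7 * D * j) : ℕ) : ℚ) / (13 : ℚ) ^ k with hE
  have hE0 : E ≠ 0 := by
    rw [hE]
    exact div_ne_zero (Nat.cast_ne_zero.2 (by positivity)) (by positivity)
  have hineq := hreal E (by
    refine lt_of_eq_of_lt ?_ hjk
    rw [hE]
    push_cast
    rfl)
  -- valuations of N
  have hval : ∀ p : ℕ, p.Prime → ¬ p ∣ D → padicValRat p N = 0 ∧ padicValRat p F = 0 := by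
    intro p hp hpD
    refine ⟨val_not_dvd hp (fun h => hpD ?_) (fun h => hpD ?_),
      val_not_dvd hp (fun h => hpD ?_) (fun h => hpD ?_)⟩
    · exact (h.mul_right _).mul_right _
    · exact (h.mul_left _).mul_right _
    · exact (h.mul_right _).mul_left _
    · exact (h.mul_left _).mul_left _
  have hle : ∀ p : ℕ, p.Prime → padicValRat p N < D := by
    intro p hp
    have := Fact.mk hp
    have h1 : padicValRat p N ≤ (padicValNat p N.num.natAbs : ℤ) := by
      rw [padicValRat, padicValInt]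
      have : (0 : ℤ) ≤ (padicValNat p N.den : ℤ) := Int.natCast_nonneg _
      linarith
    have h2 : N.num.natAbs ∣ D := (Dvd.intro _ rfl : N.num.natAbs ∣ N.num.natAbs * N.den).mul_right _
    have h3 : padicValNat p N.num.natAbs ≤ padicValNat p D :=
      (padicValNat_dvd_iff_le hD0.ne').1 (pow_padicValNat_dvd.trans h2)
    have h4 : padicValNat p D < D := by
      have h5 : p ^ padicValNat p D ≤ D := Nat.le_of_dvd hD0 pow_padicValNat_dvd
      exact lt_of_lt_of_le (Nat.lt_pow_self hp.one_lt) h5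
    have h6 : (padicValNat p N.num.natAbs : ℤ) < D := by exact_mod_cast h3.trans_lt h4
    linarith
  have hneg : ∀ p : ℕ, padicValRat p (-E) = padicValRat p E := fun p => padicValRat.neg E
  have hmu : ∀ p : ℕ, p.Prime → padicValRat p (-(-E) / F ^ 2) =
      padicValRat p E - 2 * padicValRat p F := by
    intro p hp
    have := Fact.mk hp
    rw [neg_neg, padicValRat.div hE0 (pow_ne_zero _ hF), padicValRat.pow]
    norm_num
  refine ⟨-E, neg_ne_zero.2 hE0, hineq, ?_, ?_⟩
  · -- the prime 7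
    have hp7 : Nat.Prime 7 := by norm_num
    have := Fact.mk hp7
    have hE7 : padicValRat 7 E = 1 := by
      rw [hE, val_E hp7 (by norm_num) S hSp D D j k (Or.inl rfl)]
      have : 7 ∉ S := by
        rw [hS, Finset.mem_filter]
        rintro ⟨_, h, _⟩
        exact h rfl
      simp [this]
    set n := padicValRat 7 N with hn
    set f := padicValRat 7 F with hf
    have hB : padicValRat 7 (-(4 * (-(-E) / F ^ 2) ^ 3)) = 3 - 6 * f := by
      have hne : (-(-E) / F ^ 2) ≠ 0 := div_ne_zero (neg_ne_zero.2 (neg_ne_zero.2 hE0))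
        (pow_ne_zero _ hF)
      rw [padicValRat.neg, padicValRat.mul (by norm_num) (pow_ne_zero _ hne), padicValRat.pow,
        hmu 7 hp7, hE7]
      have h4 : padicValRat 7 (4 : ℚ) = 0 := by
        have : (4 : ℚ) = ((4 : ℕ) : ℚ) := by norm_num
        rw [this, padicValRat.of_nat, padicValNat.eq_zero_of_not_dvd (by norm_num)]
        rfl
      rw [h4]
      push_cast
      ring
    have hBne : -(4 * (-(-E) / F ^ 2) ^ 3) ≠ 0 := by
      refine neg_ne_zero.2 (mul_ne_zero (by norm_num) (pow_ne_zero _ ?_))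
      exact div_ne_zero (neg_ne_zero.2 (neg_ne_zero.2 hE0)) (pow_ne_zero _ hF)
    have hgoal : padicValRat 7 ((N * (-E) ^ 3 + N ^ 2) ^ 2 - 4 * (-(-E) / F ^ 2) ^ 3) =
        3 - 6 * f := by
      rw [sub_eq_add_neg]
      by_cases hS0 : N * (-E) ^ 3 + N ^ 2 = 0
      · rw [hS0, zero_pow (by norm_num), zero_add, hB]
      · have hSv : 3 - 6 * f < padicValRat 7 ((N * (-E) ^ 3 + N ^ 2) ^ 2) := by
          rw [padicValRat.pow]
          push_cast
          by_cases h3 : n = 3
          · have h4 := val_S_le hp7 hN0 (neg_ne_zero.2 hE0) hS0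
            rw [hneg, hE7, ← hn, h3] at h4
            norm_num at h4
            rw [h3] at H2
            norm_num at H2
            linarith
          · have h4 := (val_S hp7 hN0 (neg_ne_zero.2 hE0) (by
              rw [hneg, hE7, ← hn]; simpa using h3)).2
            rw [hneg, hE7, ← hn] at h4
            rw [h4]
            rw [abs_lt] at H2
            rcases le_total (n + 3 * 1) (2 * n) with h5 | h5
            · rw [min_eq_left h5]; linarith
            · rw [min_eq_right h5]; linarith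
        rw [padicValRat.add_eq_min (by
            intro h0
            have : (N * (-E) ^ 3 + N ^ 2) ^ 2 = 4 * (-(-E) / F ^ 2) ^ 3 := by linarith
            exact hineq.ne this) (pow_ne_zero _ hS0) hBne (by rw [hB]; exact hSv.ne'), hB]
        exact min_eq_right hSv.le
    rw [hgoal]
    exact ⟨1 - 3 * f, by ring⟩
  · intro p hI
    have hp : p.Prime := hI.1
    have := Fact.mk hp
    have hp7 : p ≠ 7 := by rintro rfl; have := hI.2; omega
    have hp13 : p ≠ 13 := by rintro rfl; have := hI.2; omega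
    set n := padicValRat p N with hn
    set f := padicValRat p F with hf
    rw [hmu p hp]
    by_cases hpD : p ∣ D
    · have hEp := val_E hp hp13 S hSp D D j k (Or.inr hpD)
      rw [← hE, if_neg hp7, zero_add] at hEp
      by_cases h3 : (3 : ℤ) ∣ n
      · have hmem : p ∈ S := by
          rw [hS, Finset.mem_filter, Nat.mem_primeFactors]
          exact ⟨⟨hp, hpD, hD0.ne'⟩, hp7, h3⟩
        rw [if_pos hmem] at hEp
        have h4 : n < 3 * padicValRat p E := by
          rw [hEp]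
          have := hle p hp
          have : (0 : ℤ) < D := by exact_mod_cast hD0
          linarith
        have h5 := (val_S hp hN0 (neg_ne_zero.2 hE0) (by rw [hneg, ← hn]; exact h4.ne)).2
        rw [hneg, ← hn] at h5
        right; left
        rw [h5]
        obtain ⟨c, hc⟩ := h3
        rcases le_total (n + 3 * padicValRat p E) (2 * n) with h6 | h6
        · rw [min_eq_left h6, hc]; exact ⟨c + padicValRat p E, by ring⟩
        · rw [min_eq_right h6, hc]; exact ⟨2 * c, by ring⟩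
      · have hmem : p ∉ S := by
          rw [hS, Finset.mem_filter]
          rintro ⟨_, _, h⟩
          exact h3 h
        rw [if_neg hmem] at hEp
        have hn0 : n ≠ 0 := by rintro h0; exact h3 (h0 ▸ dvd_zero _)
        have h5 := (val_S hp hN0 (neg_ne_zero.2 hE0) (by
          rw [hneg, ← hn, hEp]; simpa using hn0)).2
        rw [hneg, ← hn, hEp] at h5
        have h6 := H1 p hI h3
        right; right
        rw [h5, hEp]
        rcases abs_cases n with ⟨h7, h8⟩ | ⟨h7, h8⟩
        · rw [h7] at h6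
          rw [min_eq_left (by linarith)]; linarith
        · rw [h7] at h6
          rw [min_eq_right (by linarith)]; linarith
    · obtain ⟨h1, h2⟩ := hval p hp hpD
      rw [← hn] at h1
      rw [← hf] at h2
      have h3 := val_E_nonneg hp hp13 S hSp D D j k
      rw [← hE] at h3
      by_cases hS0 : N * (-E) ^ 3 + N ^ 2 = 0
      · exact Or.inl hS0
      right
      have h4 := val_S_le hp hN0 (neg_ne_zero.2 hE0) hS0
      rw [hneg, ← hn, h1] at h4
      by_cases h5 : padicValRat p E = 0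
      · right
        rw [h5, ← hf, h2]
        rw [h5] at h4
        norm_num at h4
        linarith
      · left
        have h6 := (val_S hp hN0 (neg_ne_zero.2 hE0) (by
          rw [hneg, ← hn, h1]; omega)).2
        rw [hneg, ← hn, h1] at h6
        rw [h6, min_eq_right (by linarith)]
        exact ⟨0, by ring⟩

end Pool.Agent.TH645.J1415
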