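import Pool.Agent.TH91.NB.Mat
import Pool.Agent.TH91.LG.Asm

/-!
Job 1722: nil-recurrence, k-fold version (products of unitriangular models, multiple recurrence).
-/

set_option autoImplicit false

namespace Pool.Agent.TH91.BG

open Pool.Agent.W97.TL Pool.Agent.TH91.NB Pool.Agent.TH91.LG
open scoped ContDiff Manifold

/-- `g` is in the image of an open continuous homomorphism from a unitriangular matrix group. -/
def HasModel {G : Type*} [Group G] [TopologicalSpace G] (g : G) : Prop :=
  ∃ (N : ℕ) (H : Subgroup (Matrix (Fin N) (Fin N) ℝ)ˣ) (φ : H →* G),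
    (∀ h ∈ H, (∀ i, (h : Matrix (Fin N) (Fin N) ℝ) i i = 1) ∧
      ∀ i j, j < i → (h : Matrix (Fin N) (Fin N) ℝ) i j = 0) ∧
    Continuous φ ∧ IsOpenMap φ ∧ g ∈ Set.range φ

namespace J1722

open Matrix Topology

section blocks

variable {k : ℕ} (N : Fin k → ℕ)

/-- the ring homomorphism to block diagonal matrices -/
noncomputable def blkD : (∀ i, Matrix (Fin (N i)) (Fin (N i)) ℝ) →+*
    Matrix (Fin (∑ i, N i)) (Fin (∑ i, N i)) ℝ :=
  ((Matrix.reindexAlgEquiv ℝ ℝ (finSigmaFinEquiv (n := N))).toRingEquiv.toRingHom).comp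
    (Matrix.blockDiagonal'RingHom (fun i => Fin (N i)) ℝ)

theorem blkD_apply (A : ∀ i, Matrix (Fin (N i)) (Fin (N i)) ℝ) (a b : Σ i, Fin (N i)) :
    blkD N A (finSigmaFinEquiv a) (finSigmaFinEquiv b) = Matrix.blockDiagonal' A a b := by
  simp [blkD, Matrix.blockDiagonal'RingHom]
  rfl

/-- extraction of the blocks -/
noncomputable def ext (M : Matrix (Fin (∑ i, N i)) (Fin (∑ i, N i)) ℝ) :
    ∀ i, Matrix (Fin (N i)) (Fin (N i)) ℝ :=
  fun i => Matrix.of fun x y => M (finSigmaFinEquiv ⟨i, x⟩) (finSigmaFinEquiv ⟨i, y⟩)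

theorem ext_blkD (A : ∀ i, Matrix (Fin (N i)) (Fin (N i)) ℝ) : ext N (blkD N A) = A := by
  funext i
  ext x y
  simp only [ext, Matrix.of_apply, blkD_apply]
  rw [Matrix.blockDiagonal'_apply_eq]

theorem continuous_ext : Continuous (ext N) := by
  refine continuous_pi fun i => ?_
  refine continuous_matrix fun x y => ?_
  simp only [ext, Matrix.of_apply]
  exact Continuous.matrix_elem continuous_id _ _

theorem continuous_blkD : Continuous (blkD N) := by
  refine continuous_matrix fun p q => ?_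
  obtain ⟨a, rfl⟩ := (finSigmaFinEquiv (n := N)).surjective p
  obtain ⟨b, rfl⟩ := (finSigmaFinEquiv (n := N)).surjective q
  simp only [blkD_apply]
  obtain ⟨i, x⟩ := a
  obtain ⟨j, y⟩ := b
  by_cases h : i = j
  · subst h
    simp only [Matrix.blockDiagonal'_apply_eq]
    exact (continuous_apply i).matrix_elem x y
  · simp only [Matrix.blockDiagonal'_apply_ne _ _ _ h]
    exact continuous_const

theorem blkD_diag (A : ∀ i, Matrix (Fin (N i)) (Fin (N i)) ℝ) (hA : ∀ i x, A i x x = 1)
    (p : Fin (∑ i, N i)) : blkD N A p p = 1 := by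
  obtain ⟨⟨i, x⟩, rfl⟩ := (finSigmaFinEquiv (n := N)).surjective p
  rw [blkD_apply, Matrix.blockDiagonal'_apply_eq, hA]

theorem blkD_low (A : ∀ i, Matrix (Fin (N i)) (Fin (N i)) ℝ) (hA : ∀ i x y, y < x → A i x y = 0)
    (p q : Fin (∑ i, N i)) (hqp : q < p) : blkD N A p q = 0 := by
  obtain ⟨⟨i, x⟩, rfl⟩ := (finSigmaFinEquiv (n := N)).surjective p
  obtain ⟨⟨j, y⟩, rfl⟩ := (finSigmaFinEquiv (n := N)).surjective q
  rw [blkD_apply]
  by_cases h : i = j
  · subst h
    rw [Matrix.blockDiagonal'_apply_eq]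
    apply hA
    rw [Fin.lt_def, finSigmaFinEquiv_apply, finSigmaFinEquiv_apply] at hqp
    rw [Fin.lt_def]
    simpa using hqp
  · rw [Matrix.blockDiagonal'_apply_ne _ _ _ h]

end blocks

end J1722

open J1722 Matrix Topology

/-- products of models (this is the job) -/
theorem HasModel.pi {G : Type*} [Group G] [TopologicalSpace G] [IsTopologicalGroup G] (k : ℕ)
    (g : Fin k → G) (h : ∀ i, HasModel (g i)) : HasModel g := by
  choose N H φ hH hc ho hg using h
  -- the homomorphism
  let B : (∀ i, H i) →* (Matrix (Fin (∑ i, N i)) (Fin (∑ i, N i)) ℝ)ˣ :=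
    { toFun := fun h => Units.map (blkD N).toMonoidHom (MulEquiv.piUnits.symm fun i => (h i).1)
      map_one' := by
        have : (MulEquiv.piUnits.symm fun i => ((1 : ∀ i, H i) i).1 :
            (∀ i, Matrix (Fin (N i)) (Fin (N i)) ℝ)ˣ) = 1 := by
          rw [← map_one MulEquiv.piUnits.symm]
          rfl
        rw [this, map_one]
      map_mul' := fun a b => by
        have : (MulEquiv.piUnits.symm fun i => ((a * b) i).1 :
            (∀ i, Matrix (Fin (N i)) (Fin (N i)) ℝ)ˣ) =
            (MulEquiv.piUnits.symm fun i => (a i).1) * (MulEquiv.piUnits.symm fun i => (b i).1) := by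
          rw [← map_mul MulEquiv.piUnits.symm]
          rfl
        rw [this, map_mul] }
  have hBval : ∀ h : (∀ i, H i), ((B h : (Matrix (Fin (∑ i, N i)) (Fin (∑ i, N i)) ℝ)ˣ) :
      Matrix (Fin (∑ i, N i)) (Fin (∑ i, N i)) ℝ) =
      blkD N (fun i => (((h i).1 : (Matrix (Fin (N i)) (Fin (N i)) ℝ)ˣ) :
        Matrix (Fin (N i)) (Fin (N i)) ℝ)) := fun h => rfl
  have hcv : Continuous fun h : (∀ i, H i) => (fun i => (((h i).1 : (Matrix (Fin (N i)) (Fin (N i)) ℝ)ˣ) :
        Matrix (Fin (N i)) (Fin (N i)) ℝ)) :=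
    continuous_pi fun i => Units.continuous_val.comp (continuous_subtype_val.comp (continuous_apply i))
  have hBvc : Continuous fun h : (∀ i, H i) =>
      ((B h : (Matrix (Fin (∑ i, N i)) (Fin (∑ i, N i)) ℝ)ˣ) :
      Matrix (Fin (∑ i, N i)) (Fin (∑ i, N i)) ℝ) := by
    simp only [hBval]
    exact (continuous_blkD N).comp hcv
  have hBc : Continuous B := by
    rw [Units.continuous_iff]
    refine ⟨hBvc, ?_⟩
    have : (fun h : (∀ i, H i) => (((B h)⁻¹ : (Matrix (Fin (∑ i, N i)) (Fin (∑ i, N i)) ℝ)ˣ) :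
        Matrix (Fin (∑ i, N i)) (Fin (∑ i, N i)) ℝ)) =
        (fun h : (∀ i, H i) => ((B h : (Matrix (Fin (∑ i, N i)) (Fin (∑ i, N i)) ℝ)ˣ) :
          Matrix (Fin (∑ i, N i)) (Fin (∑ i, N i)) ℝ)) ∘ (fun h => h⁻¹) := by
      funext h
      rw [Function.comp_apply, map_inv]
    rw [this]
    exact hBvc.comp continuous_inv
  have hBind : IsInducing B := by
    have hcomp : IsInducing ((fun u : (Matrix (Fin (∑ i, N i)) (Fin (∑ i, N i)) ℝ)ˣ =>
        ext N (u : Matrix (Fin (∑ i, N i)) (Fin (∑ i, N i)) ℝ)) ∘ B) := by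
      have : ((fun u : (Matrix (Fin (∑ i, N i)) (Fin (∑ i, N i)) ℝ)ˣ =>
        ext N (u : Matrix (Fin (∑ i, N i)) (Fin (∑ i, N i)) ℝ)) ∘ B) =
        Pi.map (fun i (h : H i) => ((h.1 : (Matrix (Fin (N i)) (Fin (N i)) ℝ)ˣ) :
          Matrix (Fin (N i)) (Fin (N i)) ℝ)) := by
        funext h
        rw [Function.comp_apply, hBval, ext_blkD]
        rfl
      rw [this]
      exact IsInducing.piMap fun i => Pool.Agent.TH444.NB.inducing_val (H i) (hH i)
    exact IsInducing.of_comp hBc ((continuous_ext N).comp Units.continuous_val) hcomp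
  have hBinj : Function.Injective B := by
    intro a b hab
    funext i
    apply Subtype.ext
    apply Units.ext
    have h1 := congrArg (fun u : (Matrix (Fin (∑ i, N i)) (Fin (∑ i, N i)) ℝ)ˣ =>
        ext N (u : Matrix (Fin (∑ i, N i)) (Fin (∑ i, N i)) ℝ)) hab
    simp only [hBval, ext_blkD] at h1
    exact congrFun h1 i
  let E : (∀ i, H i) ≃* B.range := MonoidHom.ofInjective hBinj
  have hEval : ∀ h, ((E h : B.range) : (Matrix (Fin (∑ i, N i)) (Fin (∑ i, N i)) ℝ)ˣ) = B h :=
    fun h => rfl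
  have hEc : Continuous E := by
    rw [continuous_induced_rng]
    exact hBc
  have hEsc : Continuous E.symm := by
    rw [hBind.continuous_iff]
    have : B ∘ E.symm = Subtype.val := by
      funext y
      rw [Function.comp_apply, ← hEval, MulEquiv.apply_symm_apply]
    rw [this]
    exact continuous_subtype_val
  let P : (∀ i, H i) →* (Fin k → G) :=
    { toFun := fun h i => φ i (h i)
      map_one' := by funext i; simp
      map_mul' := fun a b => by funext i; simp }
  have hPc : Continuous P := continuous_pi fun i => (hc i).comp (continuous_apply i)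
  have hPo : IsOpenMap P := IsOpenMap.piMap ho (by
    rw [Filter.cofinite_eq_bot]
    exact Filter.eventually_bot)
  · have hEo : IsOpenMap E.symm := by
      intro s hs
      have : E.symm '' s = E ⁻¹' s := by
        ext y
        constructor
        · rintro ⟨z, hz, rfl⟩
          simpa using hz
        · intro hy
          exact ⟨E y, hy, by simp⟩
      rw [this]
      exact hs.preimage hEc
    refine ⟨∑ i, N i, B.range, P.comp E.symm.toMonoidHom, ?_, ?_, ?_, ?_⟩
    · rintro _ ⟨h, rfl⟩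
      refine ⟨fun p => ?_, fun p q hqp => ?_⟩
      · rw [hBval]
        exact blkD_diag N _ (fun i x => (hH i _ (h i).2).1 x) p
      · rw [hBval]
        exact blkD_low N _ (fun i x y hxy => (hH i _ (h i).2).2 x y hxy) p q hqp
    · exact hPc.comp hEsc
    · exact hPo.comp hEo
    · choose h hh using hg
      refine ⟨E h, ?_⟩
      funext i
      have : (P.comp E.symm.toMonoidHom) (E h) = P h := by
        simp
      rw [this]
      exact hh i

/-- multiple recurrence along powers (this is the job) -/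
theorem multi_rec (S : Set ℕ) (hS : TwoLarge S) (G : Type*) [Group G] [TopologicalSpace G]
    [IsTopologicalGroup G] (g : G) (hm : ∀ i : ℕ, HasModel (g ^ i)) (Γ : Subgroup G)
    (hc : CompactSpace (G ⧸ Γ)) (x : G ⧸ Γ) (U : Set (G ⧸ Γ))
    (hU : IsOpen U) (hx : x ∈ U) (k : ℕ) : ∃ s ∈ S, ∀ i < k, g ^ (i * s) • x ∈ U := by
  obtain ⟨N, H, φ, hH, hφ, hφ', ⟨h, hh⟩⟩ := HasModel.pi k (fun i : Fin k => g ^ (i : ℕ))
    (fun i => hm i)
  let Γ' : Subgroup (Fin k → G) := Subgroup.pi Set.univ (fun _ => Γ)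
  have hmem : ∀ a : Fin k → G, a ∈ Γ' ↔ ∀ i, a i ∈ Γ := by
    intro a
    simp [Γ', Subgroup.mem_pi]
  -- the projections
  let pr : Fin k → (Fin k → G) ⧸ Γ' → G ⧸ Γ := fun i =>
    Quotient.map' (fun a => a i) (by
      intro a b hab
      rw [QuotientGroup.leftRel_apply] at hab ⊢
      exact (hmem _).mp hab i)
  have hpr : ∀ i (a : Fin k → G), pr i (QuotientGroup.mk a) = QuotientGroup.mk (a i) :=
    fun i a => rfl
  have hprc : ∀ i, Continuous (pr i) := by
    intro i
    have h1 : IsQuotientMap (QuotientGroup.mk : (Fin k → G) → (Fin k → G) ⧸ Γ') :=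
      isQuotientMap_quotient_mk'
    rw [h1.continuous_iff]
    have : pr i ∘ (QuotientGroup.mk : (Fin k → G) → (Fin k → G) ⧸ Γ') =
        (QuotientGroup.mk : G → G ⧸ Γ) ∘ (fun a => a i) := by
      funext a
      rfl
    rw [this]
    exact QuotientGroup.continuous_mk.comp (continuous_apply i)
  have hprs : ∀ i (a : Fin k → G) (y : (Fin k → G) ⧸ Γ'), pr i (a • y) = a i • pr i y := by
    intro i a y
    obtain ⟨b, rfl⟩ := QuotientGroup.mk_surjective y
    rfl
  -- compactness
  have hcomp : CompactSpace ((Fin k → G) ⧸ Γ') := by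
    let Ψ : (Fin k → G ⧸ Γ) → (Fin k → G) ⧸ Γ' := fun c => QuotientGroup.mk fun i => (c i).out
    have hΨ : Ψ ∘ (Pi.map fun _ => (QuotientGroup.mk : G → G ⧸ Γ)) =
        (QuotientGroup.mk : (Fin k → G) → (Fin k → G) ⧸ Γ') := by
      funext a
      simp only [Function.comp_apply, Ψ]
      rw [QuotientGroup.eq, hmem]
      intro i
      have h1 : (QuotientGroup.mk ((QuotientGroup.mk (a i) : G ⧸ Γ).out) : G ⧸ Γ) =
          QuotientGroup.mk (a i) := QuotientGroup.out_eq' _
      exact QuotientGroup.eq.mp h1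
    have hq : IsOpenQuotientMap (Pi.map fun (_ : Fin k) => (QuotientGroup.mk : G → G ⧸ Γ)) :=
      IsOpenQuotientMap.piMap fun _ => QuotientGroup.isOpenQuotientMap_mk
    have hΨc : Continuous Ψ := by
      rw [hq.isQuotientMap.continuous_iff, hΨ]
      exact QuotientGroup.continuous_mk
    have hΨs : Function.Surjective Ψ := by
      intro y
      obtain ⟨b, rfl⟩ := QuotientGroup.mk_surjective y
      exact ⟨_, congrFun hΨ b⟩
    exact hΨs.compactSpace hΨc
  obtain ⟨l, rfl⟩ := QuotientGroup.mk_surjective x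
  obtain ⟨s, hs, hs2⟩ := matrix_result S hS N H hH (Fin k → G) φ hφ hφ' Γ' hcomp h
    (QuotientGroup.mk fun _ => l) {y | ∀ i, pr i y ∈ U}
    (by
      have : {y | ∀ i, pr i y ∈ U} = ⋂ i, pr i ⁻¹' U := by
        ext y
        simp
      rw [this]
      exact isOpen_iInter_of_finite fun i => hU.preimage (hprc i))
    (fun i => hx)
  refine ⟨s, hs, fun i hi => ?_⟩
  have h1 := hs2 ⟨i, hi⟩
  rw [hprs, hh] at h1
  rw [pow_mul]
  exact h1

end Pool.Agent.TH91.BG
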