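import Pool.Agent.TH645.MB.Orbit

/-!
The averaged inequality of Hopf type for a twist map with bounded phase space which is foliated
by invariant leaves.
-/

set_option autoImplicit false

namespace Pool.Agent.TH645.MB

open Real Filter Topology MeasureTheory Set
open Pool.Agent.TH229.PG (Leaf)
open Pool.Agent.TH229.MB (TwistData)
open Pool.Agent.TH645.PG (om om_eq om_ae ms1)
open scoped ENNReal

/-- admissible densities -/
structure Gd (T : ℝ) (a : ℝ → ℝ → ℝ) (ψ : ℝ × ℝ → ℝ) : Prop where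
  meas : Measurable ψ
  per : ∀ x x', ψ (x + T, x' + T) = ψ (x, x')
  int : Integrable (fun z : ℝ × ℝ => a z.1 (z.1 + z.2) * ψ (z.1, z.1 + z.2)) (om T)

section
variable {T C : ℝ} {p q a p0 q1 : ℝ → ℝ → ℝ} (H : MD T C p q a p0 q1)
include H

theorem apos1 {x d : ℝ} (hd : d ∈ Ioo 0 T) : 0 < a x (x + d) :=
  H.apos x (x + d) (by linarith [hd.1]) (by linarith [hd.2])

theorem step {ψ : ℝ × ℝ → ℝ} (h : Gd T a ψ) :
    Gd T a (fun z => ψ (F T p q z)) ∧
    ∫ z, a z.1 (z.1 + z.2) * ψ (F T p q (z.1, z.1 + z.2)) ∂(om T) =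
      ∫ z, a z.1 (z.1 + z.2) * ψ (z.1, z.1 + z.2) ∂(om T) := by
  have hmF := measurable_F H
  have m1 : Measurable (fun z : ℝ × ℝ => a z.1 (z.1 + z.2) * ψ (F T p q (z.1, z.1 + z.2))) :=
    (H.ma.comp ms1).mul ((h.meas.comp hmF).comp ms1)
  have key : ∀ f : ℝ × ℝ → ℝ≥0∞, Measurable f → (∀ x x', f (x + T, x' + T) = f (x, x')) →
      ∫⁻ z, ENNReal.ofReal (a z.1 (z.1 + z.2)) * f (F T p q (z.1, z.1 + z.2)) ∂(om T) =
      ∫⁻ z, ENNReal.ofReal (a z.1 (z.1 + z.2)) * f (z.1, z.1 + z.2) ∂(om T) :=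
    fun f hf hp => lint_inv H f hf hp
  have ev : ∀ (φ : ℝ × ℝ → ℝ), ∫⁻ z, ENNReal.ofReal (a z.1 (z.1 + z.2) * φ z) ∂(om T) =
      ∫⁻ z, ENNReal.ofReal (a z.1 (z.1 + z.2)) * ENNReal.ofReal (φ z) ∂(om T) := by
    intro φ
    refine lintegral_congr_ae ?_
    filter_upwards [om_ae] with z hz
    rw [ENNReal.ofReal_mul (apos1 H (x := z.1) hz).le]
  have i1 : Integrable (fun z : ℝ × ℝ => a z.1 (z.1 + z.2) * ψ (F T p q (z.1, z.1 + z.2)))
      (om T) := by
    refine ⟨m1.aestronglyMeasurable, ?_⟩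
    have h2 := h.int.2
    rw [hasFiniteIntegral_iff_norm] at h2 ⊢
    have k := key (fun z => ENNReal.ofReal ‖ψ z‖) h.meas.norm.ennreal_ofReal (fun x x' => by
      rw [h.per])
    have l1 : ∫⁻ z, ENNReal.ofReal ‖a z.1 (z.1 + z.2) * ψ (F T p q (z.1, z.1 + z.2))‖ ∂(om T) =
        ∫⁻ z, ENNReal.ofReal (a z.1 (z.1 + z.2)) *
          ENNReal.ofReal ‖ψ (F T p q (z.1, z.1 + z.2))‖ ∂(om T) := by
      refine lintegral_congr_ae ?_
      filter_upwards [om_ae] with z hz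
      have := apos1 H (x := z.1) hz
      rw [norm_mul, Real.norm_of_nonneg this.le, ENNReal.ofReal_mul this.le]
    have l2 : ∫⁻ z, ENNReal.ofReal ‖a z.1 (z.1 + z.2) * ψ (z.1, z.1 + z.2)‖ ∂(om T) =
        ∫⁻ z, ENNReal.ofReal (a z.1 (z.1 + z.2)) *
          ENNReal.ofReal ‖ψ (z.1, z.1 + z.2)‖ ∂(om T) := by
      refine lintegral_congr_ae ?_
      filter_upwards [om_ae] with z hz
      have := apos1 H (x := z.1) hz
      rw [norm_mul, Real.norm_of_nonneg this.le, ENNReal.ofReal_mul this.le]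
    rw [l1, k, ← l2]
    exact h2
  refine ⟨⟨h.meas.comp hmF, ?_, i1⟩, ?_⟩
  · intro x x'
    rw [F_per H, h.per]
  · rw [integral_eq_lintegral_pos_part_sub_lintegral_neg_part i1,
      integral_eq_lintegral_pos_part_sub_lintegral_neg_part h.int]
    have k1 := key (fun z => ENNReal.ofReal (ψ z)) h.meas.ennreal_ofReal (fun x x' => by
      rw [h.per])
    have k2 := key (fun z => ENNReal.ofReal (-ψ z)) h.meas.neg.ennreal_ofReal (fun x x' => by
      rw [h.per])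
    simp only [← mul_neg]
    rw [ev (fun z => ψ (F T p q (z.1, z.1 + z.2))), ev (fun z => ψ (z.1, z.1 + z.2)),
      ev (fun z => -ψ (F T p q (z.1, z.1 + z.2))), ev (fun z => -ψ (z.1, z.1 + z.2)), k1, k2]

theorem iter {ψ : ℝ × ℝ → ℝ} (h : Gd T a ψ) (n : ℕ) :
    Gd T a (fun z => ψ ((F T p q)^[n] z)) ∧
    ∫ z, a z.1 (z.1 + z.2) * ψ ((F T p q)^[n] (z.1, z.1 + z.2)) ∂(om T) =
      ∫ z, a z.1 (z.1 + z.2) * ψ (z.1, z.1 + z.2) ∂(om T) := by
  induction n with
  | zero => exact ⟨h, rfl⟩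
  | succ n ih =>
    obtain ⟨h1, h2⟩ := ih
    obtain ⟨h3, h4⟩ := step H h1
    simp only [Function.iterate_succ_apply]
    exact ⟨h3, h4.trans h2⟩

theorem hopf_md {f : ℝ → ℝ} (hf : Continuous f) (hfp : ∀ x, f (x + T) = f x) :
    ∫ z, a z.1 (z.1 + z.2) * Ps a p0 q1 f (z.1, z.1 + z.2) ∂(om T) ≤ 0 := by
  have hT := H.Tpos
  obtain ⟨B, hB⟩ : ∃ B, ∀ x, f x ^ 2 ≤ B := by
    have hc : IsCompact ((fun x => f x ^ 2) '' Icc 0 T) :=
      isCompact_Icc.image (hf.pow 2)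
    obtain ⟨B, hB⟩ := hc.bddAbove
    refine ⟨B, fun x => ?_⟩
    have hp : Function.Periodic f T := hfp
    obtain ⟨y, hy, hxy⟩ := hp.exists_mem_Ico₀ hT x
    rw [hxy]
    exact hB ⟨y, ⟨hy.1, hy.2.le⟩, rfl⟩
  have hB0 : 0 ≤ B := (sq_nonneg _).trans (hB 0)
  have hC : 0 ≤ C := by
    have := H.ba 0 (T / 2) (by linarith) (by linarith)
    exact (abs_nonneg _).trans this
  have hf1 : Measurable (fun z : ℝ × ℝ => f z.1) := hf.measurable.comp measurable_fst
  have hf2 : Measurable (fun z : ℝ × ℝ => f z.2) := hf.measurable.comp measurable_snd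
  have mPs : Measurable (Ps a p0 q1 f) := by
    unfold Ps
    exact ((H.mp0.mul (hf1.pow_const 2)).add (H.mq1.mul (hf2.pow_const 2))).add
      (((H.ma.const_mul 2).mul hf1).mul hf2)
  have hPb : ∀ x x', x < x' → x' < x + T → |Ps a p0 q1 f (x, x')| ≤ 4 * (C * B) := by
    intro x x' h h'
    unfold Ps
    simp only
    have b1 := H.bp0 x x' h h'
    have b2 := H.bq1 x x' h h'
    have b3 := H.ba x x' h h'
    have c1 := hB x
    have c2 := hB x'
    have e1 : |p0 x x' * f x ^ 2| ≤ C * B := by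
      rw [abs_mul, abs_of_nonneg (sq_nonneg (f x))]
      exact mul_le_mul b1 c1 (sq_nonneg _) hC
    have e2 : |q1 x x' * f x' ^ 2| ≤ C * B := by
      rw [abs_mul, abs_of_nonneg (sq_nonneg (f x'))]
      exact mul_le_mul b2 c2 (sq_nonneg _) hC
    have e3 : |2 * a x x' * f x * f x'| ≤ 2 * (C * B) := by
      have k1 : |f x * f x'| ≤ B := by
        rw [abs_le]
        constructor <;> nlinarith [sq_nonneg (f x + f x'), sq_nonneg (f x - f x')]
      have k2 : 2 * a x x' * f x * f x' = 2 * (a x x' * (f x * f x')) := by ring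
      rw [k2, abs_mul, abs_two, abs_mul]
      exact mul_le_mul_of_nonneg_left (mul_le_mul b3 k1 (abs_nonneg _) hC) (by norm_num)
    have e4 := abs_add_le (p0 x x' * f x ^ 2 + q1 x x' * f x' ^ 2) (2 * a x x' * f x * f x')
    have e5 := abs_add_le (p0 x x' * f x ^ 2) (q1 x x' * f x' ^ 2)
    linarith
  have hg : Gd T a (Ps a p0 q1 f) := by
    refine ⟨mPs, ?_, ?_⟩
    · intro x x'
      unfold Ps
      simp only
      rw [H.perp0, H.perq1, H.pera, hfp, hfp]
    · refine Integrable.of_bound (C := C * (4 * (C * B))) ?_ ?_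
      · exact ((H.ma.comp ms1).mul (mPs.comp ms1)).aestronglyMeasurable
      · filter_upwards [om_ae] with z hz
        rw [norm_mul, Real.norm_eq_abs, Real.norm_eq_abs]
        have k1 : z.1 < z.1 + z.2 := by linarith [hz.1]
        have k2 : z.1 + z.2 < z.1 + T := by linarith [hz.2]
        exact mul_le_mul (H.ba _ _ k1 k2) (hPb _ _ k1 k2) (abs_nonneg _) hC
  have ia : Integrable (fun z : ℝ × ℝ => a z.1 (z.1 + z.2)) (om T) := by
    refine Integrable.of_bound (C := C) (H.ma.comp ms1).aestronglyMeasurable ?_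
    filter_upwards [om_ae] with z hz
    rw [Real.norm_eq_abs]
    exact H.ba _ _ (by linarith [hz.1]) (by linarith [hz.2])
  set I := ∫ z, a z.1 (z.1 + z.2) * Ps a p0 q1 f (z.1, z.1 + z.2) ∂(om T) with hI
  set A := ∫ z, a z.1 (z.1 + z.2) ∂(om T) with hA
  have key : ∀ M : ℕ, (M : ℝ) * I ≤ A * (2 * (C * B)) := by
    intro M
    have s1 : ∫ z, ∑ n ∈ Finset.range M, a z.1 (z.1 + z.2) *
        Ps a p0 q1 f ((F T p q)^[n + 1] (z.1, z.1 + z.2)) ∂(om T) = (M : ℝ) * I := by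
      rw [integral_finsetSum _ fun n _ => ((iter H hg (n + 1)).1).int]
      simp only [(iter H hg _).2, Finset.sum_const, Finset.card_range, nsmul_eq_mul]
      rfl
    have i1 : Integrable (fun z : ℝ × ℝ => ∑ n ∈ Finset.range M, a z.1 (z.1 + z.2) *
        Ps a p0 q1 f ((F T p q)^[n + 1] (z.1, z.1 + z.2))) (om T) :=
      integrable_finsetSum _ fun n _ => ((iter H hg (n + 1)).1).int
    rw [← s1, hA, ← integral_mul_const]
    refine integral_mono_ae i1 (ia.mul_const _) ?_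
    filter_upwards [om_ae] with z hz
    have k1 : z.1 < z.1 + z.2 := by linarith [hz.1]
    have k2 : z.1 + z.2 < z.1 + T := by linarith [hz.2]
    rw [← Finset.mul_sum]
    exact mul_le_mul_of_nonneg_left (point_ineq H hB M k1 k2) (apos1 H (x := z.1) hz).le
  by_contra hlt
  rw [not_le] at hlt
  obtain ⟨M, hM⟩ := exists_nat_gt (A * (2 * (C * B)) / I)
  have h1 := key M
  have h2 := (div_lt_iff₀ hlt).mp hM
  linarith

end

/-- averaged inequality of Hopf type -/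
theorem hopf2 {T C : ℝ} {p q a p0 q1 : ℝ → ℝ → ℝ} (H : TwistData T C p q a p0 q1)
    {f : ℝ → ℝ} (hf : Continuous f) (hfp : ∀ x, f (x + T) = f x) :
    ∫ z in (Ioc 0 T) ×ˢ (Ioo 0 T), (p0 z.1 (z.1 + z.2) * f z.1 ^ 2 +
      q1 z.1 (z.1 + z.2) * f (z.1 + z.2) ^ 2 +
      2 * a z.1 (z.1 + z.2) * f z.1 * f (z.1 + z.2)) * a z.1 (z.1 + z.2) ≤ 0 := by
  have h := hopf_md (MD_of H) hf hfp
  rw [om_eq] at h
  refine le_of_eq_of_le ?_ h
  refine setIntegral_congr_fun (measurableSet_Ioc.prod measurableSet_Ioo) fun z hz => ?_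
  have k1 : z.1 < z.1 + z.2 := by linarith [hz.2.1]
  have k2 : z.1 + z.2 < z.1 + T := by linarith [hz.2.2]
  simp only [Ps]
  rw [ind_pos a k1 k2, ind_pos p0 k1 k2, ind_pos q1 k1 k2]
  ring

end Pool.Agent.TH645.MB
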